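import Pool.Agent.Lib.MP_585e73_co.Spec

/-!
# Recursion step for a normal `p`-subgroup
-/

set_option autoImplicit false

namespace Pool.Agent.Lib.MP_585e73_co

open Equiv

namespace Abaux

/-- several right multiplications -/
theorem enf_maps (h5 : StmtRel) (h6 : StmtJoin) (G : Type) [Group G] [Finite G] :
    ∀ (m : ℕ) (y : Fin m → G), Enf G G (fun σ => ∀ i x, σ (x * y i) = σ x * y i)
      (m * (Nat.card G + 1)) := by
  intro m
  induction m with
  | zero =>
    intro y
    exact (Enf.trivial G G).mono (fun σ _ i => i.elim0) (by simp)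
  | succ m ih =>
    intro y
    have e1 := ih (fun i => y i.castSucc)
    have e2 := h5 G G (fun x => x * y (Fin.last m)) (fun g x => by
      simp only [smul_eq_mul, mul_assoc])
    refine (h6 G G _ _ _ _ e1 e2).mono ?_ ?_
    · rintro σ ⟨s1, s2⟩ i x
      induction i using Fin.lastCases with
      | last => exact s2 x
      | cast i => exact s1 i x
    · rw [Nat.succ_mul]

/-- the subgroup of elements which commute with `σ` -/
def comm {G : Type} [Group G] (σ : Perm G) : Subgroup G where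
  carrier := {x | ∀ g, σ (g * x) = σ g * x}
  one_mem' := fun g => by simp
  mul_mem' := by
    intro x y hx hy g
    rw [← mul_assoc, hy (g * x), hx g, mul_assoc]
  inv_mem' := by
    intro x hx g
    have h := hx (g * x⁻¹)
    rw [inv_mul_cancel_right] at h
    rw [h, mul_inv_cancel_right]

theorem mem_comm {G : Type} [Group G] {σ : Perm G} {x : G} :
    x ∈ comm σ ↔ ∀ g, σ (g * x) = σ g * x := Iff.rfl

theorem eq_one {G : Type} [Group G] [Finite G] (p : ℕ) [Fact p.Prime] (N K : Subgroup G)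
    (hN : IsPGroup p N) (hK : ¬ p ∣ Nat.card K) {z : G} (h1 : z ∈ N) (h2 : z ∈ K) : z = 1 := by
  obtain ⟨k, hk⟩ := hN ⟨z, h1⟩
  have hk' : z ^ p ^ k = 1 := by
    have := congrArg Subtype.val hk
    simpa using this
  have d1 : orderOf z ∣ p ^ k := orderOf_dvd_of_pow_eq_one hk'
  have d2 : orderOf z ∣ Nat.card K := K.orderOf_dvd_natCard h2
  have hp : p.Prime := Fact.out
  have hc : Nat.Coprime (p ^ k) (Nat.card K) :=
    Nat.Coprime.pow_left _ ((Nat.Prime.coprime_iff_not_dvd hp).2 hK)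
  have d3 := Nat.dvd_gcd d1 d2
  rw [hc] at d3
  exact orderOf_eq_one_iff.1 (Nat.dvd_one.1 d3)

end Abaux

theorem stmtAb (h1 : StmtGen) (h2 : StmtQuot) (h3 : StmtInd) (h4 : StmtCoset) (h5 : StmtRel)
    (h6 : StmtJoin) : StmtAb := by
  intro C₀ t p _ G _ _ hAS hP N hNn hN c hQ
  obtain ⟨P⟩ := (inferInstance : Nonempty (Sylow p G))
  obtain ⟨K, y, hK, hgen⟩ := h1 t p G hAS P
  have e1 := h2 G N c hQ
  have e2 := h3 G (P : Subgroup G) _ (hP P)
  have e3 := h4 G K
  have e4 := Abaux.enf_maps h5 h6 G t y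
  refine (h6 G G _ _ _ _ e1 (h6 G G _ _ _ _ e2 (h6 G G _ _ _ _ e3 e4))).mono ?_ ?_
  · rintro σ ⟨⟨a, ha⟩, s2, s3, s4⟩
    have hall : Abaux.comm σ = ⊤ := by
      rw [eq_top_iff, ← hgen, Subgroup.closure_le]
      rintro x ((hx | hx) | ⟨i, rfl⟩)
      · exact fun g => s2 g x hx
      · intro g
        have hk := s3 g (g * x) (by rw [inv_mul_cancel_left]; exact hx)
        have hn : x⁻¹ * ((σ g)⁻¹ * σ (g * x)) ∈ N := by
          have n1 := ha g
          have n2 := ha (g * x)
          have n3 : x⁻¹ * ((a * g)⁻¹ * σ g)⁻¹ * x⁻¹⁻¹ ∈ N := hNn.conj_mem _ (N.inv_mem n1) _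
          have n4 := N.mul_mem n3 n2
          have e : x⁻¹ * ((a * g)⁻¹ * σ g)⁻¹ * x⁻¹⁻¹ * ((a * (g * x))⁻¹ * σ (g * x)) =
              x⁻¹ * ((σ g)⁻¹ * σ (g * x)) := by group
          rwa [e] at n4
        have hk2 : x⁻¹ * ((σ g)⁻¹ * σ (g * x)) ∈ K := K.mul_mem (K.inv_mem hx) hk
        have h := Abaux.eq_one p N K hN hK hn hk2
        have h' : (σ g)⁻¹ * σ (g * x) = x := by
          rw [inv_mul_eq_one] at h
          exact h.symm
        calc σ (g * x) = σ g * ((σ g)⁻¹ * σ (g * x)) := (mul_inv_cancel_left _ _).symm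
          _ = σ g * x := by rw [h']
      · exact fun g => s4 i g
    refine ⟨σ 1, fun g => ?_⟩
    have hg : g ∈ Abaux.comm σ := by rw [hall]; trivial
    have := hg 1
    rwa [one_mul] at this
  · have hn : 0 < Nat.card G := Nat.card_pos
    have hi : (P : Subgroup G).index * Nat.card (P : Subgroup G) = Nat.card G := by
      rw [mul_comm]; exact (P : Subgroup G).card_mul_index
    have hi2 : (P : Subgroup G).index ≤ Nat.card G := Nat.le_of_dvd hn (P : Subgroup G).index_dvd_card
    have hq : (P : Subgroup G).index * (2 * (C₀ * Nat.card (P : Subgroup G)) + 5) =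
        2 * C₀ * Nat.card G + 5 * (P : Subgroup G).index := by
      rw [← hi]; ring
    rw [hq]
    have ht : t ≤ t * Nat.card G := Nat.le_mul_of_pos_right _ hn
    nlinarith

end Pool.Agent.Lib.MP_585e73_co
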