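import Pool.Agent.Lib.MP_585e73_co.Spec

/-!
# MP_585e73_co: the prefix chain (`StmtChain`)
-/

set_option autoImplicit false

namespace Pool.Agent.Lib.MP_585e73_co

open Equiv

namespace Chainaux

variable {G : Type} [Group G] {k : ℕ}

/-- Node of level `m`: the class of `g` in `G/U m` for `m < k`, and `g` itself for `m ≥ k`. -/
def nd (C : Fin k → Subgroup G) (W' : Type) (m : ℕ) (g : G) :
    G ⊕ (((Σ i : Fin k, G ⧸ C i) ⊕ W') ⊕ (Σ m : Fin k, G ⧸ pref C (m : ℕ))) :=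
  if h : m < k then Sum.inr (Sum.inr ⟨⟨m, h⟩, (g : G ⧸ pref C m)⟩) else Sum.inl g

theorem nd_lt (C : Fin k → Subgroup G) (W' : Type) {m : ℕ} (h : m < k) (g : G) :
    nd C W' m g = Sum.inr (Sum.inr ⟨⟨m, h⟩, (g : G ⧸ pref C m)⟩) := by
  simp [nd, h]

theorem nd_ge (C : Fin k → Subgroup G) (W' : Type) {m : ℕ} (h : ¬ m < k) (g : G) :
    nd C W' m g = Sum.inl g := by
  simp [nd, h]

theorem pref_anti (C : Fin k → Subgroup G) {m m' : ℕ} (h : m ≤ m') : pref C m' ≤ pref C m := by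
  unfold pref
  exact le_iInf fun i => le_iInf fun hi => iInf_le_of_le i (iInf_le _ (lt_of_lt_of_le hi h))

theorem pref_le (C : Fin k → Subgroup G) (i : Fin k) : pref C ((i : ℕ) + 1) ≤ C i := by
  unfold pref
  exact iInf_le_of_le i (iInf_le _ (Nat.lt_succ_self _))

theorem pref_bot {C : Fin k → Subgroup G} (hC : pref C k = ⊥) {m : ℕ} (h : ¬ m < k) :
    pref C m = ⊥ := by
  have := pref_anti C (not_lt.mp h)
  rw [hC] at this
  exact le_bot_iff.mp this

theorem nd_eq_iff {C : Fin k → Subgroup G} (hC : pref C k = ⊥) (W' : Type) (m : ℕ) (g g' : G) :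
    nd C W' m g = nd C W' m g' ↔ g⁻¹ * g' ∈ pref C m := by
  by_cases h : m < k
  · rw [nd_lt C W' h, nd_lt C W' h]
    simp only [Sum.inr.injEq, Sigma.mk.injEq, heq_eq_eq, true_and]
    exact QuotientGroup.eq
  · rw [nd_ge C W' h, nd_ge C W' h, pref_bot hC h, Subgroup.mem_bot, Sum.inl.injEq,
      inv_mul_eq_one]

/-- The structure on `G` obtained from a structure on the disjoint union of the `G/C i`. -/
def str (C : Fin k → Subgroup G) [Finite G] (X' : RelStr (Σ i : Fin k, G ⧸ C i)) : RelStr G where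
  W := ((Σ i : Fin k, G ⧸ C i) ⊕ X'.W) ⊕ (Σ m : Fin k, G ⧸ pref C (m : ℕ))
  K := (Fin k ⊕ X'.K) ⊕ Fin k
  J := X'.J ⊕ Bool
  finW := inferInstance
  finK := inferInstance
  finJ := inferInstance
  κ := Sum.map (Sum.map (fun x => x.1) X'.κ) (fun x => x.1)
  R := fun j u v => match j with
    | Sum.inl j => ∃ u' v', u = Sum.inr (Sum.inl u') ∧ v = Sum.inr (Sum.inl v') ∧ X'.R j u' v'
    | Sum.inr true => ∃ (i : Fin k) (g : G), u = nd C X'.W ((i : ℕ) + 1) g ∧ v = nd C X'.W i g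
    | Sum.inr false => ∃ (i : Fin k) (g : G), u = nd C X'.W ((i : ℕ) + 1) g ∧
        v = Sum.inr (Sum.inl (Sum.inl ⟨i, (g : G ⧸ C i)⟩))

theorem out_mem (H : Subgroup G) (g : G) : g⁻¹ * (Quotient.out (g : G ⧸ H)) ∈ H := by
  obtain ⟨h, hh⟩ := QuotientGroup.mk_out_eq_mul H g
  rw [hh]
  simp

/-- Surjection counting the arcs. -/
noncomputable def arcMap (C : Fin k → Subgroup G) [Finite G]
    (X' : RelStr (Σ i : Fin k, G ⧸ C i)) :
    X'.arcs ⊕ ((Σ i : Fin k, G ⧸ pref C ((i : ℕ) + 1)) ⊕ (Σ i : Fin k, G ⧸ pref C ((i : ℕ) + 1))) →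
      (str C X').arcs
  | Sum.inl p => ⟨(Sum.inl p.1.1, Sum.inr (Sum.inl p.1.2.1), Sum.inr (Sum.inl p.1.2.2)),
      ⟨p.1.2.1, p.1.2.2, rfl, rfl, p.2⟩⟩
  | Sum.inr (Sum.inl p) => ⟨(Sum.inr true, nd C X'.W ((p.1 : ℕ) + 1) (Quotient.out p.2),
      nd C X'.W p.1 (Quotient.out p.2)), ⟨p.1, Quotient.out p.2, rfl, rfl⟩⟩
  | Sum.inr (Sum.inr p) => ⟨(Sum.inr false, nd C X'.W ((p.1 : ℕ) + 1) (Quotient.out p.2),
      Sum.inr (Sum.inl (Sum.inl ⟨p.1, (Quotient.out p.2 : G)⟩))),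
      ⟨p.1, Quotient.out p.2, rfl, rfl⟩⟩

theorem arcMap_surj {C : Fin k → Subgroup G} [Finite G] (hC : pref C k = ⊥)
    (X' : RelStr (Σ i : Fin k, G ⧸ C i)) : Function.Surjective (arcMap C X') := by
  rintro ⟨⟨j, u, v⟩, h⟩
  rcases j with j | j | j
  · obtain ⟨u', v', hu, hv, hR⟩ := h
    dsimp only at hu hv hR
    subst hu hv
    exact ⟨Sum.inl ⟨(j, u', v'), hR⟩, rfl⟩
  · obtain ⟨i, g, hu, hv⟩ := h
    dsimp only at hu hv
    subst hu hv
    refine ⟨Sum.inr (Sum.inr ⟨i, (g : G ⧸ pref C ((i : ℕ) + 1))⟩), ?_⟩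
    have hm := out_mem (pref C ((i : ℕ) + 1)) g
    have h1 := (nd_eq_iff hC X'.W ((i : ℕ) + 1) g _).mpr hm
    have h2 : ((g : G) : G ⧸ C i) = ((Quotient.out (g : G ⧸ pref C ((i : ℕ) + 1)) : G) : G ⧸ C i) :=
      QuotientGroup.eq.mpr (pref_le C i hm)
    apply Subtype.ext
    simp only [arcMap]
    rw [← h1, ← h2]
    rfl
  · obtain ⟨i, g, hu, hv⟩ := h
    dsimp only at hu hv
    subst hu hv
    refine ⟨Sum.inr (Sum.inl ⟨i, (g : G ⧸ pref C ((i : ℕ) + 1))⟩), ?_⟩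
    have hm := out_mem (pref C ((i : ℕ) + 1)) g
    have h1 := (nd_eq_iff hC X'.W ((i : ℕ) + 1) g _).mpr hm
    have h2 := (nd_eq_iff hC X'.W (i : ℕ) g _).mpr (pref_anti C (Nat.le_succ _) hm)
    apply Subtype.ext
    simp only [arcMap]
    rw [← h1, ← h2]

theorem card_sigma_quot {I : Type} [Fintype I] [Finite G] (H : I → Subgroup G) :
    Nat.card (Σ i : I, G ⧸ H i) = ∑ i : I, (H i).index := by
  rw [Nat.card_sigma]
  rfl

theorem cost_le {C : Fin k → Subgroup G} [Finite G] (hC : pref C k = ⊥)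
    (h1 : (∑ m ∈ Finset.range k, (pref C m).index) ≤ Nat.card G)
    (h2 : (∑ m ∈ Finset.range k, (pref C (m + 1)).index) ≤ 2 * Nat.card G)
    (h3 : (∑ i : Fin k, (C i).index) ≤ 2 * Nat.card G) (h4 : k ≤ Nat.card G)
    (X' : RelStr (Σ i : Fin k, G ⧸ C i)) :
    (str C X').cost ≤ X'.cost + 12 * Nat.card G := by
  have hX : Finite X'.arcs := by unfold RelStr.arcs; infer_instance
  have ha : Nat.card (str C X').arcs ≤ Nat.card X'.arcs +
      ((∑ i : Fin k, (pref C ((i : ℕ) + 1)).index) + ∑ i : Fin k, (pref C ((i : ℕ) + 1)).index) := by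
    have := Nat.card_le_card_of_surjective _ (arcMap_surj hC X')
    rwa [Nat.card_sum, Nat.card_sum, card_sigma_quot] at this
  have hW : Nat.card (str C X').W =
      ((∑ i : Fin k, (C i).index) + Nat.card X'.W) + ∑ i : Fin k, (pref C (i : ℕ)).index := by
    change Nat.card (((Σ i : Fin k, G ⧸ C i) ⊕ X'.W) ⊕ (Σ m : Fin k, G ⧸ pref C (m : ℕ))) = _
    rw [Nat.card_sum, Nat.card_sum, card_sigma_quot, card_sigma_quot]
  have hK : Nat.card (str C X').K = (k + Nat.card X'.K) + k := by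
    change Nat.card ((Fin k ⊕ X'.K) ⊕ Fin k) = _
    rw [Nat.card_sum, Nat.card_sum, Nat.card_fin]
  have hJ : Nat.card (str C X').J = Nat.card X'.J + 2 := by
    change Nat.card (X'.J ⊕ Bool) = _
    rw [Nat.card_sum]
    simp
  rw [Finset.sum_range] at h1 h2
  have hpos : 0 < Nat.card G := Nat.card_pos
  unfold RelStr.cost
  omega

/-! ### Invariance -/

variable [Finite G] {C : Fin k → Subgroup G}

/-- The action of `g` on the new structure. -/
def act (X' : RelStr (Σ i : Fin k, G ⧸ C i)) (g : G) (τ' : Perm X'.W) : Perm (str C X').W :=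
  Equiv.sumCongr (Equiv.sumCongr (MulAction.toPerm g) τ')
    (MulAction.toPerm g : Perm (Σ m : Fin k, G ⧸ pref C (m : ℕ)))

theorem act_nd (X' : RelStr (Σ i : Fin k, G ⧸ C i)) (g : G) (τ' : Perm X'.W) (m : ℕ) (x : G) :
    Equiv.sumCongr (MulAction.toPerm g) (act X' g τ') (nd C X'.W m x) = nd C X'.W m (g * x) := by
  by_cases h : m < k
  · rw [nd_lt C X'.W h, nd_lt C X'.W h]
    rfl
  · rw [nd_ge C X'.W h, nd_ge C X'.W h]
    rfl

theorem act_base (X' : RelStr (Σ i : Fin k, G ⧸ C i)) (g : G) (τ' : Perm X'.W) (i : Fin k) (x : G) :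
    Equiv.sumCongr (MulAction.toPerm g : Perm G) (act X' g τ')
      (Sum.inr (Sum.inl (Sum.inl ⟨i, (x : G ⧸ C i)⟩))) =
      Sum.inr (Sum.inl (Sum.inl ⟨i, ((g * x : G) : G ⧸ C i)⟩)) := rfl

theorem act_isAut (X' : RelStr (Σ i : Fin k, G ⧸ C i)) (g : G) (τ' : Perm X'.W)
    (h : X'.IsAut (MulAction.toPerm g) τ') :
    (str C X').IsAut (MulAction.toPerm g) (act X' g τ') := by
  refine ⟨?_, ?_⟩
  · rintro ((w | w) | w)
    · rfl
    · exact congrArg (fun x => Sum.inl (Sum.inr x)) (h.1 w)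
    · rfl
  · rintro (j | j | j) u v
    · constructor
      · rintro ⟨u', v', hu, hv, hR⟩
        subst hu hv
        exact ⟨_, _, rfl, rfl, (h.2 j u' v').mp hR⟩
      · rintro ⟨u', v', hu, hv, hR⟩
        have key : ∀ (u : G ⊕ (str C X').W) (u' : (Σ i : Fin k, G ⧸ C i) ⊕ X'.W),
            Equiv.sumCongr (MulAction.toPerm g) (act X' g τ') u = Sum.inr (Sum.inl u') →
            ∃ u'', u = Sum.inr (Sum.inl u'') ∧
              Equiv.sumCongr (MulAction.toPerm g) τ' u'' = u' := by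
          rintro (u | (u | u) | u) u' hu
          · exact absurd hu (by simp)
          · refine ⟨Sum.inl u, rfl, ?_⟩
            exact Sum.inl_injective (Sum.inr_injective hu)
          · refine ⟨Sum.inr u, rfl, ?_⟩
            exact Sum.inl_injective (Sum.inr_injective hu)
          · have := Sum.inr_injective hu
            exact absurd this Sum.inr_ne_inl
        obtain ⟨u'', rfl, rfl⟩ := key _ _ hu
        obtain ⟨v'', rfl, rfl⟩ := key _ _ hv
        exact ⟨_, _, rfl, rfl, (h.2 j u'' v'').mpr hR⟩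
    · constructor
      · rintro ⟨i, x, hu, hv⟩
        subst hu hv
        exact ⟨i, g * x, act_nd X' g τ' _ _, act_base X' g τ' _ _⟩
      · rintro ⟨i, x, hu, hv⟩
        refine ⟨i, g⁻¹ * x, ?_, ?_⟩
        · apply (Equiv.sumCongr (MulAction.toPerm g) (act X' g τ')).injective
          rw [hu, act_nd, mul_inv_cancel_left]
        · apply (Equiv.sumCongr (MulAction.toPerm g) (act X' g τ')).injective
          refine hv.trans (Eq.trans ?_ (act_base X' g τ' i (g⁻¹ * x)).symm)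
          rw [mul_inv_cancel_left]
    · constructor
      · rintro ⟨i, x, hu, hv⟩
        subst hu hv
        exact ⟨i, g * x, act_nd X' g τ' _ _, act_nd X' g τ' _ _⟩
      · rintro ⟨i, x, hu, hv⟩
        refine ⟨i, g⁻¹ * x, ?_, ?_⟩
        · apply (Equiv.sumCongr (MulAction.toPerm g) (act X' g τ')).injective
          rw [hu, act_nd, mul_inv_cancel_left]
        · apply (Equiv.sumCongr (MulAction.toPerm g) (act X' g τ')).injective
          rw [hv, act_nd, mul_inv_cancel_left]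

/-! ### The property -/

theorem nd_map (hC : pref C k = ⊥) (X' : RelStr (Σ i : Fin k, G ⧸ C i)) {σ : Perm G}
    {τ : Perm (str C X').W} (h : (str C X').IsAut σ τ) (d : ℕ) :
    ∀ m, m + d = k → ∀ g, Equiv.sumCongr σ τ (nd C X'.W m g) = nd C X'.W m (σ g) := by
  induction d with
  | zero =>
    intro m hm g
    have : ¬ m < k := by omega
    rw [nd_ge C X'.W this, nd_ge C X'.W this]
    rfl
  | succ d ih =>
    intro m hm g
    have hmk : m < k := by omega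
    have hR := (h.2 (Sum.inr true) (nd C X'.W (m + 1) g) (nd C X'.W m g)).mp
      ⟨⟨m, hmk⟩, g, rfl, rfl⟩
    obtain ⟨i, x, h1, h2⟩ := hR
    rw [ih (m + 1) (by omega) g] at h1
    rw [nd_lt C X'.W hmk, nd_lt C X'.W i.2] at h2
    have h2' := Sum.inr_injective h2
    have hκ := h.1 (Sum.inr ⟨⟨m, hmk⟩, (g : G ⧸ pref C m)⟩)
    change τ _ = _ at h2'
    rw [h2'] at hκ
    have hi : i = ⟨m, hmk⟩ := Sum.inr_injective hκ
    subst hi
    rw [nd_lt C X'.W hmk]
    change Sum.inr (τ _) = _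
    have h3 := (nd_eq_iff hC X'.W _ _ _).mp h1.symm
    refine Eq.trans ?_ ((nd_eq_iff hC X'.W m x (σ g)).mpr (pref_anti C (Nat.le_succ m) h3))
    rw [nd_lt C X'.W hmk]
    exact congrArg Sum.inr h2'

theorem base_map (hC : pref C k = ⊥) (X' : RelStr (Σ i : Fin k, G ⧸ C i)) {σ : Perm G}
    {τ : Perm (str C X').W} (h : (str C X').IsAut σ τ) (i : Fin k) (g : G) :
    τ (Sum.inl (Sum.inl ⟨i, (g : G ⧸ C i)⟩)) = Sum.inl (Sum.inl ⟨i, (σ g : G ⧸ C i)⟩) := by
  have hR := (h.2 (Sum.inr false) (nd C X'.W ((i : ℕ) + 1) g)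
      (Sum.inr (Sum.inl (Sum.inl ⟨i, (g : G ⧸ C i)⟩)))).mp ⟨i, g, rfl, rfl⟩
  obtain ⟨i', x, h1, h2⟩ := hR
  rw [nd_map hC X' h (k - (i + 1)) (i + 1) (by omega) g] at h1
  have h2' := Sum.inr_injective h2
  change τ _ = _ at h2'
  have hκ := h.1 (Sum.inl (Sum.inl ⟨i, (g : G ⧸ C i)⟩))
  rw [h2'] at hκ
  have hi : i' = i := Sum.inl_injective (Sum.inl_injective hκ)
  subst hi
  rw [h2']
  have h3 := (nd_eq_iff hC X'.W _ _ _).mp h1
  have h4 : ((σ g : G) : G ⧸ C i') = (x : G ⧸ C i') := QuotientGroup.eq.mpr (pref_le C i' h3)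
  rw [h4]

/-- An automorphism of the new structure restricts to an automorphism of the given one. -/
theorem split (hC : pref C k = ⊥) (X' : RelStr (Σ i : Fin k, G ⧸ C i)) {σ : Perm G}
    {τ : Perm (str C X').W} (h : (str C X').IsAut σ τ) :
    ∃ (σ' : Perm (Σ i : Fin k, G ⧸ C i)) (τ' : Perm X'.W),
      (∀ w, τ (Sum.inl w) = Sum.inl (Equiv.sumCongr σ' τ' w)) ∧
      (∀ (i : Fin k) (g : G), σ' ⟨i, (g : G ⧸ C i)⟩ = ⟨i, (σ g : G ⧸ C i)⟩) ∧
      X'.IsAut σ' τ' := by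
  have hfW : Finite ((Σ i : Fin k, G ⧸ C i) ⊕ X'.W) := inferInstance
  have m1 : Set.MapsTo τ (Set.range Sum.inl) (Set.range Sum.inl) := by
    rintro _ ⟨w, rfl⟩
    have hκ := h.1 (Sum.inl w)
    rcases hw : τ (Sum.inl w) with w' | w'
    · exact ⟨w', rfl⟩
    · rw [hw] at hκ
      rcases w with w | w <;> exact absurd hκ Sum.inr_ne_inl
  obtain ⟨⟨ρ, ρ'⟩, hρ⟩ := Equiv.Perm.mem_sumCongrHom_range_of_perm_mapsTo_inl
    (m := (Σ i : Fin k, G ⧸ C i) ⊕ X'.W) (n := Σ m : Fin k, G ⧸ pref C (m : ℕ)) (σ := τ) m1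
  have hρ1 : ∀ w, τ (Sum.inl w) = Sum.inl (ρ w) := by
    intro w
    rw [← hρ]
    rfl
  have m2 : Set.MapsTo ρ (Set.range Sum.inl) (Set.range Sum.inl) := by
    rintro _ ⟨⟨i, q⟩, rfl⟩
    obtain ⟨g, rfl⟩ := QuotientGroup.mk_surjective q
    have h1 := base_map hC X' h i g
    rw [hρ1] at h1
    exact ⟨_, (Sum.inl_injective h1).symm⟩
  obtain ⟨⟨σ', τ'⟩, hσ⟩ := Equiv.Perm.mem_sumCongrHom_range_of_perm_mapsTo_inl m2
  have hcomp : ∀ w, τ (Sum.inl w) = Sum.inl (Equiv.sumCongr σ' τ' w) := by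
    intro w
    rw [hρ1, ← hσ]
    rfl
  refine ⟨σ', τ', hcomp, ?_, ?_, ?_⟩
  · intro i g
    have h1 := base_map hC X' h i g
    rw [hcomp] at h1
    exact Sum.inl_injective (Sum.inl_injective h1)
  · intro w
    have h1 := h.1 (Sum.inl (Sum.inr w))
    rw [hcomp] at h1
    exact Sum.inr_injective (Sum.inl_injective h1)
  · intro j u v
    have h1 := h.2 (Sum.inl j) (Sum.inr (Sum.inl u)) (Sum.inr (Sum.inl v))
    have e1 : Equiv.sumCongr σ τ (Sum.inr (Sum.inl u)) =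
        Sum.inr (Sum.inl (Equiv.sumCongr σ' τ' u)) := congrArg Sum.inr (hcomp u)
    have e2 : Equiv.sumCongr σ τ (Sum.inr (Sum.inl v)) =
        Sum.inr (Sum.inl (Equiv.sumCongr σ' τ' v)) := congrArg Sum.inr (hcomp v)
    rw [e1, e2] at h1
    constructor
    · intro hR
      obtain ⟨u', v', hu, hv, hR'⟩ := h1.mp ⟨u, v, rfl, rfl, hR⟩
      rw [Sum.inl_injective (Sum.inr_injective hu), Sum.inl_injective (Sum.inr_injective hv)]
      exact hR'
    · intro hR
      obtain ⟨u', v', hu, hv, hR'⟩ := h1.mpr ⟨_, _, rfl, rfl, hR⟩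
      rw [Sum.inl_injective (Sum.inr_injective hu), Sum.inl_injective (Sum.inr_injective hv)]
      exact hR'

end Chainaux

theorem stmtChain (h : StmtChainCard) : StmtChain := by
  intro G _ _ k C hC Q' c' hE
  obtain ⟨X', hcost, hinv, hprop, htriv⟩ := hE
  obtain ⟨h1, h2, h3, h4⟩ := h G k C hC
  refine ⟨Chainaux.str C X', (Chainaux.cost_le hC.1 h1 h2 h3 h4 X').trans (by omega), ?_, ?_, ?_⟩
  · intro g
    obtain ⟨τ', hτ'⟩ := hinv g
    exact ⟨Chainaux.act X' g τ', Chainaux.act_isAut X' g τ' hτ'⟩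
  · intro σ τ hστ
    obtain ⟨σ', τ', -, hA, hB⟩ := Chainaux.split hC.1 X' hστ
    exact ⟨σ', hA, hprop σ' τ' hB⟩
  · intro τ hτ
    obtain ⟨σ', τ', hcomp, hA, hB⟩ := Chainaux.split hC.1 X' hτ
    have hσ' : σ' = 1 := by
      apply Equiv.ext
      rintro ⟨i, q⟩
      obtain ⟨g, rfl⟩ := QuotientGroup.mk_surjective q
      exact hA i g
    subst hσ'
    have hτ' := htriv τ' hB
    subst hτ'
    apply Equiv.ext
    rintro (w | w)
    · rw [hcomp]
      rcases w with w | w <;> rfl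
    · obtain ⟨m, q⟩ := w
      obtain ⟨g, rfl⟩ := QuotientGroup.mk_surjective q
      have h5 := Chainaux.nd_map hC.1 X' hτ (k - m) m (by omega) g
      rw [Chainaux.nd_lt C X'.W m.2, Chainaux.nd_lt C X'.W m.2] at h5
      exact Sum.inr_injective h5

end Pool.Agent.Lib.MP_585e73_co
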