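import Pool.Agent.Lib.MP_585e73_co.Spec

/-!
# From structures to coloured graphs
-/

set_option autoImplicit false

namespace Pool.Agent.Lib.MP_585e73_co

open Equiv

namespace Colouraux

variable {G : Type}

/-- the vertices: base and auxiliary vertices, and two vertices for each arc -/
abbrev Vt (X : RelStr G) : Type := (G ⊕ X.W) ⊕ (X.arcs ⊕ X.arcs)

/-- the arcs of the subdivided graph -/
def rl (X : RelStr G) : Vt X → Vt X → Prop
  | .inl u, .inr (.inl e) => e.1.2.1 = u
  | .inr (.inl e), .inr (.inr e') => e = e'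
  | .inr (.inr e), .inl v => e.1.2.2 = v
  | _, _ => False

/-- the subdivided graph -/
def gr (X : RelStr G) : SimpleGraph (Vt X) := SimpleGraph.fromRel (rl X)

theorem gr_adj (X : RelStr G) (a b : Vt X) : (gr X).Adj a b ↔ a ≠ b ∧ (rl X a b ∨ rl X b a) :=
  SimpleGraph.fromRel_adj _ _ _

theorem adj_ua (X : RelStr G) (u : G ⊕ X.W) (e : X.arcs) :
    (gr X).Adj (.inl u) (.inr (.inl e)) ↔ e.1.2.1 = u := by
  rw [gr_adj]
  simp [rl]

theorem adj_ab (X : RelStr G) (e e' : X.arcs) :
    (gr X).Adj (.inr (.inl e)) (.inr (.inr e')) ↔ e = e' := by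
  rw [gr_adj]
  simp [rl]

theorem adj_bv (X : RelStr G) (v : G ⊕ X.W) (e : X.arcs) :
    (gr X).Adj (.inr (.inr e)) (.inl v) ↔ e.1.2.2 = v := by
  rw [gr_adj]
  simp [rl]

/-- the colours -/
noncomputable def cl (X : RelStr G) : Vt X → ℕ
  | .inl (.inl _) => Nat.card X.K + Nat.card X.J + 2
  | .inl (.inr w) => 1 + (Finite.equivFin X.K (X.κ w)).val
  | .inr (.inl e) => Nat.card X.K + 1 + (Finite.equivFin X.J e.1.1).val
  | .inr (.inr _) => Nat.card X.K + Nat.card X.J + 1

theorem finArcs (X : RelStr G) [Finite G] : Finite X.arcs := by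
  unfold RelStr.arcs
  infer_instance

theorem edges_le (X : RelStr G) [Finite G] : Nat.card (gr X).edgeSet ≤ 3 * Nat.card X.arcs := by
  have := finArcs X
  let f : X.arcs ⊕ (X.arcs ⊕ X.arcs) → Sym2 (Vt X) := fun x => match x with
    | .inl e => s(.inl e.1.2.1, .inr (.inl e))
    | .inr (.inl e) => s(.inr (.inl e), .inr (.inr e))
    | .inr (.inr e) => s(.inr (.inr e), .inl e.1.2.2)
  have key : ∀ a b : Vt X, rl X a b → s(a, b) ∈ Set.range f := by
    intro a b h
    rcases a with u | e | e <;> rcases b with v | e' | e' <;> simp only [rl] at h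
    · exact ⟨.inl e', by simp [f, h]⟩
    · exact ⟨.inr (.inl e), by simp [f, h]⟩
    · exact ⟨.inr (.inr e), by simp [f, h]⟩
  have hsub : (gr X).edgeSet ⊆ Set.range f := by
    intro x hx
    induction x using Sym2.ind with
    | _ a b =>
      rw [SimpleGraph.mem_edgeSet, gr_adj] at hx
      rcases hx.2 with h | h
      · exact key a b h
      · rw [Sym2.eq_swap]
        exact key b a h
  calc Nat.card (gr X).edgeSet ≤ Nat.card (Set.range f) := Nat.card_mono (Set.toFinite _) hsub
    _ ≤ Nat.card (X.arcs ⊕ (X.arcs ⊕ X.arcs)) := Finite.card_range_le f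
    _ = 3 * Nat.card X.arcs := by
        rw [Nat.card_sum, Nat.card_sum]
        ring

/-- what a colour preserving automorphism looks like -/
theorem shape (X : RelStr G) [Finite G] (π : Perm (Vt X)) (h1 : ∀ v, cl X (π v) = cl X v)
    (h2 : ∀ u v, (gr X).Adj (π u) (π v) ↔ (gr X).Adj u v) :
    ∃ (σ : Perm G) (τ : Perm X.W), X.IsAut σ τ ∧
      (∀ u, π (.inl u) = .inl (Equiv.sumCongr σ τ u)) ∧
      ∀ e : X.arcs, ∃ e' : X.arcs, π (.inr (.inl e)) = .inr (.inl e') ∧
        π (.inr (.inr e)) = .inr (.inr e') ∧ e'.1.1 = e.1.1 ∧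
        e'.1.2.1 = Equiv.sumCongr σ τ e.1.2.1 ∧ e'.1.2.2 = Equiv.sumCongr σ τ e.1.2.2 := by
  have := finArcs X
  have e1 : ∀ g : G, ∃ g' : G, π (.inl (.inl g)) = .inl (.inl g') := by
    intro g
    have h3 := h1 (.inl (.inl g))
    rcases hx : π (.inl (.inl g)) with (g' | w) | e | e
    · exact ⟨g', rfl⟩
    · rw [hx] at h3
      simp only [cl] at h3
      have := (Finite.equivFin X.K (X.κ w)).2
      omega
    · rw [hx] at h3
      simp only [cl] at h3
      have := (Finite.equivFin X.J e.1.1).2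
      omega
    · rw [hx] at h3
      simp only [cl] at h3
      omega
  have e2 : ∀ w : X.W, ∃ w' : X.W, π (.inl (.inr w)) = .inl (.inr w') ∧ X.κ w' = X.κ w := by
    intro w
    have h3 := h1 (.inl (.inr w))
    have h4 := (Finite.equivFin X.K (X.κ w)).2
    rcases hx : π (.inl (.inr w)) with (g' | w') | e | e
    · rw [hx] at h3
      simp only [cl] at h3
      omega
    · refine ⟨w', rfl, ?_⟩
      rw [hx] at h3
      simp only [cl] at h3
      apply (Finite.equivFin X.K).injective
      apply Fin.ext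
      omega
    · rw [hx] at h3
      simp only [cl] at h3
      omega
    · rw [hx] at h3
      simp only [cl] at h3
      omega
  have e3 : ∀ e : X.arcs, ∃ e' : X.arcs, π (.inr (.inl e)) = .inr (.inl e') ∧
      e'.1.1 = e.1.1 := by
    intro e
    have h3 := h1 (.inr (.inl e))
    have h4 := (Finite.equivFin X.J e.1.1).2
    rcases hx : π (.inr (.inl e)) with (g' | w) | e' | e'
    · rw [hx] at h3
      simp only [cl] at h3
      omega
    · rw [hx] at h3
      simp only [cl] at h3
      have := (Finite.equivFin X.K (X.κ w)).2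
      omega
    · refine ⟨e', rfl, ?_⟩
      rw [hx] at h3
      simp only [cl] at h3
      apply (Finite.equivFin X.J).injective
      apply Fin.ext
      omega
    · rw [hx] at h3
      simp only [cl] at h3
      omega
  have e4 : ∀ e : X.arcs, ∃ e' : X.arcs, π (.inr (.inr e)) = .inr (.inr e') := by
    intro e
    have h3 := h1 (.inr (.inr e))
    rcases hx : π (.inr (.inr e)) with (g' | w) | e' | e'
    · rw [hx] at h3
      simp only [cl] at h3
      omega
    · rw [hx] at h3
      simp only [cl] at h3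
      have := (Finite.equivFin X.K (X.κ w)).2
      omega
    · rw [hx] at h3
      simp only [cl] at h3
      have := (Finite.equivFin X.J e'.1.1).2
      omega
    · exact ⟨e', rfl⟩
  choose f hf using e1
  choose f' hf' hκ using e2
  choose fa hfa hj using e3
  choose fb hfb using e4
  have if1 : Function.Injective f := by
    intro g g' hgg
    have h3 : π (.inl (.inl g)) = π (.inl (.inl g')) := by rw [hf, hf, hgg]
    have := π.injective h3
    simpa using this
  have if2 : Function.Injective f' := by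
    intro g g' hgg
    have h3 : π (.inl (.inr g)) = π (.inl (.inr g')) := by rw [hf', hf', hgg]
    have := π.injective h3
    simpa using this
  have if3 : Function.Injective fa := by
    intro g g' hgg
    have h3 : π (.inr (.inl g)) = π (.inr (.inl g')) := by rw [hfa, hfa, hgg]
    have := π.injective h3
    simpa using this
  let σ : Perm G := Equiv.ofBijective f (Finite.injective_iff_bijective.mp if1)
  let τ : Perm X.W := Equiv.ofBijective f' (Finite.injective_iff_bijective.mp if2)
  have hs : ∀ u, π (.inl u) = .inl (Equiv.sumCongr σ τ u) := by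
    rintro (g | w)
    · exact hf g
    · exact hf' w
  have hab : ∀ e, fb e = fa e := by
    intro e
    have h3 := (h2 (.inr (.inl e)) (.inr (.inr e))).mpr ((adj_ab X e e).mpr rfl)
    rw [hfa, hfb, adj_ab] at h3
    exact h3.symm
  have hu : ∀ e : X.arcs, (fa e).1.2.1 = Equiv.sumCongr σ τ e.1.2.1 := by
    intro e
    have h3 := (h2 (.inl e.1.2.1) (.inr (.inl e))).mpr ((adj_ua X _ e).mpr rfl)
    rw [hs, hfa, adj_ua] at h3
    exact h3
  have hv : ∀ e : X.arcs, (fa e).1.2.2 = Equiv.sumCongr σ τ e.1.2.2 := by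
    intro e
    have h3 := (h2 (.inr (.inr e)) (.inl e.1.2.2)).mpr ((adj_bv X _ e).mpr rfl)
    rw [hs, hfb, adj_bv, hab] at h3
    exact h3
  refine ⟨σ, τ, ⟨hκ, ?_⟩, hs, fun e => ⟨fa e, hfa e, by rw [hfb, hab], hj e, hu e, hv e⟩⟩
  intro j u v
  constructor
  · intro hR
    let e : X.arcs := ⟨(j, u, v), hR⟩
    have h3 := (fa e).2
    rw [hj e, hu e, hv e] at h3
    exact h3
  · intro hR
    obtain ⟨e, he⟩ := (Finite.injective_iff_bijective.mp if3).2
      (⟨(j, Equiv.sumCongr σ τ u, Equiv.sumCongr σ τ v), hR⟩ : X.arcs)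
    have h3 := hj e
    have h4 := hu e
    have h5 := hv e
    rw [he] at h3 h4 h5
    have h6 := (Equiv.sumCongr σ τ).injective h4
    have h7 := (Equiv.sumCongr σ τ).injective h5
    have h8 := e.2
    rw [← h6, ← h7, ← h3] at h8
    exact h8

/-- the permutation of the arcs induced by an automorphism -/
def arcPerm (X : RelStr G) (s : Perm (G ⊕ X.W)) (h : ∀ j u v, X.R j u v ↔ X.R j (s u) (s v)) :
    Perm X.arcs where
  toFun e := ⟨(e.1.1, s e.1.2.1, s e.1.2.2), (h _ _ _).mp e.2⟩
  invFun e := ⟨(e.1.1, s.symm e.1.2.1, s.symm e.1.2.2), (h _ _ _).mpr (by simpa using e.2)⟩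
  left_inv := by
    rintro ⟨⟨j, u, v⟩, he⟩
    simp
  right_inv := by
    rintro ⟨⟨j, u, v⟩, he⟩
    simp

/-- an automorphism of the structure extends -/
theorem extend (X : RelStr G) (σ : Perm G) (τ : Perm X.W) (h : X.IsAut σ τ) :
    ∃ π : Perm (Vt X), π ∈ colAut (gr X) (cl X) ∧ ∀ g : G, π (.inl (.inl g)) = .inl (.inl (σ g)) := by
  let s : Perm (G ⊕ X.W) := Equiv.sumCongr σ τ
  let p : Perm X.arcs := arcPerm X s h.2
  let π : Perm (Vt X) := Equiv.sumCongr s (Equiv.sumCongr p p)
  have hrl : ∀ a b, rl X (π a) (π b) ↔ rl X a b := by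
    intro a b
    rcases a with u | e | e <;> rcases b with v | e' | e'
    · exact Iff.rfl
    · show s e'.1.2.1 = s u ↔ e'.1.2.1 = u
      exact s.injective.eq_iff
    · exact Iff.rfl
    · exact Iff.rfl
    · exact Iff.rfl
    · show p e = p e' ↔ e = e'
      exact p.injective.eq_iff
    · show s e.1.2.2 = s v ↔ e.1.2.2 = v
      exact s.injective.eq_iff
    · exact Iff.rfl
    · exact Iff.rfl
  refine ⟨π, ⟨?_, ?_⟩, fun g => rfl⟩
  · rintro ((g | w) | e | e)
    · rfl
    · show 1 + (Finite.equivFin X.K (X.κ (τ w))).val = 1 + (Finite.equivFin X.K (X.κ w)).val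
      rw [h.1 w]
    · rfl
    · rfl
  · intro u v
    rw [gr_adj, gr_adj, hrl, hrl, π.injective.ne_iff]

end Colouraux

open Colouraux in
theorem stmtColour : StmtColour := by
  intro G _ _ c hE
  obtain ⟨X, hcost, hinv, hQ, hfaith⟩ := hE
  have hfA := finArcs X
  have hL : ∀ π : colAut (gr X) (cl X), ∃ a : G, ∀ g : G,
      (π : Perm (Vt X)) (.inl (.inl g)) = .inl (.inl (a * g)) := by
    rintro ⟨π, h1, h2⟩
    obtain ⟨σ, τ, hst, hs, -⟩ := shape X π h1 h2
    obtain ⟨a, ha⟩ := hQ σ τ hst
    refine ⟨a, fun g => ?_⟩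
    show π (.inl (.inl g)) = _
    rw [hs]
    show Sum.inl (Sum.inl (σ g)) = _
    rw [ha]
  choose F hF using hL
  have hmul : ∀ π π' : colAut (gr X) (cl X), F (π * π') = F π * F π' := by
    intro π π'
    have h1 := hF (π * π') 1
    have h2 : ((π * π' : colAut (gr X) (cl X)) : Perm (Vt X)) (.inl (.inl 1)) =
        (π : Perm (Vt X)) ((π' : Perm (Vt X)) (.inl (.inl 1))) := rfl
    rw [h2, hF π', hF π] at h1
    have h3 := Sum.inl.inj (Sum.inl.inj h1)
    rw [mul_one, mul_one] at h3
    exact h3.symm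
  let Φ : colAut (gr X) (cl X) →* G := MonoidHom.mk' F hmul
  have hinj : Function.Injective Φ := by
    rw [injective_iff_map_eq_one]
    rintro ⟨π, h1, h2⟩ h3
    have h4 : ∀ g : G, π (.inl (.inl g)) = .inl (.inl g) := by
      intro g
      have h5 := hF ⟨π, h1, h2⟩ g
      have h6 : F ⟨π, h1, h2⟩ = 1 := h3
      rw [h6, one_mul] at h5
      exact h5
    obtain ⟨σ, τ, hst, hs, harc⟩ := shape X π h1 h2
    have hσ : σ = 1 := by
      ext g
      have h5 := h4 g
      rw [hs] at h5
      exact Sum.inl.inj (Sum.inl.inj h5)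
    subst hσ
    have hτ := hfaith τ hst
    subst hτ
    have hid : ∀ u, Equiv.sumCongr (1 : Perm G) (1 : Perm X.W) u = u := by
      rintro (g | w) <;> rfl
    have harc2 : ∀ e : X.arcs, π (.inr (.inl e)) = .inr (.inl e) ∧
        π (.inr (.inr e)) = .inr (.inr e) := by
      intro e
      obtain ⟨e', h5, h6, h7, h8, h9⟩ := harc e
      have h10 : e' = e := by
        apply Subtype.ext
        rw [hid] at h8 h9
        exact Prod.ext h7 (Prod.ext h8 h9)
      rw [h10] at h5 h6
      exact ⟨h5, h6⟩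
    apply Subtype.ext
    show π = 1
    ext v
    rcases v with u | e | e
    · show π (.inl u) = .inl u
      rw [hs, hid]
    · exact (harc2 e).1
    · exact (harc2 e).2
  have hsurj : Function.Surjective Φ := by
    intro g
    obtain ⟨τ, hτ⟩ := hinv g
    obtain ⟨π, hπ, hπ2⟩ := extend X _ τ hτ
    refine ⟨⟨π, hπ⟩, ?_⟩
    have h1 := hF ⟨π, hπ⟩ 1
    have h2 := hπ2 1
    have h3 : (π : Perm (Vt X)) (.inl (.inl 1)) = .inl (.inl (F ⟨π, hπ⟩ * 1)) := h1
    rw [h2] at h3
    have h4 := Sum.inl.inj (Sum.inl.inj h3)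
    rw [mul_one, MulAction.toPerm_apply, smul_eq_mul, mul_one] at h4
    exact h4.symm
  refine ⟨Vt X, inferInstance, gr X, Nat.card X.K + Nat.card X.J + 2, cl X, by omega, ?_,
    ⟨.inl (.inl 1), rfl⟩, ⟨MulEquiv.ofBijective Φ ⟨hinj, hsurj⟩⟩, ?_⟩
  · rintro ((g | w) | e | e)
    · simp only [cl]; omega
    · simp only [cl]
      have := (Finite.equivFin X.K (X.κ w)).2
      omega
    · simp only [cl]
      have := (Finite.equivFin X.J e.1.1).2
      omega
    · simp only [cl]; omega
  · have h1 := edges_le X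
    have h2 : Nat.card (Vt X) = Nat.card G + Nat.card X.W + (Nat.card X.arcs + Nat.card X.arcs) := by
      rw [Nat.card_sum, Nat.card_sum, Nat.card_sum]
    have h3 : 0 < Nat.card G := Nat.card_pos
    rw [RelStr.cost] at hcost
    omega

end Pool.Agent.Lib.MP_585e73_co
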