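import Mathlib

/-!
# Graphs with prescribed automorphism group and few edges (MP_585e73_co): definitions

An *enforcement calculus*. For a finite `G`-set `Ω` (usually `Ω = G` with left multiplication) a
relational structure over `Ω` has auxiliary vertices `W`, coloured by `κ : W → K`, and binary
relations `R j` on `Ω ⊕ W`. Its cost is `|W| + |K| + |J| + ∑ j, |R j|`. A property `𝒬` of
permutations of `Ω` is *enforced* at cost `c` if there is a `G`-invariant structure of cost `≤ c` all
of whose automorphisms induce on `Ω` a permutation satisfying `𝒬`, and such that an automorphism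
which is trivial on `Ω` is trivial.
-/

set_option autoImplicit false

namespace Pool.Agent.Lib.MP_585e73_co

open Equiv

/-- A coloured relational structure with base set `Ω` and auxiliary vertices `W`. -/
structure RelStr (Ω : Type) where
  W : Type
  K : Type
  J : Type
  finW : Finite W
  finK : Finite K
  finJ : Finite J
  κ : W → K
  R : J → Ω ⊕ W → Ω ⊕ W → Prop

attribute [instance] RelStr.finW RelStr.finK RelStr.finJ

/-- The arcs (related pairs, with the index of the relation). -/
def RelStr.arcs {Ω : Type} (X : RelStr Ω) : Type :=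
  {p : X.J × (Ω ⊕ X.W) × (Ω ⊕ X.W) // X.R p.1 p.2.1 p.2.2}

/-- The cost of a structure. -/
noncomputable def RelStr.cost {Ω : Type} (X : RelStr Ω) : ℕ :=
  Nat.card X.W + Nat.card X.K + Nat.card X.J + Nat.card X.arcs

/-- Automorphisms: pairs of a permutation of the base and a colour preserving permutation of the
auxiliary vertices which together preserve all relations. -/
def RelStr.IsAut {Ω : Type} (X : RelStr Ω) (σ : Perm Ω) (τ : Perm X.W) : Prop :=
  (∀ w, X.κ (τ w) = X.κ w) ∧
    ∀ j u v, X.R j u v ↔ X.R j (Equiv.sumCongr σ τ u) (Equiv.sumCongr σ τ v)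

/-- The property `𝒬` of permutations of the `G`-set `Ω` is enforced at cost `c`. -/
def Enf (G : Type) [Group G] (Ω : Type) [MulAction G Ω] (𝒬 : Perm Ω → Prop) (c : ℕ) : Prop :=
  ∃ X : RelStr Ω, X.cost ≤ c ∧ (∀ g : G, ∃ τ, X.IsAut (MulAction.toPerm g) τ) ∧
    (∀ σ τ, X.IsAut σ τ → 𝒬 σ) ∧ (∀ τ, X.IsAut 1 τ → τ = 1)

/-- The permutation `σ` of the group `G` is a left multiplication. -/
def IsLeft {G : Type} [Group G] (σ : Perm G) : Prop := ∃ a : G, ∀ g, σ g = a * g

theorem Enf.mono {G : Type} [Group G] {Ω : Type} [MulAction G Ω] {Q Q' : Perm Ω → Prop} {c c' : ℕ}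
    (h : Enf G Ω Q c) (hQ : ∀ σ, Q σ → Q' σ) (hc : c ≤ c') : Enf G Ω Q' c' := by
  obtain ⟨X, h1, h2, h3, h4⟩ := h
  exact ⟨X, h1.trans hc, h2, fun σ τ hh => hQ σ (h3 σ τ hh), h4⟩

/-- The trivial property costs nothing. -/
theorem Enf.trivial (G : Type) [Group G] (Ω : Type) [MulAction G Ω] :
    Enf G Ω (fun _ => True) 0 := by
  refine ⟨⟨Empty, Empty, Empty, inferInstance, inferInstance, inferInstance, fun w => w.elim,
    fun j => j.elim⟩, ?_, ?_, ?_, ?_⟩
  · have : IsEmpty (RelStr.arcs (⟨Empty, Empty, Empty, inferInstance, inferInstance, inferInstance,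
        fun w => w.elim, fun j => j.elim⟩ : RelStr Ω)) := ⟨fun x => x.1.1.elim⟩
    simp [RelStr.cost]
  · exact fun g => ⟨1, fun w => w.elim, fun j => j.elim⟩
  · exact fun _ _ _ => True.intro
  · exact fun τ _ => Equiv.ext fun w => w.elim

/-- Colour preserving automorphisms of a graph `Γ` with vertex colouring `c`. -/
def colAut {V : Type} (Γ : SimpleGraph V) (c : V → ℕ) : Subgroup (Perm V) where
  carrier := {π | (∀ v, c (π v) = c v) ∧ ∀ u v, Γ.Adj (π u) (π v) ↔ Γ.Adj u v}
  one_mem' := by simp
  mul_mem' := by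
    rintro a b ⟨ha, ha'⟩ ⟨hb, hb'⟩
    exact ⟨fun v => by rw [Perm.mul_apply, ha, hb], fun u v => by
      rw [Perm.mul_apply, Perm.mul_apply, ha', hb']⟩
  inv_mem' := by
    rintro a ⟨ha, ha'⟩
    refine ⟨fun v => ?_, fun u v => ?_⟩
    · have := ha (a⁻¹ v)
      simpa using this.symm
    · have := ha' (a⁻¹ u) (a⁻¹ v)
      simpa using this.symm

/-- For every nonabelian simple section `S` of `G`, every group `X` with `Inn S ≤ X ≤ Aut S` is
generated by `t` elements. -/
def ASGen (t : ℕ) (G : Type) [Group G] : Prop :=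
  ∀ (S : Type) [Group S] [Finite S] [IsSimpleGroup S], (∃ a b : S, a * b ≠ b * a) →
    (∃ (H : Subgroup G) (f : H →* S), Function.Surjective f) →
    ∀ X : Subgroup (MulAut S), (MulAut.conj : S →* MulAut S).range ≤ X →
      ∃ x : Fin t → MulAut S, Subgroup.closure (Set.range x) = X

end Pool.Agent.Lib.MP_585e73_co
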