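import Pool.Agent.Lib.MP_585e73_co.Spec

/-!
# Gaschuetz lemma (counting proof)
-/

set_option autoImplicit false

namespace Pool.Agent.Lib.MP_585e73_co

namespace Gaschaux

variable {X : Type} [Group X] [Fintype X] (N : Subgroup X) [N.Normal] {r : ℕ}

open Classical in
/-- lifts of a tuple of the quotient which generate `Y` -/
noncomputable def genLifts (w : Fin r → X ⧸ N) (Y : Subgroup X) : Finset (Fin r → X) :=
  Finset.univ.filter (fun v => (∀ i, (v i : X ⧸ N) = w i) ∧ Subgroup.closure (Set.range v) = Y)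

open Classical in
/-- lifts of a tuple of the quotient contained in `Y` -/
noncomputable def lifts (w : Fin r → X ⧸ N) (Y : Subgroup X) : Finset (Fin r → X) :=
  Finset.univ.filter (fun v => (∀ i, (v i : X ⧸ N) = w i) ∧ ∀ i, v i ∈ Y)

omit [N.Normal] in
theorem mem_genLifts (w : Fin r → X ⧸ N) (Y : Subgroup X) (v : Fin r → X) :
    v ∈ genLifts N w Y ↔ (∀ i, (v i : X ⧸ N) = w i) ∧ Subgroup.closure (Set.range v) = Y := by
  simp only [genLifts, Finset.mem_filter, Finset.mem_univ, true_and]

omit [N.Normal] in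
theorem mem_lifts (w : Fin r → X ⧸ N) (Y : Subgroup X) (v : Fin r → X) :
    v ∈ lifts N w Y ↔ (∀ i, (v i : X ⧸ N) = w i) ∧ ∀ i, v i ∈ Y := by
  simp only [lifts, Finset.mem_filter, Finset.mem_univ, true_and]

omit [Fintype X] in
theorem map_closure_range (v : Fin r → X) (w : Fin r → X ⧸ N) (h : ∀ i, (v i : X ⧸ N) = w i) :
    (Subgroup.closure (Set.range v)).map (QuotientGroup.mk' N) = Subgroup.closure (Set.range w) := by
  rw [MonoidHom.map_closure, ← Set.range_comp]
  congr 2
  funext i
  exact h i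

theorem card_lifts_eq (w w' : Fin r → X ⧸ N) (Y : Subgroup X)
    (hw : Subgroup.closure (Set.range w) = Y.map (QuotientGroup.mk' N))
    (hw' : Subgroup.closure (Set.range w') = Y.map (QuotientGroup.mk' N)) :
    (lifts N w Y).card = (lifts N w' Y).card := by
  have h1 : ∀ i, ∃ y ∈ Y, (y : X ⧸ N) = w i := fun i => by
    have : w i ∈ Y.map (QuotientGroup.mk' N) := by
      rw [← hw]
      exact Subgroup.subset_closure ⟨i, rfl⟩
    obtain ⟨y, hy, hyw⟩ := this
    exact ⟨y, hy, hyw⟩
  have h2 : ∀ i, ∃ y ∈ Y, (y : X ⧸ N) = w' i := fun i => by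
    have : w' i ∈ Y.map (QuotientGroup.mk' N) := by
      rw [← hw']
      exact Subgroup.subset_closure ⟨i, rfl⟩
    obtain ⟨y, hy, hyw⟩ := this
    exact ⟨y, hy, hyw⟩
  choose y hyY hyw using h1
  choose y' hyY' hyw' using h2
  refine Finset.card_bij (fun v _ i => y' i * (y i)⁻¹ * v i) ?_ ?_ ?_
  · intro v hv
    rw [mem_lifts] at hv ⊢
    refine ⟨fun i => ?_, fun i => Y.mul_mem (Y.mul_mem (hyY' i) (Y.inv_mem (hyY i))) (hv.2 i)⟩
    rw [QuotientGroup.mk_mul, QuotientGroup.mk_mul, QuotientGroup.mk_inv, hyw, hyw', hv.1 i,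
      inv_mul_cancel_right]
  · intro v _ v' _ h
    funext i
    exact mul_left_cancel (congrFun h i)
  · intro v hv
    rw [mem_lifts] at hv
    refine ⟨fun i => y i * (y' i)⁻¹ * v i, ?_, ?_⟩
    · rw [mem_lifts]
      refine ⟨fun i => ?_, fun i => Y.mul_mem (Y.mul_mem (hyY i) (Y.inv_mem (hyY' i))) (hv.2 i)⟩
      rw [QuotientGroup.mk_mul, QuotientGroup.mk_mul, QuotientGroup.mk_inv, hyw, hyw', hv.1 i,
        inv_mul_cancel_right]
    · funext i
      group

open Classical in
omit [N.Normal] in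
theorem card_lifts (w : Fin r → X ⧸ N) (Y : Subgroup X) [Fintype (Subgroup X)] :
    (lifts N w Y).card = (genLifts N w Y).card +
      ∑ Z ∈ Finset.univ.filter (fun Z : Subgroup X => Z < Y), (genLifts N w Z).card := by
  have h1 : (lifts N w Y).card =
      ∑ Z ∈ Finset.univ.filter (fun Z : Subgroup X => Z ≤ Y),
        ((lifts N w Y).filter (fun v => Subgroup.closure (Set.range v) = Z)).card := by
    refine Finset.card_eq_sum_card_fiberwise fun v hv => ?_
    have hv' := (mem_lifts N w Y v).1 hv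
    rw [Finset.mem_coe, Finset.mem_filter]
    refine ⟨Finset.mem_univ _, ?_⟩
    rw [Subgroup.closure_le]
    rintro _ ⟨i, rfl⟩
    exact hv'.2 i
  have h2 : ∀ Z : Subgroup X, Z ≤ Y →
      (lifts N w Y).filter (fun v => Subgroup.closure (Set.range v) = Z) = genLifts N w Z := by
    intro Z hZ
    ext v
    rw [Finset.mem_filter, mem_lifts, mem_genLifts]
    constructor
    · rintro ⟨⟨h3, _⟩, h4⟩
      exact ⟨h3, h4⟩
    · rintro ⟨h3, h4⟩
      refine ⟨⟨h3, fun i => hZ ?_⟩, h4⟩
      rw [← h4]
      exact Subgroup.subset_closure ⟨i, rfl⟩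
  have h3 : Finset.univ.filter (fun Z : Subgroup X => Z ≤ Y) =
      insert Y (Finset.univ.filter (fun Z : Subgroup X => Z < Y)) := by
    ext Z
    rw [Finset.mem_insert, Finset.mem_filter, Finset.mem_filter]
    constructor
    · rintro ⟨_, h⟩
      rcases h.eq_or_lt with h | h
      · exact Or.inl h
      · exact Or.inr ⟨Finset.mem_univ _, h⟩
    · rintro (h | ⟨_, h⟩)
      · exact ⟨Finset.mem_univ _, h.le⟩
      · exact ⟨Finset.mem_univ _, h.le⟩
  rw [h1, h3, Finset.sum_insert (by simp), h2 Y le_rfl]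
  congr 1
  refine Finset.sum_congr rfl fun Z hZ => ?_
  rw [Finset.mem_filter] at hZ
  rw [h2 Z hZ.2.le]

theorem card_genLifts_eq (n : ℕ) : ∀ (Y : Subgroup X), Nat.card Y = n →
    ∀ w w' : Fin r → X ⧸ N,
    Subgroup.closure (Set.range w) = Y.map (QuotientGroup.mk' N) →
    Subgroup.closure (Set.range w') = Y.map (QuotientGroup.mk' N) →
    (genLifts N w Y).card = (genLifts N w' Y).card := by
  classical
  induction n using Nat.strong_induction_on with
  | _ n ih =>
    intro Y hY w w' hw hw'
    have : Fintype (Subgroup X) := Fintype.ofFinite _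
    have h1 := card_lifts N w Y
    have h2 := card_lifts N w' Y
    have h3 := card_lifts_eq N w w' Y hw hw'
    have h4 : ∑ Z ∈ Finset.univ.filter (fun Z : Subgroup X => Z < Y), (genLifts N w Z).card =
        ∑ Z ∈ Finset.univ.filter (fun Z : Subgroup X => Z < Y), (genLifts N w' Z).card := by
      refine Finset.sum_congr rfl fun Z hZ => ?_
      rw [Finset.mem_filter] at hZ
      by_cases hm : Z.map (QuotientGroup.mk' N) = Y.map (QuotientGroup.mk' N)
      · have hlt : Nat.card Z < n := by
          rw [← hY]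
          by_contra h
          exact hZ.2.ne (Subgroup.eq_of_le_of_card_ge hZ.2.le (not_lt.1 h))
        exact ih _ hlt Z rfl w w' (hw.trans hm.symm) (hw'.trans hm.symm)
      · have e1 : genLifts N w Z = ∅ := by
          rw [Finset.eq_empty_iff_forall_notMem]
          intro v hv
          rw [mem_genLifts] at hv
          apply hm
          rw [← hv.2, map_closure_range N v w hv.1, hw]
        have e2 : genLifts N w' Z = ∅ := by
          rw [Finset.eq_empty_iff_forall_notMem]
          intro v hv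
          rw [mem_genLifts] at hv
          apply hm
          rw [← hv.2, map_closure_range N v w' hv.1, hw']
        rw [e1, e2]
    omega

end Gaschaux

open Gaschaux in
theorem stmtGaschutz : StmtGaschutz := by
  intro X _ _ N _ r w u hw hu
  have : Fintype X := Fintype.ofFinite X
  let w1 : Fin r → X ⧸ N := fun i => (w i : X ⧸ N)
  let u1 : Fin r → X ⧸ N := fun i => (u i : X ⧸ N)
  have hu1 : Subgroup.closure (Set.range u1) = (⊤ : Subgroup X).map (QuotientGroup.mk' N) := by
    rw [← map_closure_range N u u1 fun i => rfl, hu]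
  have hw1 : Subgroup.closure (Set.range w1) = (⊤ : Subgroup X).map (QuotientGroup.mk' N) := by
    rw [← map_closure_range N w w1 fun i => rfl, ← hw, Subgroup.map_sup]
    have : N.map (QuotientGroup.mk' N) = ⊥ := by
      rw [Subgroup.map_eq_bot_iff, QuotientGroup.ker_mk']
    rw [this, sup_bot_eq]
  have h1 := card_genLifts_eq N (Nat.card (⊤ : Subgroup X)) ⊤ rfl u1 w1 hu1 hw1
  have h2 : u ∈ genLifts N u1 ⊤ := by
    rw [mem_genLifts]
    exact ⟨fun i => rfl, hu⟩
  have h3 : 0 < (genLifts N w1 ⊤).card := by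
    rw [← h1]
    exact Finset.card_pos.2 ⟨u, h2⟩
  obtain ⟨v, hv⟩ := Finset.card_pos.1 h3
  rw [mem_genLifts] at hv
  refine ⟨fun i => (w i)⁻¹ * v i, fun i => ?_, ?_⟩
  · rw [← QuotientGroup.eq]
    exact (hv.1 i).symm
  · simp only [mul_inv_cancel_left]
    exact hv.2

end Pool.Agent.Lib.MP_585e73_co
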