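import Pool.Agent.Lib.MP_585e73_co.Spec

/-!
# MP_585e73_co: induction from a subgroup
-/

set_option autoImplicit false

namespace Pool.Agent.Lib.MP_585e73_co

open Equiv

namespace Indaux

variable {G : Type} [Group G] (H : Subgroup G)

/-- the representative of a coset -/
noncomputable def rep (q : G ⧸ H) : G := Quotient.out q

theorem mk_rep (q : G ⧸ H) : ((rep H q : G) : G ⧸ H) = q := Quotient.out_eq q

theorem mk_rep_mul (q : G ⧸ H) (h : H) : ((rep H q * h : G) : G ⧸ H) = q := by
  rw [QuotientGroup.mk_mul_of_mem _ h.2, mk_rep]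

theorem exists_rep (q : G ⧸ H) (g : G) (hg : (g : G ⧸ H) = q) :
    ∃ h : H, g = rep H q * h := by
  have h1 : ((rep H q : G) : G ⧸ H) = (g : G ⧸ H) := by rw [mk_rep, hg]
  rw [QuotientGroup.eq] at h1
  exact ⟨⟨_, h1⟩, by simp⟩

/-- the copy over the coset `q` -/
noncomputable def lift (X : RelStr H) (q : G ⧸ H) :
    H ⊕ X.W → G ⊕ (((G ⧸ H) × X.W) ⊕ (G ⧸ H))
  | Sum.inl h => Sum.inl (rep H q * h)
  | Sum.inr w => Sum.inr (Sum.inl (q, w))

theorem lift_inj (X : RelStr H) {q q' : G ⧸ H} {u u' : H ⊕ X.W}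
    (h : lift H X q u = lift H X q' u') : q = q' ∧ u = u' := by
  rcases u with a | w <;> rcases u' with a' | w'
  · simp only [lift, Sum.inl.injEq] at h
    have hq : q = q' := by rw [← mk_rep_mul H q a, h, mk_rep_mul]
    subst hq
    refine ⟨rfl, ?_⟩
    rw [mul_right_inj] at h
    rw [Subtype.ext h]
  · simp [lift] at h
  · simp [lift] at h
  · simp only [lift, Sum.inr.injEq, Sum.inl.injEq, Prod.mk.injEq] at h
    exact ⟨h.1, by rw [h.2]⟩

/-- the induced structure -/
noncomputable def str [Finite G] (X : RelStr H) : RelStr G where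
  W := ((G ⧸ H) × X.W) ⊕ (G ⧸ H)
  K := X.K ⊕ Unit
  J := X.J ⊕ Bool
  finW := inferInstance
  finK := inferInstance
  finJ := inferInstance
  κ := Sum.elim (fun p => Sum.inl (X.κ p.2)) (fun _ => Sum.inr ())
  R := fun j u v => match j with
    | Sum.inl j => ∃ q u₀ v₀, u = lift H X q u₀ ∧ v = lift H X q v₀ ∧ X.R j u₀ v₀
    | Sum.inr true => ∃ g : G, u = Sum.inl g ∧ v = Sum.inr (Sum.inr (g : G ⧸ H))
    | Sum.inr false => ∃ (q : G ⧸ H) (w : X.W),
        u = Sum.inr (Sum.inl (q, w)) ∧ v = Sum.inr (Sum.inr q)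

theorem str_cost [Finite G] (X : RelStr H) (c : ℕ) (hc : X.cost ≤ c) :
    (str H X).cost ≤ H.index * (2 * c + 5) + Nat.card G := by
  have hm : Nat.card (G ⧸ H) = H.index := rfl
  have hpos : 1 ≤ H.index := by
    have := H.index_ne_zero_of_finite
    omega
  have hfA : Finite X.arcs := by unfold RelStr.arcs; infer_instance
  have h1 : Nat.card (str H X).W = H.index * Nat.card X.W + H.index := by
    show Nat.card (((G ⧸ H) × X.W) ⊕ (G ⧸ H)) = _
    rw [Nat.card_sum, Nat.card_prod, hm]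
  have h2 : Nat.card (str H X).K = Nat.card X.K + 1 := by
    show Nat.card (X.K ⊕ Unit) = _
    rw [Nat.card_sum]
    simp
  have h3 : Nat.card (str H X).J = Nat.card X.J + 2 := by
    show Nat.card (X.J ⊕ Bool) = _
    rw [Nat.card_sum]
    simp
  have h4 : Nat.card (str H X).arcs ≤
      H.index * Nat.card X.arcs + (Nat.card G + H.index * Nat.card X.W) := by
    let f : ((G ⧸ H) × X.arcs) ⊕ (G ⊕ ((G ⧸ H) × X.W)) → (str H X).arcs := fun x =>
      match x with
      | Sum.inl p => ⟨(Sum.inl p.2.1.1, lift H X p.1 p.2.1.2.1, lift H X p.1 p.2.1.2.2),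
          ⟨p.1, _, _, rfl, rfl, p.2.2⟩⟩
      | Sum.inr (Sum.inl g) => ⟨(Sum.inr true, Sum.inl g, Sum.inr (Sum.inr (g : G ⧸ H))),
          ⟨g, rfl, rfl⟩⟩
      | Sum.inr (Sum.inr p) => ⟨(Sum.inr false, Sum.inr (Sum.inl (p.1, p.2)),
          Sum.inr (Sum.inr p.1)), ⟨p.1, p.2, rfl, rfl⟩⟩
    have hf : Function.Surjective f := by
      rintro ⟨⟨j, u, v⟩, h⟩
      rcases j with j | b
      · obtain ⟨q, u₀, v₀, hu, hv, hR⟩ := h
        refine ⟨Sum.inl (q, ⟨(j, u₀, v₀), hR⟩), ?_⟩
        exact Subtype.ext (Prod.ext rfl (Prod.ext hu.symm hv.symm))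
      · cases b with
        | true =>
            obtain ⟨g, hu, hv⟩ := h
            refine ⟨Sum.inr (Sum.inl g), ?_⟩
            exact Subtype.ext (Prod.ext rfl (Prod.ext hu.symm hv.symm))
        | false =>
            obtain ⟨q, w, hu, hv⟩ := h
            refine ⟨Sum.inr (Sum.inr (q, w)), ?_⟩
            exact Subtype.ext (Prod.ext rfl (Prod.ext hu.symm hv.symm))
    have := Nat.card_le_card_of_surjective f hf
    rwa [Nat.card_sum, Nat.card_sum, Nat.card_prod, Nat.card_prod, hm] at this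
  unfold RelStr.cost at hc ⊢
  rw [h1, h2, h3]
  have e1 : H.index * (Nat.card X.W + Nat.card X.K + Nat.card X.J + Nat.card X.arcs)
      ≤ H.index * c := Nat.mul_le_mul_left _ hc
  have e2 : Nat.card X.K ≤ H.index * Nat.card X.K := Nat.le_mul_of_pos_left _ hpos
  have e3 : Nat.card X.J ≤ H.index * Nat.card X.J := Nat.le_mul_of_pos_left _ hpos
  nlinarith [h4, e1, e2, e3, Nat.zero_le (H.index * Nat.card X.arcs)]

theorem mk_mul_rep (g : G) (q : G ⧸ H) : ((g * rep H q : G) : G ⧸ H) = g • q := by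
  have h : ((g * rep H q : G) : G ⧸ H) = g • ((rep H q : G) : G ⧸ H) := rfl
  rw [h, mk_rep]

/-- the factor set -/
noncomputable def fac (g : G) (q : G ⧸ H) : H :=
  ⟨(rep H (g • q))⁻¹ * (g * rep H q), by
    rw [← QuotientGroup.eq, mk_rep, mk_mul_rep]⟩

theorem fac_spec (g : G) (q : G ⧸ H) : g * rep H q = rep H (g • q) * (fac H g q : G) := by
  simp [fac]

theorem str_inv [Finite G] (X : RelStr H)
    (hX : ∀ h : H, ∃ τ, X.IsAut (MulAction.toPerm h) τ) (g : G) :
    ∃ τ, (str H X).IsAut (MulAction.toPerm g) τ := by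
  choose ρ hρ using hX
  let τ₁ : Perm ((G ⧸ H) × X.W) :=
    Equiv.prodShear (MulAction.toPerm g) (fun q => ρ (fac H g q))
  let τ : Perm (((G ⧸ H) × X.W) ⊕ (G ⧸ H)) := Equiv.sumCongr τ₁ (MulAction.toPerm g)
  have hΦ : ∀ q u, Equiv.sumCongr (MulAction.toPerm g : Perm G) τ (lift H X q u) =
      lift H X (g • q) (Equiv.sumCongr (MulAction.toPerm (fac H g q)) (ρ (fac H g q)) u) := by
    intro q u
    rcases u with h | w
    · show Sum.inl (g * (rep H q * h)) = Sum.inl (rep H (g • q) * ((fac H g q * h : H) : G))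
      rw [← mul_assoc, fac_spec, Subgroup.coe_mul, mul_assoc]
    · rfl
  refine ⟨τ, ?_, ?_⟩
  · rintro (⟨q, w⟩ | q)
    · show Sum.inl (X.κ (ρ (fac H g q) w)) = Sum.inl (X.κ w)
      rw [(hρ _).1]
    · rfl
  · rintro (j | b) u v
    · constructor
      · rintro ⟨q, u₀, v₀, rfl, rfl, h⟩
        exact ⟨g • q, _, _, hΦ q u₀, hΦ q v₀, ((hρ (fac H g q)).2 j u₀ v₀).1 h⟩
      · rintro ⟨q', u₁, v₁, hu, hv, h⟩
        set Ψ := Equiv.sumCongr (MulAction.toPerm (fac H g (g⁻¹ • q')) : Perm H)
          (ρ (fac H g (g⁻¹ • q'))) with hΨ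
        refine ⟨g⁻¹ • q', Ψ.symm u₁, Ψ.symm v₁, ?_, ?_, ?_⟩
        · apply (Equiv.sumCongr (MulAction.toPerm g : Perm G) τ).injective
          have e := hΦ (g⁻¹ • q') (Ψ.symm u₁)
          rw [← hΨ, Equiv.apply_symm_apply, smul_inv_smul] at e
          exact hu.trans e.symm
        · apply (Equiv.sumCongr (MulAction.toPerm g : Perm G) τ).injective
          have e := hΦ (g⁻¹ • q') (Ψ.symm v₁)
          rw [← hΨ, Equiv.apply_symm_apply, smul_inv_smul] at e
          exact hv.trans e.symm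
        · rw [(hρ (fac H g (g⁻¹ • q'))).2 j, ← hΨ, Equiv.apply_symm_apply,
            Equiv.apply_symm_apply]
          exact h
    · cases b with
      | true =>
          constructor
          · rintro ⟨x, rfl, rfl⟩
            exact ⟨g * x, rfl, rfl⟩
          · rintro ⟨x, hu, hv⟩
            rcases u with y | y
            · have hy : g * y = x := Sum.inl.inj hu
              rcases v with z | (z | z)
              · cases hv
              · cases hv
              · have hz : g • z = (x : G ⧸ H) := Sum.inr.inj (Sum.inr.inj hv)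
                refine ⟨y, rfl, ?_⟩
                have : z = (y : G ⧸ H) := by
                  rw [← inv_smul_smul g z, hz, ← hy]
                  show ((g⁻¹ * (g * y) : G) : G ⧸ H) = _
                  rw [inv_mul_cancel_left]
                exact congrArg (fun z => Sum.inr (Sum.inr z)) this
            · cases hu
      | false =>
          constructor
          · rintro ⟨q, w, rfl, rfl⟩
            exact ⟨g • q, _, rfl, rfl⟩
          · rintro ⟨q', w', hu, hv⟩
            rcases u with y | (⟨q, w⟩ | y)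
            · cases hu
            · have hq : g • q = q' := congrArg Prod.fst (Sum.inl.inj (Sum.inr.inj hu))
              rcases v with z | (z | z)
              · cases hv
              · cases hv
              · have hz : g • z = q' := Sum.inr.inj (Sum.inr.inj hv)
                have : z = q := by
                  rw [← inv_smul_smul g z, hz, ← hq, inv_smul_smul]
                exact ⟨q, w, rfl, congrArg (fun z => Sum.inr (Sum.inr z)) this⟩
            · cases hu

theorem str_aut [Finite G] (X : RelStr H) (σ : Perm G) (τ : Perm (str H X).W)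
    (hA : (str H X).IsAut σ τ) :
    ∃ (π : G ⧸ H → G ⧸ H) (σq : G ⧸ H → Perm H) (τq : G ⧸ H → Perm X.W),
      (∀ q, τ (Sum.inr q) = Sum.inr (π q)) ∧
      (∀ q w, τ (Sum.inl (q, w)) = Sum.inl (π q, τq q w)) ∧
      (∀ q (h : H), σ (rep H q * h) = rep H (π q) * (σq q h : G)) ∧
      ∀ q, X.IsAut (σq q) (τq q) := by
  obtain ⟨hκ, hR⟩ := hA
  have hπ : ∀ q : G ⧸ H, ∃ q' : G ⧸ H, τ (Sum.inr q) = Sum.inr q' := by
    intro q
    have h := hκ (Sum.inr q)
    rcases hτ : τ (Sum.inr q) with p | q'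
    · rw [hτ] at h
      exact absurd h (by intro h; cases h)
    · exact ⟨q', rfl⟩
  choose π hπ using hπ
  have ht : ∀ (q : G ⧸ H) (w : X.W), ∃ w' : X.W, τ (Sum.inl (q, w)) = Sum.inl (π q, w') ∧
      X.κ w' = X.κ w := by
    intro q w
    have h := hκ (Sum.inl (q, w))
    rcases hτ : τ (Sum.inl (q, w)) with p | q'
    · rw [hτ] at h
      have h2 : (str H X).R (Sum.inr false) (Sum.inr (Sum.inl (q, w))) (Sum.inr (Sum.inr q)) :=
        ⟨q, w, rfl, rfl⟩
      rw [hR] at h2
      obtain ⟨q', w', h3, h4⟩ := h2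
      have h5 : τ (Sum.inl (q, w)) = Sum.inl (q', w') := Sum.inr.inj h3
      have h6 : τ (Sum.inr q) = Sum.inr q' := Sum.inr.inj h4
      rw [hπ] at h6
      have h7 : π q = q' := Sum.inr.inj h6
      rw [hτ] at h5
      have h8 : p = (q', w') := Sum.inl.inj h5
      refine ⟨p.2, ?_, ?_⟩
      · rw [h8, h7]
      · exact Sum.inl.inj h
    · rw [hτ] at h
      exact absurd h (by intro h; cases h)
  choose t ht1 ht2 using ht
  have hσ : ∀ (q : G ⧸ H) (h : H), ∃ h' : H, σ (rep H q * h) = rep H (π q) * (h' : G) := by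
    intro q h
    have h2 : (str H X).R (Sum.inr true) (Sum.inl (rep H q * h)) (Sum.inr (Sum.inr q)) :=
      ⟨rep H q * h, rfl,
        congrArg (fun z => Sum.inr (Sum.inr z)) (mk_rep_mul H q h).symm⟩
    rw [hR] at h2
    obtain ⟨g, h3, h4⟩ := h2
    have h5 : σ (rep H q * h) = g := Sum.inl.inj h3
    have h6 : τ (Sum.inr q) = Sum.inr (g : G ⧸ H) := Sum.inr.inj h4
    rw [hπ] at h6
    have h7 : π q = (g : G ⧸ H) := Sum.inr.inj h6
    rw [h5]
    exact exists_rep H _ _ h7.symm
  choose a ha using hσ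
  have hΦ : ∀ q u, Equiv.sumCongr σ τ (lift H X q u) =
      lift H X (π q) (Sum.map (a q) (t q) u) := by
    intro q u
    rcases u with h | w
    · show Sum.inl (σ (rep H q * h)) = Sum.inl (rep H (π q) * ((a q h : H) : G))
      rw [ha]
    · show Sum.inr (τ (Sum.inl (q, w))) = Sum.inr (Sum.inl (π q, t q w))
      exact congrArg Sum.inr (ht1 q w)
  have hinj : ∀ q, Function.Injective (Sum.map (a q) (t q)) := by
    intro q u v huv
    have h : Equiv.sumCongr σ τ (lift H X q u) = Equiv.sumCongr σ τ (lift H X q v) := by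
      rw [hΦ, hΦ, huv]
    exact (lift_inj H X ((Equiv.sumCongr σ τ).injective h)).2
  have ha' : ∀ q, Function.Bijective (a q) := by
    intro q
    apply Finite.injective_iff_bijective.mp
    intro h h' e
    have : Sum.map (a q) (t q) (Sum.inl h) = Sum.map (a q) (t q) (Sum.inl h') := by
      simp [e]
    exact Sum.inl.inj (hinj q this)
  have ht' : ∀ q, Function.Bijective (t q) := by
    intro q
    apply Finite.injective_iff_bijective.mp
    intro h h' e
    have : Sum.map (a q) (t q) (Sum.inr h) = Sum.map (a q) (t q) (Sum.inr h') := by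
      simp [e]
    exact Sum.inr.inj (hinj q this)
  refine ⟨π, fun q => Equiv.ofBijective _ (ha' q), fun q => Equiv.ofBijective _ (ht' q), hπ,
    ht1, ha, ?_⟩
  intro q
  refine ⟨fun w => ht2 q w, ?_⟩
  intro j u v
  have hΨ : ∀ u, Equiv.sumCongr (Equiv.ofBijective _ (ha' q)) (Equiv.ofBijective _ (ht' q)) u =
      Sum.map (a q) (t q) u := by
    rintro (h | w) <;> rfl
  rw [hΨ, hΨ]
  have e : ∀ (q : G ⧸ H) (u v : H ⊕ X.W),
      (str H X).R (Sum.inl j) (lift H X q u) (lift H X q v) ↔ X.R j u v := by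
    intro q u v
    constructor
    · rintro ⟨q', u₀, v₀, hu, hv, h⟩
      rw [(lift_inj H X hu).2, (lift_inj H X hv).2]
      exact h
    · exact fun h => ⟨q, u, v, rfl, rfl, h⟩
  rw [← e q u v, hR, ← e (π q) (Sum.map (a q) (t q) u) (Sum.map (a q) (t q) v)]
  have e1 := hΦ q u
  have e2 := hΦ q v
  exact Iff.of_eq (congrArg₂ _ e1 e2)

end Indaux

open Indaux in
theorem stmtInd : StmtInd := by
  intro G _ _ H c h
  obtain ⟨X, h1, h2, h3, h4⟩ := h
  refine ⟨str H X, str_cost H X c h1, str_inv H X h2, ?_, ?_⟩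
  · intro σ τ hA
    obtain ⟨π, σq, τq, -, -, hσ, hX⟩ := str_aut H X σ τ hA
    intro g x hx
    obtain ⟨h₀, hg⟩ := exists_rep H (g : G ⧸ H) g rfl
    obtain ⟨a, ha⟩ := h3 _ _ (hX (g : G ⧸ H))
    have e1 : σ g = rep H (π (g : G ⧸ H)) * ((a * h₀ : H) : G) := by
      have := hσ (g : G ⧸ H) h₀
      rw [← hg, ha] at this
      exact this
    have e2 : σ (g * x) = rep H (π (g : G ⧸ H)) * ((a * (h₀ * ⟨x, hx⟩) : H) : G) := by
      have := hσ (g : G ⧸ H) (h₀ * ⟨x, hx⟩)
      rw [ha, Subgroup.coe_mul, ← mul_assoc, ← hg] at this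
      exact this
    rw [e2, e1]
    simp [mul_assoc]
  · intro τ hA
    obtain ⟨π, σq, τq, hπ, hτ, hσ, hX⟩ := str_aut H X 1 τ hA
    have hπ1 : ∀ q, π q = q := by
      intro q
      have := hσ q 1
      rw [Perm.one_apply] at this
      have e := congrArg (fun x : G => (x : G ⧸ H)) this
      simp only [mk_rep_mul] at e
      exact e.symm
    have hσ1 : ∀ q, σq q = 1 := by
      intro q
      apply Equiv.ext
      intro h
      have := hσ q h
      rw [Perm.one_apply, hπ1, mul_right_inj] at this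
      exact (Subtype.ext this).symm
    have hτ1 : ∀ q, τq q = 1 := by
      intro q
      apply h4
      have := hX q
      rwa [hσ1] at this
    apply Equiv.ext
    rintro (⟨q, w⟩ | q)
    · rw [hτ, hτ1, hπ1]
      rfl
    · rw [hπ, hπ1]
      rfl

end Pool.Agent.Lib.MP_585e73_co
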