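import Pool.Agent.Lib.MP_585e73_co.Spec

/-!
# MP_585e73_co: costs add, and the relation of an equivariant map
-/

set_option autoImplicit false

namespace Pool.Agent.Lib.MP_585e73_co

open Equiv

namespace JoinRelaux

variable {Ω : Type}

theorem finite_arcs [Finite Ω] (X : RelStr Ω) : Finite X.arcs := by
  unfold RelStr.arcs
  infer_instance

/-- The embedding of the first part. -/
def emb₁ (X Y : RelStr Ω) : Ω ⊕ X.W → Ω ⊕ (X.W ⊕ Y.W) := Sum.map id Sum.inl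

/-- The embedding of the second part. -/
def emb₂ (X Y : RelStr Ω) : Ω ⊕ Y.W → Ω ⊕ (X.W ⊕ Y.W) := Sum.map id Sum.inr

theorem emb₁_inj (X Y : RelStr Ω) : Function.Injective (emb₁ X Y) :=
  Sum.map_injective.2 ⟨Function.injective_id, Sum.inl_injective⟩

theorem emb₂_inj (X Y : RelStr Ω) : Function.Injective (emb₂ X Y) :=
  Sum.map_injective.2 ⟨Function.injective_id, Sum.inr_injective⟩

/-- The relations of the join. -/
def joinR (X Y : RelStr Ω) : X.J ⊕ Y.J → Ω ⊕ (X.W ⊕ Y.W) → Ω ⊕ (X.W ⊕ Y.W) → Prop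
  | Sum.inl j, u, v => ∃ u₁ v₁, u = emb₁ X Y u₁ ∧ v = emb₁ X Y v₁ ∧ X.R j u₁ v₁
  | Sum.inr j, u, v => ∃ u₂ v₂, u = emb₂ X Y u₂ ∧ v = emb₂ X Y v₂ ∧ Y.R j u₂ v₂

/-- The join of two structures over the same base. -/
def join (X Y : RelStr Ω) : RelStr Ω where
  W := X.W ⊕ Y.W
  K := X.K ⊕ Y.K
  J := X.J ⊕ Y.J
  finW := inferInstance
  finK := inferInstance
  finJ := inferInstance
  κ := Sum.map X.κ Y.κ
  R := joinR X Y

theorem joinR_inl_emb (X Y : RelStr Ω) (j : X.J) (u v : Ω ⊕ X.W) :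
    joinR X Y (Sum.inl j) (emb₁ X Y u) (emb₁ X Y v) ↔ X.R j u v := by
  constructor
  · rintro ⟨u₁, v₁, hu, hv, h⟩
    rwa [emb₁_inj X Y hu, emb₁_inj X Y hv]
  · exact fun h => ⟨u, v, rfl, rfl, h⟩

theorem joinR_inr_emb (X Y : RelStr Ω) (j : Y.J) (u v : Ω ⊕ Y.W) :
    joinR X Y (Sum.inr j) (emb₂ X Y u) (emb₂ X Y v) ↔ Y.R j u v := by
  constructor
  · rintro ⟨u₁, v₁, hu, hv, h⟩
    rwa [emb₂_inj X Y hu, emb₂_inj X Y hv]
  · exact fun h => ⟨u, v, rfl, rfl, h⟩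

theorem emb₁_perm (X Y : RelStr Ω) (σ : Perm Ω) (τ₁ : Perm X.W) (τ₂ : Perm Y.W) (u : Ω ⊕ X.W) :
    Equiv.sumCongr σ (Equiv.sumCongr τ₁ τ₂) (emb₁ X Y u) =
      emb₁ X Y (Equiv.sumCongr σ τ₁ u) := by
  rcases u with u | u <;> rfl

theorem emb₂_perm (X Y : RelStr Ω) (σ : Perm Ω) (τ₁ : Perm X.W) (τ₂ : Perm Y.W) (u : Ω ⊕ Y.W) :
    Equiv.sumCongr σ (Equiv.sumCongr τ₁ τ₂) (emb₂ X Y u) =
      emb₂ X Y (Equiv.sumCongr σ τ₂ u) := by
  rcases u with u | u <;> rfl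

/-- The automorphisms of a join, unfolded. -/
theorem isAut_join' (X Y : RelStr Ω) (σ : Perm Ω) (τ : Perm (X.W ⊕ Y.W)) :
    (join X Y).IsAut σ τ ↔
      (∀ w : X.W ⊕ Y.W, Sum.map X.κ Y.κ (τ w) = Sum.map X.κ Y.κ w) ∧
      ∀ (j : X.J ⊕ Y.J) (u v : Ω ⊕ (X.W ⊕ Y.W)),
        joinR X Y j u v ↔ joinR X Y j (Equiv.sumCongr σ τ u) (Equiv.sumCongr σ τ v) := Iff.rfl

/-- The automorphisms of a join. -/
theorem isAut_join (X Y : RelStr Ω) (σ : Perm Ω) (τ₁ : Perm X.W) (τ₂ : Perm Y.W) :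
    (join X Y).IsAut σ (Equiv.sumCongr τ₁ τ₂) ↔ X.IsAut σ τ₁ ∧ Y.IsAut σ τ₂ := by
  rw [isAut_join']
  constructor
  · rintro ⟨h1, h2⟩
    refine ⟨⟨fun w => ?_, fun j u v => ?_⟩, ⟨fun w => ?_, fun j u v => ?_⟩⟩
    · have := h1 (Sum.inl w)
      exact Sum.inl_injective this
    · have := h2 (Sum.inl j) (emb₁ X Y u) (emb₁ X Y v)
      rw [emb₁_perm, emb₁_perm, joinR_inl_emb, joinR_inl_emb] at this
      exact this
    · have := h1 (Sum.inr w)
      exact Sum.inr_injective this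
    · have := h2 (Sum.inr j) (emb₂ X Y u) (emb₂ X Y v)
      rw [emb₂_perm, emb₂_perm, joinR_inr_emb, joinR_inr_emb] at this
      exact this
  · rintro ⟨⟨h1, h2⟩, ⟨h3, h4⟩⟩
    refine ⟨fun w => ?_, fun j u v => ?_⟩
    · rcases w with w | w
      · exact congrArg Sum.inl (h1 w)
      · exact congrArg Sum.inr (h3 w)
    · rcases j with j | j
      · constructor
        · rintro ⟨u₁, v₁, rfl, rfl, h⟩
          rw [emb₁_perm, emb₁_perm]
          exact ⟨_, _, rfl, rfl, (h2 j u₁ v₁).1 h⟩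
        · rintro ⟨u₁, v₁, hu, hv, h⟩
          refine ⟨(Equiv.sumCongr σ τ₁).symm u₁, (Equiv.sumCongr σ τ₁).symm v₁, ?_, ?_, ?_⟩
          · apply (Equiv.sumCongr σ (Equiv.sumCongr τ₁ τ₂)).injective
            rw [emb₁_perm, Equiv.apply_symm_apply]
            exact hu
          · apply (Equiv.sumCongr σ (Equiv.sumCongr τ₁ τ₂)).injective
            rw [emb₁_perm, Equiv.apply_symm_apply]
            exact hv
          · rw [h2, Equiv.apply_symm_apply, Equiv.apply_symm_apply]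
            exact h
      · constructor
        · rintro ⟨u₁, v₁, rfl, rfl, h⟩
          rw [emb₂_perm, emb₂_perm]
          exact ⟨_, _, rfl, rfl, (h4 j u₁ v₁).1 h⟩
        · rintro ⟨u₁, v₁, hu, hv, h⟩
          refine ⟨(Equiv.sumCongr σ τ₂).symm u₁, (Equiv.sumCongr σ τ₂).symm v₁, ?_, ?_, ?_⟩
          · apply (Equiv.sumCongr σ (Equiv.sumCongr τ₁ τ₂)).injective
            rw [emb₂_perm, Equiv.apply_symm_apply]
            exact hu
          · apply (Equiv.sumCongr σ (Equiv.sumCongr τ₁ τ₂)).injective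
            rw [emb₂_perm, Equiv.apply_symm_apply]
            exact hv
          · rw [h4, Equiv.apply_symm_apply, Equiv.apply_symm_apply]
            exact h

/-- A colour preserving permutation of the auxiliary vertices of a join splits. -/
theorem split_join (X Y : RelStr Ω) (τ : Perm (X.W ⊕ Y.W))
    (h : ∀ w, Sum.map X.κ Y.κ (τ w) = Sum.map X.κ Y.κ w) :
    ∃ (τ₁ : Perm X.W) (τ₂ : Perm Y.W), τ = Equiv.sumCongr τ₁ τ₂ := by
  have h1 : Set.MapsTo τ (Set.range (Sum.inl : X.W → X.W ⊕ Y.W)) (Set.range Sum.inl) := by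
    rintro _ ⟨w, rfl⟩
    have := h (Sum.inl w)
    rcases hw : τ (Sum.inl w) with x | x
    · exact ⟨x, rfl⟩
    · rw [hw] at this
      exact absurd this (by simp)
  have h2 : τ ∈ (Equiv.Perm.sumCongrHom X.W Y.W).range :=
    Equiv.Perm.mem_sumCongrHom_range_of_perm_mapsTo_inl h1
  obtain ⟨⟨τ₁, τ₂⟩, h3⟩ := h2
  exact ⟨τ₁, τ₂, h3.symm⟩

/-- The map from the arcs of the two parts to the arcs of the join. -/
def arcMap (X Y : RelStr Ω) : X.arcs ⊕ Y.arcs → (join X Y).arcs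
  | Sum.inl a => ⟨(Sum.inl a.1.1, emb₁ X Y a.1.2.1, emb₁ X Y a.1.2.2), _, _, rfl, rfl, a.2⟩
  | Sum.inr a => ⟨(Sum.inr a.1.1, emb₂ X Y a.1.2.1, emb₂ X Y a.1.2.2), _, _, rfl, rfl, a.2⟩

theorem arcMap_surj (X Y : RelStr Ω) : Function.Surjective (arcMap X Y) := by
  rintro ⟨⟨j, u, v⟩, h⟩
  rcases j with j | j
  · obtain ⟨u₁, v₁, hu, hv, h'⟩ := h
    refine ⟨Sum.inl ⟨(j, u₁, v₁), h'⟩, Subtype.ext ?_⟩
    exact Prod.ext rfl (Prod.ext hu.symm hv.symm)
  · obtain ⟨u₁, v₁, hu, hv, h'⟩ := h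
    refine ⟨Sum.inr ⟨(j, u₁, v₁), h'⟩, Subtype.ext ?_⟩
    exact Prod.ext rfl (Prod.ext hu.symm hv.symm)

theorem cost_join [Finite Ω] (X Y : RelStr Ω) : (join X Y).cost ≤ X.cost + Y.cost := by
  have hX := finite_arcs X
  have hY := finite_arcs Y
  have h1 : Nat.card (join X Y).arcs ≤ Nat.card X.arcs + Nat.card Y.arcs := by
    rw [← Nat.card_sum]
    exact Nat.card_le_card_of_surjective _ (arcMap_surj X Y)
  have h2 : Nat.card (join X Y).W = Nat.card X.W + Nat.card Y.W := Nat.card_sum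
  have h3 : Nat.card (join X Y).K = Nat.card X.K + Nat.card Y.K := Nat.card_sum
  have h4 : Nat.card (join X Y).J = Nat.card X.J + Nat.card Y.J := Nat.card_sum
  unfold RelStr.cost
  omega

/-- The graph of a map of the base. -/
def mapR (f : Ω → Ω) (u v : Ω ⊕ Empty) : Prop := ∃ x, u = Sum.inl x ∧ v = Sum.inl (f x)

/-- The relation of a map of the base into itself. -/
def mapStr (f : Ω → Ω) : RelStr Ω where
  W := Empty
  K := Empty
  J := Unit
  finW := inferInstance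
  finK := inferInstance
  finJ := inferInstance
  κ := fun w => w.elim
  R := fun _ => mapR f

theorem mapR_inl (f : Ω → Ω) (x y : Ω) : mapR f (Sum.inl x) (Sum.inl y) ↔ y = f x := by
  constructor
  · rintro ⟨z, h1, h2⟩
    rw [Sum.inl_injective h1, Sum.inl_injective h2]
  · rintro rfl
    exact ⟨x, rfl, rfl⟩

/-- The automorphisms of the structure of a map. -/
theorem isAut_mapStr (f : Ω → Ω) (σ : Perm Ω) (τ : Perm Empty) :
    (mapStr f).IsAut σ τ ↔ ∀ x, σ (f x) = f (σ x) := by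
  constructor
  · rintro ⟨-, h2⟩ x
    have h3 : mapR f (Sum.inl (σ x)) (Sum.inl (σ (f x))) :=
      (h2 () (Sum.inl x) (Sum.inl (f x))).1 ((mapR_inl f x (f x)).2 rfl)
    exact (mapR_inl f _ _).1 h3
  · intro h
    refine ⟨fun w => w.elim, fun j u v => ?_⟩
    rcases u with u | u
    · rcases v with v | v
      · change mapR f (Sum.inl u) (Sum.inl v) ↔ mapR f (Sum.inl (σ u)) (Sum.inl (σ v))
        rw [mapR_inl, mapR_inl, ← h]
        exact σ.injective.eq_iff.symm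
      · exact v.elim
    · exact u.elim

theorem cost_mapStr [Finite Ω] (f : Ω → Ω) : (mapStr f).cost ≤ Nat.card Ω + 1 := by
  have h1 : Nat.card (mapStr f).arcs ≤ Nat.card Ω := by
    refine Nat.card_le_card_of_surjective
      (fun x : Ω => (⟨((), Sum.inl x, Sum.inl (f x)), x, rfl, rfl⟩ : (mapStr f).arcs)) ?_
    rintro ⟨⟨⟨⟩, u, v⟩, x, hu, hv⟩
    exact ⟨x, Subtype.ext (Prod.ext rfl (Prod.ext hu.symm hv.symm))⟩
  have h2 : Nat.card (mapStr f).W = 0 := by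
    change Nat.card Empty = 0
    simp
  have h3 : Nat.card (mapStr f).K = 0 := by
    change Nat.card Empty = 0
    simp
  have h4 : Nat.card (mapStr f).J = 1 := by
    change Nat.card Unit = 1
    simp
  unfold RelStr.cost
  omega

end JoinRelaux

open JoinRelaux in
/-- Costs add. -/
theorem stmtJoin : StmtJoin := by
  intro G _ Ω _ _ Q₁ Q₂ c₁ c₂ h₁ h₂
  obtain ⟨X, hX1, hX2, hX3, hX4⟩ := h₁
  obtain ⟨Y, hY1, hY2, hY3, hY4⟩ := h₂
  refine ⟨join X Y, (cost_join X Y).trans (Nat.add_le_add hX1 hY1), fun g => ?_, fun σ τ h => ?_,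
    fun τ h => ?_⟩
  · obtain ⟨τ₁, h1⟩ := hX2 g
    obtain ⟨τ₂, h2⟩ := hY2 g
    exact ⟨Equiv.sumCongr τ₁ τ₂, (isAut_join X Y _ τ₁ τ₂).2 ⟨h1, h2⟩⟩
  · obtain ⟨τ₁, τ₂, rfl⟩ := split_join X Y τ h.1
    obtain ⟨h1, h2⟩ := (isAut_join X Y _ τ₁ τ₂).1 h
    exact ⟨hX3 σ τ₁ h1, hY3 σ τ₂ h2⟩
  · obtain ⟨τ₁, τ₂, rfl⟩ := split_join X Y τ h.1
    obtain ⟨h1, h2⟩ := (isAut_join X Y _ τ₁ τ₂).1 h
    have e1 := hX4 τ₁ h1
    have e2 := hY4 τ₂ h2
    subst e1 e2
    exact Equiv.Perm.sumCongr_one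

open JoinRelaux in
/-- An equivariant map. -/
theorem stmtRel : StmtRel := by
  intro G _ Ω _ _ f hf
  refine ⟨mapStr f, cost_mapStr f, fun g => ⟨1, (isAut_mapStr f _ _).2 fun x => (hf g x).symm⟩,
    fun σ τ h => (isAut_mapStr f σ τ).1 h, fun τ _ => Equiv.ext fun w => w.elim⟩

end Pool.Agent.Lib.MP_585e73_co
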