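import Pool.Agent.Lib.MP_585e73_co.Spec

/-!
# MP_585e73_co: assembly
-/

set_option autoImplicit false

namespace Pool.Agent.Lib.MP_585e73_co

open Equiv

namespace Mainaux

/-- A nontrivial finite group has a minimal normal subgroup. -/
theorem exists_minNormal (G : Type) [Group G] [Finite G] [Nontrivial G] :
    ∃ N : Subgroup G, IsMinNormal N := by
  classical
  have hfin : {N : Subgroup G | N.Normal ∧ N ≠ ⊥}.Finite := Set.toFinite _
  have hne : {N : Subgroup G | N.Normal ∧ N ≠ ⊥}.Nonempty :=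
    ⟨⊤, inferInstance, top_ne_bot⟩
  obtain ⟨N, hN⟩ := hfin.exists_minimal hne
  refine ⟨N, hN.1.1, hN.1.2, fun N' h1 h2 => ?_⟩
  by_cases h : N' = ⊥
  · exact Or.inl h
  · exact Or.inr (le_antisymm h2 (hN.2 ⟨h1, h⟩ h2))

/-- An abelian minimal normal subgroup is a `p`-group. -/
theorem isPGroup_of_comm {G : Type} [Group G] [Finite G] {N : Subgroup G} (hN : IsMinNormal N)
    (hc : ∀ a ∈ N, ∀ b ∈ N, a * b = b * a) : ∃ p : ℕ, p.Prime ∧ IsPGroup p N := by
  have h1 : 1 < Nat.card N := by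
    rw [Subgroup.one_lt_card_iff_ne_bot]
    exact hN.2.1
  obtain ⟨p, hp, hpd⟩ := Nat.exists_prime_and_dvd (n := Nat.card N) (by omega)
  refine ⟨p, hp, ?_⟩
  -- the elements of order dividing `p`
  have hnorm := hN.1
  let T : Subgroup G :=
    { carrier := {a | a ∈ N ∧ a ^ p = 1}
      one_mem' := ⟨N.one_mem, one_pow p⟩
      mul_mem' := by
        rintro a b ⟨ha, ha'⟩ ⟨hb, hb'⟩
        refine ⟨N.mul_mem ha hb, ?_⟩
        have : Commute a b := hc a ha b hb
        rw [this.mul_pow, ha', hb', one_mul]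
      inv_mem' := by
        rintro a ⟨ha, ha'⟩
        exact ⟨N.inv_mem ha, by rw [inv_pow, ha', inv_one]⟩ }
  have hT : T.Normal := by
    constructor
    rintro a ⟨ha, ha'⟩ g
    refine ⟨hnorm.conj_mem a ha g, ?_⟩
    rw [conj_pow, ha', mul_one, mul_inv_cancel]
  have hle : T ≤ N := fun a ha => ha.1
  have hne : T ≠ ⊥ := by
    have : Fact p.Prime := ⟨hp⟩
    obtain ⟨x, hx⟩ := exists_prime_orderOf_dvd_card' (G := N) p hpd
    intro h
    have h2 : (x : G) ∈ T := ⟨x.2, by
      have := pow_orderOf_eq_one x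
      rw [hx] at this
      exact_mod_cast congrArg (Subtype.val) this⟩
    rw [h, Subgroup.mem_bot] at h2
    have : x = 1 := Subtype.ext h2
    rw [this, orderOf_one] at hx
    exact hp.one_lt.ne hx
  rcases hN.2.2 T hT hle with h | h
  · exact absurd h hne
  · intro x
    refine ⟨1, ?_⟩
    have : (x : G) ∈ T := by rw [h]; exact x.2
    apply Subtype.ext
    simpa using this.2

end Mainaux

open Mainaux

theorem stmtMain (h1 : StmtP) (h2 : StmtAb) (h3 : StmtNonab) (h4 : StmtSection) : StmtMain := by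
  obtain ⟨C₀, hC₀⟩ := h1
  refine ⟨4 * C₀ + 48, fun t => ?_⟩
  have key : ∀ (m : ℕ) (G : Type) [Group G] [Finite G], Nat.card G = m → ASGen t G →
      Enf G G IsLeft ((4 * C₀ + 48) * (t + 1) * Nat.card G) := by
    intro m
    induction m using Nat.strong_induction_on with
    | _ m ih =>
      intro G _ _ hm hG
      rcases subsingleton_or_nontrivial G with hs | hn
      · refine (Enf.trivial G G).mono (fun σ _ => ⟨1, fun g => Subsingleton.elim _ _⟩) (Nat.zero_le _)
      obtain ⟨N, hN⟩ := exists_minNormal G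
      have hNn : N.Normal := hN.1
      have hcard : Nat.card G = Nat.card (G ⧸ N) * Nat.card N := N.card_eq_card_quotient_mul_card_subgroup
      have hN1 : 1 < Nat.card N := by
        rw [Subgroup.one_lt_card_iff_ne_bot]
        exact hN.2.1
      have hQpos : 0 < Nat.card (G ⧸ N) := Nat.card_pos
      have hlt : Nat.card (G ⧸ N) < m := by
        rw [← hm, hcard]
        nlinarith
      have hhalf : 2 * Nat.card (G ⧸ N) ≤ Nat.card G := by
        rw [hcard]
        nlinarith
      have hQ := ih _ hlt (G ⧸ N) rfl (h4 t G N hG)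
      have hb : (4 * C₀ + 48) * (t + 1) * Nat.card (G ⧸ N) + (2 * C₀ + 4 * t + 20) * Nat.card G
          ≤ (4 * C₀ + 48) * (t + 1) * Nat.card G := by
        have e1 : (2 * C₀ + 4 * t + 20) ≤ (2 * C₀ + 24) * (t + 1) := by nlinarith
        have e2 : (4 * C₀ + 48) * (t + 1) * Nat.card (G ⧸ N)
            = (2 * C₀ + 24) * (t + 1) * (2 * Nat.card (G ⧸ N)) := by ring
        calc (4 * C₀ + 48) * (t + 1) * Nat.card (G ⧸ N) + (2 * C₀ + 4 * t + 20) * Nat.card G
            ≤ (2 * C₀ + 24) * (t + 1) * Nat.card G + (2 * C₀ + 24) * (t + 1) * Nat.card G := by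
              rw [e2]
              exact Nat.add_le_add (Nat.mul_le_mul_left _ hhalf) (Nat.mul_le_mul_right _ e1)
          _ = (4 * C₀ + 48) * (t + 1) * Nat.card G := by ring
      by_cases hc : ∀ a ∈ N, ∀ b ∈ N, a * b = b * a
      · obtain ⟨p, hp, hpN⟩ := isPGroup_of_comm hN hc
        have hpf : Fact p.Prime := ⟨hp⟩
        have := h2 C₀ t p G hG (fun P => hC₀ p (P : Subgroup G) P.isPGroup') N hpN _ hQ
        exact this.mono (fun _ h => h) hb
      · push Not at hc
        have := h3 t G hG N hN hc _ hQ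
        refine this.mono (fun _ h => h) (le_trans ?_ hb)
        apply Nat.add_le_add_left
        apply Nat.mul_le_mul_right
        nlinarith
  exact fun G _ _ hG => key _ G rfl hG

/-- Graphs from structures. -/
theorem graph_of_enf (h1 : StmtSkel) (h2 : StmtColour) (G : Type) [Group G] [Finite G] (c : ℕ)
    (h : Enf G G IsLeft c) : ∃ (V : Type) (_ : Finite V) (X : SimpleGraph V),
      Nonempty ((X ≃g X) ≃* G) ∧ Nat.card X.edgeSet ≤ 10 * c + 40 * Nat.card G := by
  obtain ⟨V₀, hV₀, Γ₀, L, col, hL, hcol, hcol', ⟨e⟩, hcard⟩ := h2 G c h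
  obtain ⟨V, hV, X, ⟨e'⟩, hX⟩ := h1 V₀ Γ₀ L col hL hcol hcol'
  exact ⟨V, hV, X, ⟨e'.trans e⟩, hX.trans hcard⟩

/-- The main theorem, for graphs. -/
theorem main_graph (h1 : StmtSkel) (h2 : StmtColour) (h3 : StmtMain) :
    ∃ c : ℕ, ∀ (t : ℕ) (G : Type) [Group G] [Finite G], ASGen t G →
      ∃ (V : Type) (_ : Finite V) (X : SimpleGraph V),
        Nonempty ((X ≃g X) ≃* G) ∧ Nat.card X.edgeSet ≤ c * (t + 1) * Nat.card G := by
  obtain ⟨C, hC⟩ := h3
  refine ⟨10 * C + 40, fun t G _ _ hG => ?_⟩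
  obtain ⟨V, hV, X, e, hX⟩ := graph_of_enf h1 h2 G _ (hC t G hG)
  refine ⟨V, hV, X, e, hX.trans ?_⟩
  nlinarith [Nat.zero_le (t * Nat.card G)]

end Pool.Agent.Lib.MP_585e73_co
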