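import Pool.Agent.Lib.MP_585e73_co.Spec

/-!
# Simple factors of a nonabelian minimal normal subgroup
-/

set_option autoImplicit false

namespace Pool.Agent.Lib.MP_585e73_co

namespace MinNonabaux

variable {G : Type} [Group G]

/-- nontrivial subgroups of `M` normalized by `M` -/
def Q (M T : Subgroup G) : Prop := T ≠ ⊥ ∧ T ≤ M ∧ ∀ m ∈ M, ∀ s ∈ T, m * s * m⁻¹ ∈ T

/-- the conjugate subgroup -/
def cjs (g : G) (S : Subgroup G) : Subgroup G := S.map (MulAut.conj g).toMonoidHom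

lemma mem_cjs {g : G} {S : Subgroup G} {x : G} : x ∈ cjs g S ↔ ∃ s ∈ S, g * s * g⁻¹ = x := by
  simp [cjs, Subgroup.mem_map]

lemma Q_cjs {M S : Subgroup G} (hM : M.Normal) (hS : Q M S) (g : G) : Q M (cjs g S) := by
  obtain ⟨h1, h2, h3⟩ := hS
  refine ⟨?_, ?_, ?_⟩
  · intro h
    apply h1
    rw [Subgroup.eq_bot_iff_forall] at h ⊢
    intro s hs
    have := h (g * s * g⁻¹) (mem_cjs.2 ⟨s, hs, rfl⟩)
    have h4 : s = g⁻¹ * (g * s * g⁻¹) * g := by group
    rw [h4, this]
    group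
  · intro x hx
    obtain ⟨s, hs, rfl⟩ := mem_cjs.1 hx
    exact hM.conj_mem s (h2 hs) g
  · intro m hm x hx
    obtain ⟨s, hs, rfl⟩ := mem_cjs.1 hx
    refine mem_cjs.2 ⟨(g⁻¹ * m * g) * s * (g⁻¹ * m * g)⁻¹, h3 _ ?_ s hs, by group⟩
    have := hM.conj_mem m hm g⁻¹
    rwa [inv_inv] at this

lemma card_cjs (g : G) (S : Subgroup G) : Nat.card (cjs g S) = Nat.card S := by
  unfold cjs
  exact Nat.card_congr
    (S.equivMapOfInjective _ (MulAut.conj g).injective).toEquiv.symm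

end MinNonabaux

open MinNonabaux in
theorem stmtMinNonab : StmtMinNonab := by
  intro G _ _ M hM hab
  obtain ⟨hMn, hMb, hMmin⟩ := hM
  have hex : ∃ T : Subgroup G, Q M T := ⟨M, hMb, le_rfl, fun m hm s hs =>
    M.mul_mem (M.mul_mem hm hs) (M.inv_mem hm)⟩
  obtain ⟨S, hS⟩ := exists_minimal_of_wellFoundedLT (Q M) hex
  obtain ⟨hQ, hSmin⟩ := hS
  obtain ⟨hSb, hSM, hSn⟩ := hQ
  -- conjugates
  have hconj : ∀ g : G, (∀ s ∈ S, g * s * g⁻¹ ∈ S) ∨
      ∀ s ∈ S, ∀ s' ∈ S, s * (g * s' * g⁻¹) = (g * s' * g⁻¹) * s := by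
    intro g
    have hT := Q_cjs hMn ⟨hSb, hSM, hSn⟩ g
    by_cases hI : S ⊓ cjs g S = ⊥
    · right
      intro s hs s' hs'
      have ht : g * s' * g⁻¹ ∈ cjs g S := mem_cjs.2 ⟨s', hs', rfl⟩
      obtain ⟨t, ht'⟩ : ∃ t, t = g * s' * g⁻¹ := ⟨_, rfl⟩
      rw [← ht'] at ht ⊢
      have h1 : s * t * s⁻¹ * t⁻¹ ∈ cjs g S :=
        (cjs g S).mul_mem (hT.2.2 s (hSM hs) t ht) ((cjs g S).inv_mem ht)
      have h2 : s * t * s⁻¹ * t⁻¹ ∈ S := by
        have := S.mul_mem hs (hSn t (hT.2.1 ht) s⁻¹ (S.inv_mem hs))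
        have e : s * (t * s⁻¹ * t⁻¹) = s * t * s⁻¹ * t⁻¹ := by group
        rwa [e] at this
      have h3 : s * t * s⁻¹ * t⁻¹ = 1 := by
        have : s * t * s⁻¹ * t⁻¹ ∈ S ⊓ cjs g S := ⟨h2, h1⟩
        rw [hI] at this
        exact Subgroup.mem_bot.1 this
      calc s * t = (s * t * s⁻¹ * t⁻¹) * (t * s) := by group
        _ = t * s := by rw [h3, one_mul]
    · left
      have hQI : Q M (S ⊓ cjs g S) := ⟨hI, inf_le_left.trans hSM, fun m hm s hs =>
        ⟨hSn m hm s hs.1, hT.2.2 m hm s hs.2⟩⟩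
      have h1 : S ≤ cjs g S := (hSmin hQI inf_le_left).trans inf_le_right
      have h2 : S = cjs g S := Subgroup.eq_of_le_of_card_ge h1 (card_cjs g S).le
      intro s hs
      have : g * s * g⁻¹ ∈ cjs g S := mem_cjs.2 ⟨s, hs, rfl⟩
      rwa [← h2] at this
  -- generation
  have hgen : ∀ Z : Subgroup G, (∀ g : G, ∀ s ∈ S, g * s * g⁻¹ ∈ Z) → M ≤ Z := by
    intro Z hZ
    have h1 : Subgroup.normalClosure (S : Set G) ≤ M :=
      Subgroup.normalClosure_le_normal (fun s hs => hSM hs)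
    have h2 : Subgroup.normalClosure (S : Set G) ≠ ⊥ := by
      intro h
      apply hSb
      rw [eq_bot_iff, ← h]
      exact Subgroup.le_normalClosure
    have h3 : Subgroup.normalClosure (S : Set G) = M :=
      (hMmin _ Subgroup.normalClosure_normal h1).resolve_left h2
    rw [← h3]
    unfold Subgroup.normalClosure
    rw [Subgroup.closure_le]
    intro x hx
    obtain ⟨s, hs, hc⟩ := Group.mem_conjugatesOfSet_iff.1 hx
    obtain ⟨g, hg⟩ := isConj_iff.1 hc
    rw [← hg]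
    exact hZ g s hs
  -- splitting
  have hsplit : ∀ m ∈ M, ∃ s ∈ S, ∃ c ∈ M, (∀ s' ∈ S, c * s' = s' * c) ∧ m = s * c := by
    let Z : Subgroup G :=
      { carrier := {m | ∃ s ∈ S, ∃ c ∈ M, (∀ s' ∈ S, c * s' = s' * c) ∧ m = s * c}
        mul_mem' := by
          rintro x y ⟨s, hs, c, hc, h1, rfl⟩ ⟨s', hs', c', hc', h1', rfl⟩
          refine ⟨s * s', S.mul_mem hs hs', c * c', M.mul_mem hc hc', ?_, ?_⟩
          · intro r hr
            rw [mul_assoc, h1' r hr, ← mul_assoc, h1 r hr, mul_assoc]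
          · calc s * c * (s' * c') = s * (c * s') * c' := by group
              _ = s * (s' * c) * c' := by rw [h1 s' hs']
              _ = s * s' * (c * c') := by group
        one_mem' := ⟨1, S.one_mem, 1, M.one_mem, by simp, by simp⟩
        inv_mem' := by
          rintro x ⟨s, hs, c, hc, h1, rfl⟩
          have h2 : ∀ r ∈ S, c⁻¹ * r = r * c⁻¹ := by
            intro r hr
            have := h1 r hr
            calc c⁻¹ * r = c⁻¹ * (r * c) * c⁻¹ := by group
              _ = c⁻¹ * (c * r) * c⁻¹ := by rw [this]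
              _ = r * c⁻¹ := by group
          refine ⟨s⁻¹, S.inv_mem hs, c⁻¹, M.inv_mem hc, h2, ?_⟩
          rw [mul_inv_rev, h2 s⁻¹ (S.inv_mem hs)] }
    have hZ : M ≤ Z := by
      apply hgen
      intro g s hs
      rcases hconj g with h | h
      · exact ⟨g * s * g⁻¹, h s hs, 1, M.one_mem, by simp, by simp⟩
      · exact ⟨1, S.one_mem, g * s * g⁻¹, hMn.conj_mem s (hSM hs) g,
          fun s' hs' => (h s' hs' s hs).symm, by simp⟩
    exact fun m hm => hZ hm
  -- the centre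
  have hcent : ∀ z ∈ M, (∀ m ∈ M, z * m = m * z) → z = 1 := by
    intro z hz hzc
    let Z : Subgroup G := M ⊓ Subgroup.centralizer (M : Set G)
    have hZn : Z.Normal := by
      refine ⟨fun x hx g => ⟨hMn.conj_mem x hx.1 g, ?_⟩⟩
      change g * x * g⁻¹ ∈ Subgroup.centralizer (M : Set G)
      rw [Subgroup.mem_centralizer_iff]
      intro m hm
      have h1 : g⁻¹ * m * g ∈ M := by
        have := hMn.conj_mem m hm g⁻¹
        rwa [inv_inv] at this
      have h2 := Subgroup.mem_centralizer_iff.1 hx.2 _ h1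
      calc m * (g * x * g⁻¹) = g * ((g⁻¹ * m * g) * x) * g⁻¹ := by group
        _ = g * (x * (g⁻¹ * m * g)) * g⁻¹ := by rw [h2]
        _ = g * x * g⁻¹ * m := by group
    rcases hMmin Z hZn inf_le_left with h | h
    · have : z ∈ Z := ⟨hz, Subgroup.mem_centralizer_iff.2 fun m hm => (hzc m hm).symm⟩
      rw [h] at this
      exact Subgroup.mem_bot.1 this
    · exfalso
      obtain ⟨a, ha, b, hb, hne⟩ := hab
      have : a ∈ Z := by rw [h]; exact ha
      exact hne (Subgroup.mem_centralizer_iff.1 this.2 b hb).symm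
  -- noncommutativity
  have hnc : ∃ a b : S, a * b ≠ b * a := by
    by_contra hcon
    push Not at hcon
    apply hSb
    rw [Subgroup.eq_bot_iff_forall]
    intro s hs
    apply hcent s (hSM hs)
    have h1 : M ≤ Subgroup.centralizer ({s} : Set G) := by
      apply hgen
      intro g s' hs'
      rw [Subgroup.mem_centralizer_iff]
      intro r hr
      rw [Set.mem_singleton_iff.1 hr]
      rcases hconj g with h | h
      · have := hcon ⟨s, hs⟩ ⟨_, h s' hs'⟩
        exact congrArg Subtype.val this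
      · exact h s hs s' hs'
    intro m hm
    exact Subgroup.mem_centralizer_iff.1 (h1 hm) s rfl
  refine ⟨S, hSM, ?_, hnc, hSn, hconj, hgen, hsplit, hcent⟩
  -- simplicity
  have hnt : Nontrivial S := (Subgroup.nontrivial_iff_ne_bot S).2 hSb
  refine ⟨fun H hH => ?_⟩
  by_cases hHb : H = ⊥
  · exact Or.inl hHb
  right
  have hT : Q M (H.map S.subtype) := by
    refine ⟨?_, ?_, ?_⟩
    · intro h
      exact hHb ((Subgroup.map_eq_bot_iff_of_injective _ S.subtype_injective).1 h)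
    · intro x hx
      obtain ⟨y, _, rfl⟩ := Subgroup.mem_map.1 hx
      exact hSM y.2
    · intro m hm x hx
      obtain ⟨y, hy, rfl⟩ := Subgroup.mem_map.1 hx
      obtain ⟨s, hs, c, hc, h1, rfl⟩ := hsplit m hm
      refine Subgroup.mem_map.2 ⟨⟨s, hs⟩ * y * ⟨s, hs⟩⁻¹, hH.conj_mem y hy _, ?_⟩
      have h2 := h1 (y : G) y.2
      change s * (y : G) * s⁻¹ = s * c * (y : G) * (s * c)⁻¹
      calc s * (y : G) * s⁻¹ = s * ((y : G) * c) * c⁻¹ * s⁻¹ := by group
        _ = s * (c * (y : G)) * c⁻¹ * s⁻¹ := by rw [h2]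
        _ = s * c * (y : G) * (s * c)⁻¹ := by group
  have hle : H.map S.subtype ≤ S := by
    intro x hx
    obtain ⟨y, _, rfl⟩ := Subgroup.mem_map.1 hx
    exact y.2
  have h1 := hSmin hT hle
  rw [eq_top_iff]
  intro y _
  obtain ⟨y', hy', e⟩ := Subgroup.mem_map.1 (h1 y.2)
  rwa [S.subtype_injective e] at hy'

end Pool.Agent.Lib.MP_585e73_co
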