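import Pool.Agent.Lib.MP_585e73_co.Spec

/-!
# MP_585e73_co: the recursion step for a nonabelian minimal normal subgroup
-/

set_option autoImplicit false

namespace Pool.Agent.Lib.MP_585e73_co

open Equiv

namespace Nonabaux

/-- Generators of the simple factor from generators of its inner automorphism group. -/
theorem gen_factor {t : ℕ} {G : Type} [Group G] [Finite G] (hG : ASGen t G) (S : Subgroup G)
    (hs : IsSimpleGroup S) (hnc : ∃ a b : S, a * b ≠ b * a) :
    ∃ x : Fin t → G, Subgroup.closure (Set.range x) = S := by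
  obtain ⟨x', hx'⟩ := hG S hnc ⟨S, MonoidHom.id S, Function.surjective_id⟩
    (MulAut.conj : S →* MulAut S).range le_rfl
  have hmem : ∀ i, ∃ s : S, MulAut.conj s = x' i := by
    intro i
    have : x' i ∈ (MulAut.conj : S →* MulAut S).range := by
      rw [← hx']
      exact Subgroup.subset_closure ⟨i, rfl⟩
    exact this
  choose s hs' using hmem
  -- `conj` is injective
  have hker : (MulAut.conj : S →* MulAut S).ker = ⊥ := by
    rcases (inferInstance : (MulAut.conj : S →* MulAut S).ker.Normal).eq_bot_or_eq_top with h | h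
    · exact h
    · exfalso
      obtain ⟨a, b, hab⟩ := hnc
      have ha : a ∈ (MulAut.conj : S →* MulAut S).ker := by rw [h]; trivial
      rw [MonoidHom.mem_ker] at ha
      have := congrArg (fun f : MulAut S => f b) ha
      simp only [MulAut.conj_apply, MulAut.one_apply] at this
      apply hab
      calc a * b = a * b * a⁻¹ * a := by group
        _ = b * a := by rw [this]
  have hinj : Function.Injective (MulAut.conj : S →* MulAut S) :=
    (MonoidHom.ker_eq_bot_iff _).1 hker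
  have htop : Subgroup.closure (Set.range s) = ⊤ := by
    apply Subgroup.map_injective hinj
    rw [MonoidHom.map_closure, ← MonoidHom.range_eq_map, ← hx']
    congr 1
    ext y
    constructor
    · rintro ⟨_, ⟨i, rfl⟩, rfl⟩
      exact ⟨i, (hs' i).symm⟩
    · rintro ⟨i, rfl⟩
      exact ⟨s i, ⟨i, rfl⟩, hs' i⟩
  refine ⟨fun i => (s i : G), ?_⟩
  have h1 : Set.range (fun i => (s i : G)) = S.subtype '' Set.range s := by
    ext y
    simp
  rw [h1, ← MonoidHom.map_closure, htop, ← MonoidHom.range_eq_map, Subgroup.range_subtype]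

/-- A maximal subgroup which does not contain `N`. -/
theorem exists_coatom {G : Type} [Group G] [Finite G] (N : Subgroup G)
    (hne : N ≠ ⊥) (hc : ∀ z ∈ N, (∀ m ∈ N, z * m = m * z) → z = 1) :
    ∃ M : Subgroup G, IsCoatom M ∧ ¬ N ≤ M := by
  by_contra hcon
  push Not at hcon
  have hN : N ≤ frattini G := by
    simp only [frattini, Order.radical, le_iInf_iff]
    intro M hM
    exact hcon M hM
  have h1 : Group.IsNilpotent (frattini G) := frattini_nilpotent
  have h2 : Group.IsNilpotent (N.subgroupOf (frattini G)) := inferInstance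
  have h3 : Group.IsNilpotent N := Group.nilpotent_of_mulEquiv (Subgroup.subgroupOfEquivOfLe hN)
  have h4 : Nontrivial N := (Subgroup.nontrivial_iff_ne_bot N).2 hne
  have h5 := Group.IsNilpotent.center_ne_bot N
  apply h5
  rw [Subgroup.eq_bot_iff_forall]
  rintro ⟨z, hz⟩ hzc
  rw [Subgroup.mem_center_iff] at hzc
  have := hc z hz fun m hm => by
    have := congrArg Subtype.val (hzc ⟨m, hm⟩)
    exact this.symm
  exact Subtype.ext this

end Nonabaux

theorem stmtNonab (h1 : StmtMinNonab) (h2 : StmtQuot) (h3 : StmtCoset) (h4 : StmtNtors)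
    (h5 : StmtJoin) : StmtNonab := by
  intro t G _ _ hG N _ hN hnc c hc
  obtain ⟨S, hS⟩ := h1 G N hN hnc
  obtain ⟨x, hx⟩ := Nonabaux.gen_factor hG S hS.simple hS.noncomm
  obtain ⟨M, hM, hNM⟩ := Nonabaux.exists_coatom N hN.2.1 hS.center
  have e1 := h2 G N c hc
  have e2 := h3 G M
  have e3 := h4 G N S hN hS t x hx
  have e4 := h5 G G _ _ _ _ e1 (h5 G G _ _ _ _ e2 e3)
  have hcard : 1 ≤ Nat.card G := Nat.card_pos
  refine e4.mono ?_ ?_
  · rintro σ ⟨⟨a, ha⟩, hco, hnt⟩
    -- `G = N M`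
    have htop : N ⊔ M = ⊤ := by
      rcases hM.le_iff.1 (le_sup_right : M ≤ N ⊔ M) with h | h
      · exact h
      · exact absurd (le_sup_left.trans h.le) hNM
    have hfac : ∀ g : G, ∃ z ∈ N, ∃ m ∈ M, z * m = g := by
      intro g
      have : g ∈ N ⊔ M := by rw [htop]; trivial
      exact Subgroup.mem_sup_of_normal_left.1 this
    have hnorm : N.Normal := inferInstance
    obtain ⟨b, hb⟩ : ∃ b : G, b = σ 1 := ⟨_, rfl⟩
    have hσz : ∀ z ∈ N, σ z = b * z := by
      intro z hz
      have := hnt 1 z hz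
      rw [one_mul] at this
      rw [this, hb]
    -- `ν = g⁻¹ b⁻¹ σ g` lies in `N`
    have hνN : ∀ g : G, g⁻¹ * b⁻¹ * σ g ∈ N := by
      intro g
      have k1 := ha g
      have k2 := ha 1
      rw [mul_one, ← hb] at k2
      have k3 : g⁻¹ * (a⁻¹ * b)⁻¹ * g ∈ N := hnorm.conj_mem' _ (N.inv_mem k2) g
      have k4 := N.mul_mem k3 k1
      have k5 : g⁻¹ * (a⁻¹ * b)⁻¹ * g * ((a * g)⁻¹ * σ g) = g⁻¹ * b⁻¹ * σ g := by group
      rwa [k5] at k4
    -- and in `M`
    have hνM : ∀ g : G, g⁻¹ * b⁻¹ * σ g ∈ M := by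
      intro g
      obtain ⟨z, hz, m, hm, rfl⟩ := hfac g
      have k1 := hco z (z * m) (by simpa using hm)
      rw [hσz z hz] at k1
      have k2 := M.mul_mem (M.inv_mem hm) k1
      have k3 : m⁻¹ * ((b * z)⁻¹ * σ (z * m)) = (z * m)⁻¹ * b⁻¹ * σ (z * m) := by group
      rwa [k3] at k2
    -- the subgroup `V`
    let V : Subgroup G :=
      { carrier := {ν | ν ∈ N ∧ ∀ y ∈ N, y⁻¹ * ν * y ∈ M}
        mul_mem' := by
          rintro u v ⟨hu1, hu2⟩ ⟨hv1, hv2⟩
          refine ⟨N.mul_mem hu1 hv1, fun y hy => ?_⟩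
          have := M.mul_mem (hu2 y hy) (hv2 y hy)
          have e : y⁻¹ * u * y * (y⁻¹ * v * y) = y⁻¹ * (u * v) * y := by group
          rwa [e] at this
        one_mem' := ⟨N.one_mem, fun y _ => by simp⟩
        inv_mem' := by
          rintro u ⟨hu1, hu2⟩
          refine ⟨N.inv_mem hu1, fun y hy => ?_⟩
          have := M.inv_mem (hu2 y hy)
          have e : (y⁻¹ * u * y)⁻¹ = y⁻¹ * u⁻¹ * y := by group
          rwa [e] at this }
    have hVmem : ∀ ν, ν ∈ V ↔ ν ∈ N ∧ ∀ y ∈ N, y⁻¹ * ν * y ∈ M := fun ν => Iff.rfl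
    have hVnorm : V.Normal := by
      refine ⟨fun ν hν g => ?_⟩
      obtain ⟨hν1, hν2⟩ := (hVmem ν).1 hν
      refine (hVmem _).2 ⟨hnorm.conj_mem ν hν1 g, fun y hy => ?_⟩
      obtain ⟨z, hz, m, hm, rfl⟩ := hfac g
      have hw : z⁻¹ * y ∈ N := N.mul_mem (N.inv_mem hz) hy
      have hw2 : m⁻¹ * (z⁻¹ * y) * m ∈ N := hnorm.conj_mem' _ hw m
      have k1 := hν2 _ hw2
      have k2 := M.mul_mem (M.mul_mem hm k1) (M.inv_mem hm)
      have e : m * ((m⁻¹ * (z⁻¹ * y) * m)⁻¹ * ν * (m⁻¹ * (z⁻¹ * y) * m)) * m⁻¹ =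
          y⁻¹ * (z * m * ν * (z * m)⁻¹) * y := by group
      rwa [e] at k2
    have hVle : V ≤ N := fun ν hν => ((hVmem ν).1 hν).1
    have hVM : V ≤ M := fun ν hν => by
      have := ((hVmem ν).1 hν).2 1 N.one_mem
      simpa using this
    have hVbot : V = ⊥ := by
      rcases hN.2.2 V hVnorm hVle with h | h
      · exact h
      · exact absurd (h ▸ hVM) hNM
    refine ⟨b, fun g => ?_⟩
    have hν : g⁻¹ * b⁻¹ * σ g ∈ V := by
      refine (hVmem _).2 ⟨hνN g, fun y hy => ?_⟩
      have k1 := hνM (g * y)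
      rw [hnt g y hy] at k1
      have e : (g * y)⁻¹ * b⁻¹ * (σ g * y) = y⁻¹ * (g⁻¹ * b⁻¹ * σ g) * y := by group
      rwa [e] at k1
    rw [hVbot, Subgroup.mem_bot] at hν
    calc σ g = b * g * (g⁻¹ * b⁻¹ * σ g) := by group
      _ = b * g := by rw [hν, mul_one]
  · nlinarith

end Pool.Agent.Lib.MP_585e73_co
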