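import Pool.Agent.Lib.MP_585e73_co.Spec

/-! MP_585e73_co: `StmtPGen` and `StmtP` (p-groups) -/

set_option autoImplicit false

namespace Pool.Agent.Lib.MP_585e73_co

open Equiv

namespace PGenaux

/-- The elements of order dividing `p` of an abelian subgroup. -/
def tor {P : Type} [Group P] (A : Subgroup P) (p : ℕ) (hA : ∀ a ∈ A, ∀ b ∈ A, a * b = b * a) :
    Subgroup P where
  carrier := {a | a ∈ A ∧ a ^ p = 1}
  one_mem' := ⟨A.one_mem, one_pow p⟩
  mul_mem' := by
    rintro a b ⟨ha, ha'⟩ ⟨hb, hb'⟩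
    refine ⟨A.mul_mem ha hb, ?_⟩
    have hc : Commute a b := hA a ha b hb
    rw [hc.mul_pow, ha', hb', one_mul]
  inv_mem' := by
    rintro a ⟨ha, ha'⟩
    exact ⟨A.inv_mem ha, by rw [inv_pow, ha', inv_one]⟩

theorem mem_tor {P : Type} [Group P] {A : Subgroup P} {p : ℕ}
    {hA : ∀ a ∈ A, ∀ b ∈ A, a * b = b * a} {x : P} : x ∈ tor A p hA ↔ x ∈ A ∧ x ^ p = 1 :=
  Iff.rfl

theorem pad {P : Type} [Group P] {m m' : ℕ} (h : m ≤ m') (y : Fin m → P)
    (hy : Subgroup.closure (Set.range y) = ⊤) :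
    ∃ x : Fin m' → P, Subgroup.closure (Set.range x) = ⊤ := by
  refine ⟨fun i => if hi : (i : ℕ) < m then y ⟨i, hi⟩ else 1, ?_⟩
  rw [eq_top_iff, ← hy]
  apply Subgroup.closure_mono
  rintro _ ⟨i, rfl⟩
  refine ⟨⟨i, i.2.trans_le h⟩, ?_⟩
  simp

/-- right translations by `d` elements -/
theorem right (h3 : StmtJoin) (h4 : StmtRel) (G : Type) [Group G] [Finite G] (d : ℕ)
    (s : Fin d → G) :
    Enf G G (fun σ => ∀ (j : Fin d) (g : G), σ (g * s j) = σ g * s j) (d * (Nat.card G + 1)) := by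
  induction d with
  | zero =>
    exact (Enf.trivial G G).mono (fun σ _ j => j.elim0) (by simp)
  | succ d ih =>
    have e1 := ih (fun j => s j.castSucc)
    have e2 := h4 G G (fun x => x * s (Fin.last d)) (by
      intro g x
      simp [smul_eq_mul, mul_assoc])
    have e3 := h3 G G _ _ _ _ e1 e2
    refine e3.mono ?_ (by ring_nf; omega)
    rintro σ ⟨h5, h6⟩ j g
    refine Fin.lastCases ?_ (fun j => ?_) j
    · exact h6 g
    · exact h5 j g

theorem isLeft_of_right {G : Type} [Group G] {d : ℕ} {s : Fin d → G}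
    (hs : Subgroup.closure (Set.range s) = ⊤) {σ : Perm G}
    (h : ∀ (j : Fin d) (g : G), σ (g * s j) = σ g * s j) : IsLeft σ := by
  refine ⟨σ 1, fun g => ?_⟩
  have key : ∀ x ∈ Subgroup.closure (Set.range s), ∀ g, σ (g * x) = σ g * x := by
    intro x hx
    induction hx using Subgroup.closure_induction with
    | mem x hx =>
      obtain ⟨j, rfl⟩ := hx
      exact h j
    | one => intro g; simp
    | mul x y _ _ hx hy =>
      intro g
      rw [← mul_assoc, hy, hx, mul_assoc]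
    | inv x _ hx =>
      intro g
      have := hx (g * x⁻¹)
      rw [inv_mul_cancel_right] at this
      rw [this, mul_inv_cancel_right]
  have := key g (by rw [hs]; trivial) 1
  rwa [one_mul] at this

theorem pow4 (k : ℕ) (hk : 2 ≤ k) : k ^ 4 ≤ 82 * 2 ^ (k - 2) := by
  have h6 : ∀ j : ℕ, (j + 6) ^ 4 ≤ 82 * 2 ^ (j + 4) := by
    intro j
    induction j with
    | zero => norm_num
    | succ j ih =>
      have h7 : (j + 1 + 6) ^ 4 ≤ 2 * (j + 6) ^ 4 := by
        have : (j + 1 + 6) ^ 4 + (j ^ 4 + 20 * j ^ 3 + 138 * j ^ 2 + 356 * j + 191) =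
            2 * (j + 6) ^ 4 := by ring
        omega
      calc (j + 1 + 6) ^ 4 ≤ 2 * (j + 6) ^ 4 := h7
        _ ≤ 2 * (82 * 2 ^ (j + 4)) := Nat.mul_le_mul_left 2 ih
        _ = 82 * 2 ^ (j + 1 + 4) := by ring
  rcases Nat.lt_or_ge k 6 with h | h
  · interval_cases k <;> norm_num
  · obtain ⟨j, rfl⟩ := Nat.exists_eq_add_of_le' h
    exact h6 j

end PGenaux

open PGenaux

theorem stmtPGen (h1 : StmtMaxAb) (h2 : StmtIdx) (h3 : StmtGenH) (h4 : StmtGenIdx) :
    StmtPGen := by
  intro p hp P _ _ hnt hP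
  obtain ⟨A, hAn, hA, hself⟩ := h1 p P hP
  let B := tor A p hA
  have hBp : IsPGroup p B := hP.to_subgroup B
  obtain ⟨k, hk⟩ := (IsPGroup.iff_card).1 hBp
  have hk1 : 1 ≤ k := by
    by_contra hk0
    have hk0' : k = 0 := by omega
    rw [hk0', pow_zero] at hk
    have hBbot : B = ⊥ := Subgroup.card_eq_one.1 hk
    have hA1 : A ≠ ⊥ := by
      intro hA0
      obtain ⟨x, hx⟩ := exists_ne (1 : P)
      have := hself x (by
        intro a ha
        rw [hA0, Subgroup.mem_bot] at ha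
        rw [ha, mul_one, one_mul])
      rw [hA0, Subgroup.mem_bot] at this
      exact hx this
    have hAp : IsPGroup p A := hP.to_subgroup A
    have hAnt : Nontrivial A := (Subgroup.nontrivial_iff_ne_bot A).2 hA1
    obtain ⟨e, he⟩ := (IsPGroup.iff_card).1 hAp
    have he0 : e ≠ 0 := by
      intro he0
      rw [he0, pow_zero] at he
      exact hA1 (Subgroup.card_eq_one.1 he)
    have hdvd : p ∣ Nat.card A := by
      rw [he]
      exact dvd_pow_self p he0
    obtain ⟨a, ha⟩ := exists_prime_orderOf_dvd_card' p hdvd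
    have haB : (a : P) ∈ B := by
      refine mem_tor.2 ⟨a.2, ?_⟩
      have := pow_orderOf_eq_one a
      rw [ha] at this
      exact_mod_cast this
    rw [hBbot, Subgroup.mem_bot] at haB
    have ha1 : a = 1 := Subtype.ext haB
    rw [ha1, orderOf_one] at ha
    exact hp.out.one_lt.ne ha
  have hcard : Nat.card {a : P // a ∈ A ∧ a ^ p = 1} = p ^ k := hk
  haveI := hAn
  obtain ⟨H, hH, hidx⟩ := h2 p P hP A k hA hcard
  obtain ⟨x, hx⟩ := h3 p P hP A k hA hself hcard H hH
  obtain ⟨y, hy⟩ := h4 p P hP (k + k ^ 2) (4 * k ^ 2) x (by rw [hx]; exact hidx)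
  refine ⟨k, B, hk1, ?_, ?_, ?_, hk, ?_⟩
  · refine ⟨fun b hb g => ?_⟩
    obtain ⟨hb1, hb2⟩ := mem_tor.1 hb
    refine mem_tor.2 ⟨hAn.conj_mem b hb1 g, ?_⟩
    rw [conj_pow, hb2, mul_one, mul_inv_cancel]
  · intro a ha b hb
    exact hA a (mem_tor.1 ha).1 b (mem_tor.1 hb).1
  · intro b hb
    exact (mem_tor.1 hb).2
  · refine pad ?_ y hy
    nlinarith [hk1]

theorem stmtP (h1 : StmtPGen) (h2 : StmtElem) (h3 : StmtJoin) (h4 : StmtRel) : StmtP := by
  refine ⟨10000, fun p hp P _ _ hP => ?_⟩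
  rcases subsingleton_or_nontrivial P with hs | hnt
  · refine (Enf.trivial P P).mono (fun σ _ => ⟨1, fun g => Subsingleton.elim _ _⟩) (Nat.zero_le _)
  · obtain ⟨k, B, hk1, hBn, hBab, hBp, hBcard, x, hx⟩ := h1 p P hP
    have hn : 1 ≤ Nat.card P := Nat.card_pos
    rcases Nat.lt_or_ge k 2 with hk | hk
    · have hk' : k = 1 := by omega
      subst hk'
      have := right h3 h4 P (6 * 1 ^ 2) x
      refine this.mono (fun σ hσ => isLeft_of_right hx hσ) ?_
      omega
    · haveI := hBn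
      have h5 := h2 p P B k hk1 hBab hBp hBcard (6 * k ^ 2) x
      refine h5.mono (fun σ hσ => isLeft_of_right hx hσ) ?_
      have h6 : Nat.card B * B.index = Nat.card P := B.card_mul_index
      rw [hBcard] at h6
      have h7 := pow4 k hk
      have h8 : 2 ^ (k - 2) ≤ p ^ (k - 2) := Nat.pow_le_pow_left hp.out.two_le _
      have h9 : k ^ 4 * p ^ 2 * B.index ≤ 82 * Nat.card P := by
        calc k ^ 4 * p ^ 2 * B.index ≤ (82 * p ^ (k - 2)) * p ^ 2 * B.index := by
              gcongr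
              exact h7.trans (Nat.mul_le_mul_left _ h8)
          _ = 82 * (p ^ (k - 2) * p ^ 2 * B.index) := by ring
          _ = 82 * Nat.card P := by
              rw [← pow_add, Nat.sub_add_cancel hk, h6]
      have h10 : 20 * (6 * k ^ 2) * k ^ 2 * p ^ 2 * B.index = 120 * (k ^ 4 * p ^ 2 * B.index) := by
        ring
      rw [h10]
      omega

end Pool.Agent.Lib.MP_585e73_co
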