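import Pool.Agent.Lib.MP_585e73_co.Spec

/-!
# MP_585e73_co: reaching a conjugate subgroup by cumulative sums (`StmtReach`)
-/

set_option autoImplicit false

namespace Pool.Agent.Lib.MP_585e73_co

open Equiv

namespace Reachaux

variable {G : Type} [Group G] {k : ℕ}

/-- The auxiliary vertices. -/
abbrev Wt (C : Fin k → Subgroup G) (D : ℕ → Subgroup G) : Type :=
  (Σ m : Fin (k + 1), G ⧸ D (m : ℕ)) ⊕ (Σ m : Fin k, G ⧸ (D (m : ℕ) ⊓ C m))

/-- The nodes `G/D m`. -/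
def dN (C : Fin k → Subgroup G) (D : ℕ → Subgroup G) (m : Fin (k + 1)) (g : G) :
    (Σ i : Fin k, G ⧸ C i) ⊕ Wt C D :=
  Sum.inr (Sum.inl ⟨m, (g : G ⧸ D (m : ℕ))⟩)

/-- The nodes `G/Y m`. -/
def yN (C : Fin k → Subgroup G) (D : ℕ → Subgroup G) (m : Fin k) (g : G) :
    (Σ i : Fin k, G ⧸ C i) ⊕ Wt C D :=
  Sum.inr (Sum.inr ⟨m, (g : G ⧸ (D (m : ℕ) ⊓ C m))⟩)

/-- The base nodes. -/
def cN (C : Fin k → Subgroup G) (D : ℕ → Subgroup G) (m : Fin k) (g : G) :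
    (Σ i : Fin k, G ⧸ C i) ⊕ Wt C D :=
  Sum.inl ⟨m, (g : G ⧸ C m)⟩

theorem dN_eq_iff (C : Fin k → Subgroup G) (D : ℕ → Subgroup G) (m : Fin (k + 1)) (g g' : G) :
    dN C D m g = dN C D m g' ↔ g⁻¹ * g' ∈ D (m : ℕ) := by
  simp only [dN, Sum.inr.injEq, Sum.inl.injEq, Sigma.mk.injEq, heq_eq_eq, true_and]
  exact QuotientGroup.eq

theorem yN_eq_iff (C : Fin k → Subgroup G) (D : ℕ → Subgroup G) (m : Fin k) (g g' : G) :
    yN C D m g = yN C D m g' ↔ g⁻¹ * g' ∈ D (m : ℕ) ⊓ C m := by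
  simp only [yN, Sum.inr.injEq, Sigma.mk.injEq, heq_eq_eq, true_and]
  exact QuotientGroup.eq

theorem cN_eq_iff (C : Fin k → Subgroup G) (D : ℕ → Subgroup G) (m : Fin k) (g g' : G) :
    cN C D m g = cN C D m g' ↔ g⁻¹ * g' ∈ C m := by
  simp only [cN, Sum.inl.injEq, Sigma.mk.injEq, heq_eq_eq, true_and]
  exact QuotientGroup.eq

/-- Sources of the arcs. -/
def src (C : Fin k → Subgroup G) (D : ℕ → Subgroup G) (i₀ : Fin k) :
    Bool ⊕ Bool → Fin k → G → (Σ i : Fin k, G ⧸ C i) ⊕ Wt C D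
  | Sum.inl true => fun i g => yN C D i g
  | Sum.inl false => fun i g => yN C D i g
  | Sum.inr true => fun i g => yN C D i g
  | Sum.inr false => fun _ g => cN C D i₀ g

/-- Targets of the arcs. -/
def tgt (C : Fin k → Subgroup G) (D : ℕ → Subgroup G) (s : G) :
    Bool ⊕ Bool → Fin k → G → (Σ i : Fin k, G ⧸ C i) ⊕ Wt C D
  | Sum.inl true => fun i g => dN C D i.castSucc g
  | Sum.inl false => fun i g => dN C D i.succ g
  | Sum.inr true => fun i g => cN C D i g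
  | Sum.inr false => fun _ g => dN C D (Fin.last k) (g * s)

/-- The structure. -/
def str (C : Fin k → Subgroup G) [Finite G] (D : ℕ → Subgroup G) (i₀ : Fin k) (s : G) :
    RelStr (Σ i : Fin k, G ⧸ C i) where
  W := Wt C D
  K := Fin (k + 1) ⊕ Fin k
  J := Bool ⊕ Bool
  finW := inferInstance
  finK := inferInstance
  finJ := inferInstance
  κ := Sum.map (fun x => x.1) (fun x => x.1)
  R := fun j u v => ∃ (i : Fin k) (g : G), u = src C D i₀ j i g ∧ v = tgt C D s j i g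

theorem out_mem (H : Subgroup G) (g : G) : g⁻¹ * (Quotient.out (g : G ⧸ H)) ∈ H := by
  obtain ⟨h, hh⟩ := QuotientGroup.mk_out_eq_mul H g
  rw [hh]
  simp

/-- Surjection counting the arcs. -/
noncomputable def arcMap (C : Fin k → Subgroup G) [Finite G] (D : ℕ → Subgroup G) (i₀ : Fin k)
    (s : G) :
    ((Σ i : Fin k, G ⧸ (D (i : ℕ) ⊓ C i)) ⊕ (Σ i : Fin k, G ⧸ (D (i : ℕ) ⊓ C i))) ⊕
      ((Σ i : Fin k, G ⧸ (D (i : ℕ) ⊓ C i)) ⊕ (G ⧸ C i₀)) → (str C D i₀ s).arcs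
  | Sum.inl (Sum.inl p) => ⟨(Sum.inl true, src C D i₀ (Sum.inl true) p.1 (Quotient.out p.2),
      tgt C D s (Sum.inl true) p.1 (Quotient.out p.2)), ⟨_, _, rfl, rfl⟩⟩
  | Sum.inl (Sum.inr p) => ⟨(Sum.inl false, src C D i₀ (Sum.inl false) p.1 (Quotient.out p.2),
      tgt C D s (Sum.inl false) p.1 (Quotient.out p.2)), ⟨_, _, rfl, rfl⟩⟩
  | Sum.inr (Sum.inl p) => ⟨(Sum.inr true, src C D i₀ (Sum.inr true) p.1 (Quotient.out p.2),
      tgt C D s (Sum.inr true) p.1 (Quotient.out p.2)), ⟨_, _, rfl, rfl⟩⟩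
  | Sum.inr (Sum.inr q) => ⟨(Sum.inr false, src C D i₀ (Sum.inr false) i₀ (Quotient.out q),
      tgt C D s (Sum.inr false) i₀ (Quotient.out q)), ⟨i₀, _, rfl, rfl⟩⟩

theorem arcMap_surj {C : Fin k → Subgroup G} [Finite G] {D : ℕ → Subgroup G} {i₀ : Fin k} {s : G}
    (hD : ∀ m : Fin k, D m ⊓ C m ≤ D (m + 1)) (hk : ∀ x, x ∈ D k ↔ s * x * s⁻¹ ∈ C i₀) :
    Function.Surjective (arcMap C D i₀ s) := by
  rintro ⟨⟨j, u, v⟩, h⟩
  obtain ⟨i, g, hu, hv⟩ := h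
  dsimp only at hu hv
  subst hu hv
  have hm := out_mem (D (i : ℕ) ⊓ C i) g
  have hy := (yN_eq_iff C D i g _).mpr hm
  rcases j with (_ | _) | (_ | _)
  · refine ⟨Sum.inl (Sum.inr ⟨i, (g : G ⧸ (D (i : ℕ) ⊓ C i))⟩), ?_⟩
    have h2 := (dN_eq_iff C D i.succ g (Quotient.out (g : G ⧸ (D (i : ℕ) ⊓ C i)))).mpr (hD i hm)
    apply Subtype.ext
    simp only [arcMap, src, tgt]
    rw [← hy, ← h2]
  · refine ⟨Sum.inl (Sum.inl ⟨i, (g : G ⧸ (D (i : ℕ) ⊓ C i))⟩), ?_⟩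
    have h2 := (dN_eq_iff C D i.castSucc g (Quotient.out (g : G ⧸ (D (i : ℕ) ⊓ C i)))).mpr hm.1
    apply Subtype.ext
    simp only [arcMap, src, tgt]
    rw [← hy, ← h2]
  · refine ⟨Sum.inr (Sum.inr (g : G ⧸ C i₀)), ?_⟩
    have hm' := out_mem (C i₀) g
    have h1 := (cN_eq_iff C D i₀ g _).mpr hm'
    have h2 : dN C D (Fin.last k) (g * s) =
        dN C D (Fin.last k) (Quotient.out (g : G ⧸ C i₀) * s) := by
      rw [dN_eq_iff]
      change _ ∈ D k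
      rw [hk]
      have e : s * ((g * s)⁻¹ * (Quotient.out (g : G ⧸ C i₀) * s)) * s⁻¹ =
          g⁻¹ * Quotient.out (g : G ⧸ C i₀) := by group
      rw [e]
      exact hm'
    apply Subtype.ext
    simp only [arcMap, src, tgt]
    rw [← h1, ← h2]
  · refine ⟨Sum.inr (Sum.inl ⟨i, (g : G ⧸ (D (i : ℕ) ⊓ C i))⟩), ?_⟩
    have h2 := (cN_eq_iff C D i g (Quotient.out (g : G ⧸ (D (i : ℕ) ⊓ C i)))).mpr hm.2
    apply Subtype.ext
    simp only [arcMap, src, tgt]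
    rw [← hy, ← h2]

theorem card_sigma_quot {I : Type} [Fintype I] [Finite G] (H : I → Subgroup G) :
    Nat.card (Σ i : I, G ⧸ H i) = ∑ i : I, (H i).index := by
  rw [Nat.card_sigma]
  rfl

theorem index_last [Finite G] {C : Fin k → Subgroup G} {D : ℕ → Subgroup G} {i₀ : Fin k} {s : G}
    (hk : ∀ x, x ∈ D k ↔ s * x * s⁻¹ ∈ C i₀) : (C i₀).index = (D k).index := by
  have e : D k = (C i₀).comap (MulAut.conj s).toMonoidHom := by
    ext x
    rw [hk, Subgroup.mem_comap]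
    rfl
  rw [e, Subgroup.index_comap_of_surjective]
  exact (MulAut.conj s).surjective

theorem cost_le {C : Fin k → Subgroup G} [Finite G] {D : ℕ → Subgroup G} {i₀ : Fin k} {s : G}
    {q : ℕ} (hD : ∀ m : Fin k, D m ⊓ C m ≤ D (m + 1)) (hk : ∀ x, x ∈ D k ↔ s * x * s⁻¹ ∈ C i₀)
    (hq : ∀ m ≤ k, (D m).index ≤ q) (hq' : ∀ m : Fin k, (D m ⊓ C m).index ≤ q) :
    (str C D i₀ s).cost ≤ 20 * k * q := by
  have s1 : ∑ i : Fin k, (D (i : ℕ) ⊓ C i).index ≤ k * q := by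
    calc ∑ i : Fin k, (D (i : ℕ) ⊓ C i).index ≤ ∑ _i : Fin k, q :=
          Finset.sum_le_sum fun i _ => hq' i
      _ = k * q := by simp
  have s2 : ∑ i : Fin (k + 1), (D (i : ℕ)).index ≤ (k + 1) * q := by
    calc ∑ i : Fin (k + 1), (D (i : ℕ)).index ≤ ∑ _i : Fin (k + 1), q :=
          Finset.sum_le_sum fun i _ => hq i (Nat.lt_succ_iff.mp i.2)
      _ = (k + 1) * q := by simp
  have s3 : (C i₀).index ≤ q := by
    rw [index_last hk]
    exact hq k le_rfl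
  have ha : Nat.card (str C D i₀ s).arcs ≤ (k * q + k * q) + (k * q + q) := by
    have := Nat.card_le_card_of_surjective _ (arcMap_surj hD hk (s := s))
    rw [Nat.card_sum, Nat.card_sum, Nat.card_sum, card_sigma_quot] at this
    have e : Nat.card (G ⧸ C i₀) = (C i₀).index := rfl
    omega
  have hW : Nat.card (str C D i₀ s).W ≤ (k + 1) * q + k * q := by
    change Nat.card ((Σ m : Fin (k + 1), G ⧸ D (m : ℕ)) ⊕
      (Σ m : Fin k, G ⧸ (D (m : ℕ) ⊓ C m))) ≤ _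
    rw [Nat.card_sum, card_sigma_quot, card_sigma_quot]
    omega
  have hK : Nat.card (str C D i₀ s).K = (k + 1) + k := by
    change Nat.card (Fin (k + 1) ⊕ Fin k) = _
    rw [Nat.card_sum, Nat.card_fin, Nat.card_fin]
  have hJ : Nat.card (str C D i₀ s).J = 4 := by
    change Nat.card (Bool ⊕ Bool) = _
    rw [Nat.card_sum]
    simp
  have hk1 : 1 ≤ k := lt_of_le_of_lt (Nat.zero_le _) i₀.2
  have hq1 : 1 ≤ q := by
    have h0 : 0 < (C i₀).index := Nat.pos_of_ne_zero (Subgroup.index_ne_zero_of_finite)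
    omega
  have e1 : (k + 1) * q = k * q + q := by ring
  have e2 : 20 * k * q = 20 * (k * q) := by ring
  have e3 : k ≤ k * q := Nat.le_mul_of_pos_right k hq1
  have e4 : q ≤ k * q := Nat.le_mul_of_pos_left q hk1
  unfold RelStr.cost
  omega

/-! ### Invariance -/

/-- The action of `g` on the auxiliary vertices. -/
def act (C : Fin k → Subgroup G) (D : ℕ → Subgroup G) (g : G) : Perm (Wt C D) :=
  Equiv.sumCongr (MulAction.toPerm g : Perm (Σ m : Fin (k + 1), G ⧸ D (m : ℕ)))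
    (MulAction.toPerm g : Perm (Σ m : Fin k, G ⧸ (D (m : ℕ) ⊓ C m)))

theorem act_src (C : Fin k → Subgroup G) (D : ℕ → Subgroup G) (i₀ : Fin k) (g : G)
    (j : Bool ⊕ Bool) (i : Fin k) (x : G) :
    Equiv.sumCongr (MulAction.toPerm g : Perm (Σ i : Fin k, G ⧸ C i)) (act C D g)
      (src C D i₀ j i x) = src C D i₀ j i (g * x) := by
  rcases j with (_ | _) | (_ | _) <;> rfl

theorem act_tgt (C : Fin k → Subgroup G) (D : ℕ → Subgroup G) (s : G) (g : G)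
    (j : Bool ⊕ Bool) (i : Fin k) (x : G) :
    Equiv.sumCongr (MulAction.toPerm g : Perm (Σ i : Fin k, G ⧸ C i)) (act C D g)
      (tgt C D s j i x) = tgt C D s j i (g * x) := by
  rcases j with (_ | _) | (_ | _)
  · rfl
  · rfl
  · change dN C D (Fin.last k) (g * (x * s)) = dN C D (Fin.last k) (g * x * s)
    rw [mul_assoc]
  · rfl

theorem act_isAut (C : Fin k → Subgroup G) [Finite G] (D : ℕ → Subgroup G) (i₀ : Fin k) (s : G)
    (g : G) : (str C D i₀ s).IsAut (MulAction.toPerm g) (act C D g) := by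
  refine ⟨?_, ?_⟩
  · rintro (w | w) <;> rfl
  · intro j u v
    constructor
    · rintro ⟨i, x, rfl, rfl⟩
      exact ⟨i, g * x, act_src C D i₀ g j i x, act_tgt C D s g j i x⟩
    · rintro ⟨i, x, hu, hv⟩
      refine ⟨i, g⁻¹ * x, ?_, ?_⟩
      · apply (Equiv.sumCongr (MulAction.toPerm g : Perm (Σ i : Fin k, G ⧸ C i))
          (act C D g)).injective
        refine hu.trans (Eq.trans ?_ (act_src C D i₀ g j i (g⁻¹ * x)).symm)
        rw [mul_inv_cancel_left]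
      · apply (Equiv.sumCongr (MulAction.toPerm g : Perm (Σ i : Fin k, G ⧸ C i))
          (act C D g)).injective
        refine hv.trans (Eq.trans ?_ (act_tgt C D s g j i (g⁻¹ * x)).symm)
        rw [mul_inv_cancel_left]

/-! ### The property -/

/-- The colour of an auxiliary vertex. -/
def col (C : Fin k → Subgroup G) (D : ℕ → Subgroup G) : Wt C D → Fin (k + 1) ⊕ Fin k :=
  Sum.map (fun x => x.1) (fun x => x.1)

/-- What we use of an automorphism. -/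
def Good (C : Fin k → Subgroup G) (D : ℕ → Subgroup G) (i₀ : Fin k) (s : G)
    (σ : Perm (Σ i : Fin k, G ⧸ C i)) (τ : Perm (Wt C D)) : Prop :=
  (∀ w, col C D (τ w) = col C D w) ∧ ∀ (j : Bool ⊕ Bool) (i : Fin k) (g : G),
    ∃ (i' : Fin k) (x : G), Equiv.sumCongr σ τ (src C D i₀ j i g) = src C D i₀ j i' x ∧
      Equiv.sumCongr σ τ (tgt C D s j i g) = tgt C D s j i' x

theorem good_of_isAut [Finite G] {C : Fin k → Subgroup G} {D : ℕ → Subgroup G} {i₀ : Fin k} {s : G}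
    {σ : Perm (Σ i : Fin k, G ⧸ C i)} {τ : Perm (Wt C D)} (h : (str C D i₀ s).IsAut σ τ) :
    Good C D i₀ s σ τ :=
  ⟨h.1, fun j i g => (h.2 j (src C D i₀ j i g) (tgt C D s j i g)).mp ⟨i, g, rfl, rfl⟩⟩

section Property

variable {C : Fin k → Subgroup G} {D : ℕ → Subgroup G} {i₀ : Fin k} {s : G}
  {σ : Perm (Σ i : Fin k, G ⧸ C i)} {τ : Perm (Wt C D)}

theorem exists_y (h : Good C D i₀ s σ τ) (i : Fin k) (g : G) :
    ∃ x : G, Equiv.sumCongr σ τ (yN C D i g) = yN C D i x := by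
  have hκ := h.1 (Sum.inr ⟨i, (g : G ⧸ (D (i : ℕ) ⊓ C i))⟩)
  rcases hw : τ (Sum.inr ⟨i, (g : G ⧸ (D (i : ℕ) ⊓ C i))⟩) with w | ⟨i', q⟩
  · rw [hw] at hκ
    exact absurd hκ Sum.inl_ne_inr
  · rw [hw] at hκ
    have hi : i' = i := Sum.inr_injective hκ
    subst hi
    obtain ⟨x, rfl⟩ := QuotientGroup.mk_surjective q
    exact ⟨x, congrArg Sum.inr hw⟩

theorem exists_d (h : Good C D i₀ s σ τ) (m : Fin (k + 1)) (g : G) :
    ∃ x : G, Equiv.sumCongr σ τ (dN C D m g) = dN C D m x := by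
  have hκ := h.1 (Sum.inl ⟨m, (g : G ⧸ D (m : ℕ))⟩)
  rcases hw : τ (Sum.inl ⟨m, (g : G ⧸ D (m : ℕ))⟩) with ⟨i', q⟩ | w
  · rw [hw] at hκ
    have hi : i' = m := Sum.inl_injective hκ
    subst hi
    obtain ⟨x, rfl⟩ := QuotientGroup.mk_surjective q
    exact ⟨x, congrArg Sum.inr hw⟩
  · rw [hw] at hκ
    exact absurd hκ Sum.inr_ne_inl

theorem yN_inj {i i' : Fin k} {g g' : G} (h : yN C D i g = yN C D i' g') :
    i = i' ∧ g⁻¹ * g' ∈ D (i : ℕ) ⊓ C i := by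
  have h1 : (⟨i, (g : G ⧸ (D (i : ℕ) ⊓ C i))⟩ : Σ m : Fin k, G ⧸ (D (m : ℕ) ⊓ C m)) =
      ⟨i', (g' : G ⧸ (D (i' : ℕ) ⊓ C i'))⟩ := Sum.inr_injective (Sum.inr_injective h)
  have hi : i = i' := congrArg Sigma.fst h1
  subst hi
  exact ⟨rfl, (yN_eq_iff C D i g g').mp h⟩

theorem step (hD : ∀ m : Fin k, D m ⊓ C m ≤ D (m + 1)) (h : Good C D i₀ s σ τ)
    (i : Fin k) (g x : G) (hx : Equiv.sumCongr σ τ (yN C D i g) = yN C D i x) :
    Equiv.sumCongr σ τ (dN C D i.castSucc g) = dN C D i.castSucc x ∧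
    Equiv.sumCongr σ τ (dN C D i.succ g) = dN C D i.succ x ∧
    Equiv.sumCongr σ τ (cN C D i g) = cN C D i x := by
  refine ⟨?_, ?_, ?_⟩
  · obtain ⟨i', x', h1, h2⟩ := h.2 (Sum.inl true) i g
    obtain ⟨rfl, h3⟩ := yN_inj (hx.symm.trans h1)
    exact h2.trans ((dN_eq_iff C D i.castSucc x x').mpr h3.1).symm
  · obtain ⟨i', x', h1, h2⟩ := h.2 (Sum.inl false) i g
    obtain ⟨rfl, h3⟩ := yN_inj (hx.symm.trans h1)
    exact h2.trans ((dN_eq_iff C D i.succ x x').mpr (hD i h3)).symm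
  · obtain ⟨i', x', h1, h2⟩ := h.2 (Sum.inr true) i g
    obtain ⟨rfl, h3⟩ := yN_inj (hx.symm.trans h1)
    exact h2.trans ((cN_eq_iff C D i x x').mpr h3.2).symm

theorem reach (h0 : D 0 = ⊤) (hD : ∀ m : Fin k, D m ⊓ C m ≤ D (m + 1))
    (h : Good C D i₀ s σ τ) (g f : G)
    (hσ : ∀ i : Fin k, Equiv.sumCongr σ τ (cN C D i g) = cN C D i f) :
    ∀ m : Fin (k + 1), Equiv.sumCongr σ τ (dN C D m g) = dN C D m f := by
  intro m
  induction m using Fin.induction with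
  | zero =>
    obtain ⟨x, hx⟩ := exists_d h 0 g
    rw [hx, dN_eq_iff]
    change _ ∈ D 0
    rw [h0]
    exact Subgroup.mem_top _
  | succ i ih =>
    obtain ⟨x, hx⟩ := exists_y h i g
    obtain ⟨h1, h2, h3⟩ := step hD h i g x hx
    rw [h1] at ih
    rw [hσ i] at h3
    rw [h2, dN_eq_iff]
    have e1 : x⁻¹ * f ∈ D (i : ℕ) := (dN_eq_iff C D i.castSucc x f).mp ih
    have e2 : x⁻¹ * f ∈ C i := (cN_eq_iff C D i x f).mp h3.symm
    exact hD i ⟨e1, e2⟩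

theorem last (hk : ∀ x, x ∈ D k ↔ s * x * s⁻¹ ∈ C i₀) (h0 : D 0 = ⊤)
    (hD : ∀ m : Fin k, D m ⊓ C m ≤ D (m + 1))
    (h : Good C D i₀ s σ τ) (g f g' : G)
    (hσ : ∀ i : Fin k, Equiv.sumCongr σ τ (cN C D i (g * s)) = cN C D i f)
    (hg : Equiv.sumCongr σ τ (cN C D i₀ g) = cN C D i₀ g') : (g' * s)⁻¹ * f ∈ D k := by
  have h1 := reach h0 hD h (g * s) f hσ (Fin.last k)
  obtain ⟨i', x, h2, h3⟩ := h.2 (Sum.inr false) i₀ g
  have e1 : g'⁻¹ * x ∈ C i₀ := (cN_eq_iff C D i₀ g' x).mp (hg.symm.trans h2)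
  have e2 : f⁻¹ * (x * s) ∈ D k :=
    (dN_eq_iff C D (Fin.last k) f (x * s)).mp (h1.symm.trans h3)
  have e3 : (g' * s)⁻¹ * (x * s) ∈ D k := by
    rw [hk]
    have e : s * ((g' * s)⁻¹ * (x * s)) * s⁻¹ = g'⁻¹ * x := by group
    rw [e]
    exact e1
  have e4 := (D k).mul_mem e3 ((D k).inv_mem e2)
  have e : (g' * s)⁻¹ * (x * s) * (f⁻¹ * (x * s))⁻¹ = (g' * s)⁻¹ * f := by group
  rwa [e] at e4

end Property

end Reachaux

theorem stmtReach : StmtReach := by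
  intro G _ _ k C i₀ s D q h0 hD hk hq hq'
  refine ⟨Reachaux.str C D i₀ s, Reachaux.cost_le hD hk hq hq', ?_, ?_, ?_⟩
  · intro g
    exact ⟨Reachaux.act C D g, Reachaux.act_isAut C D i₀ s g⟩
  · intro σ τ h g f g' h1 h2
    exact Reachaux.last hk h0 hD (Reachaux.good_of_isAut h) g f g' (fun i => congrArg Sum.inl (h1 i)) (congrArg Sum.inl h2)
  · intro τ h'
    have h := Reachaux.good_of_isAut h'
    have key : ∀ (m : Fin (k + 1)) (g : G), Equiv.sumCongr 1 τ (Reachaux.dN C D m g) =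
        Reachaux.dN C D m g := fun m g => Reachaux.reach h0 hD h g g (fun _ => rfl) m
    apply Equiv.ext
    rintro (⟨m, q⟩ | ⟨i, q⟩)
    · obtain ⟨g, rfl⟩ := QuotientGroup.mk_surjective q
      exact Sum.inr_injective (key m g)
    · obtain ⟨g, rfl⟩ := QuotientGroup.mk_surjective q
      obtain ⟨x, hx⟩ := Reachaux.exists_y h i g
      obtain ⟨h1, -, h3⟩ := Reachaux.step hD h i g x hx
      have e1 : g⁻¹ * x ∈ D (i : ℕ) :=
        (Reachaux.dN_eq_iff C D i.castSucc g x).mp ((key i.castSucc g).symm.trans h1)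
      have e2 : g⁻¹ * x ∈ C i := (Reachaux.cN_eq_iff C D i g x).mp h3
      exact Sum.inr_injective (hx.trans ((Reachaux.yN_eq_iff C D i g x).mpr ⟨e1, e2⟩).symm)

end Pool.Agent.Lib.MP_585e73_co
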