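import Pool.Agent.Lib.MP_585e73_co.Spec

/-!
# MP_585e73_co: from coloured graphs to graphs (the rigid marker path)
-/

set_option autoImplicit false

namespace Pool.Agent.Lib.MP_585e73_co

open Equiv

namespace Skelaux

/-- the vertices: the old ones, the path `z`, and the two pendant vertices `l`, `m` -/
inductive SV (V₀ : Type) (L : ℕ) : Type
  | v (x : V₀)
  | z (i : Fin (L + 1))
  | l (i : Fin (L + 1))
  | m (i : Fin (L + 1))

variable {V₀ : Type} {L : ℕ}

def toSum : SV V₀ L → V₀ ⊕ (Fin (L + 1) ⊕ (Fin (L + 1) ⊕ Fin (L + 1)))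
  | .v x => .inl x
  | .z i => .inr (.inl i)
  | .l i => .inr (.inr (.inl i))
  | .m i => .inr (.inr (.inr i))

lemma toSum_inj : Function.Injective (toSum (V₀ := V₀) (L := L)) := by
  intro a b h
  cases a <;> cases b <;> simp_all [toSum]

instance [Finite V₀] : Finite (SV V₀ L) := Finite.of_injective _ toSum_inj

def adj (Γ₀ : SimpleGraph V₀) (c : V₀ → ℕ) : SV V₀ L → SV V₀ L → Prop
  | .v x, .v y => Γ₀.Adj x y
  | .v x, .z i => c x = i
  | .z i, .v x => c x = i
  | .z i, .z j => (i : ℕ) + 1 = j ∨ (j : ℕ) + 1 = i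
  | .z i, .l j => i = j
  | .l j, .z i => i = j
  | .l i, .m j => i = j
  | .m j, .l i => i = j
  | _, _ => False

lemma adj_symm (Γ₀ : SimpleGraph V₀) (c : V₀ → ℕ) (a b : SV V₀ L) (h : adj Γ₀ c a b) :
    adj Γ₀ c b a := by
  cases a <;> cases b <;> simp only [adj] at h ⊢
  · exact h.symm
  · exact h
  · exact h
  · exact h.symm
  · exact h
  · exact h
  · exact h
  · exact h

lemma adj_irrefl (Γ₀ : SimpleGraph V₀) (c : V₀ → ℕ) (a : SV V₀ L) : ¬ adj Γ₀ c a a := by
  cases a <;> simp only [adj]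
  · exact Γ₀.irrefl
  · omega
  · exact not_false
  · exact not_false

/-- the graph -/
def gr (Γ₀ : SimpleGraph V₀) (c : V₀ → ℕ) (L : ℕ) : SimpleGraph (SV V₀ L) where
  Adj := adj Γ₀ c
  symm := ⟨fun a b h => adj_symm Γ₀ c a b h⟩
  loopless := ⟨fun a h => adj_irrefl Γ₀ c a h⟩

lemma gr_adj (Γ₀ : SimpleGraph V₀) (c : V₀ → ℕ) (a b : SV V₀ L) :
    (gr Γ₀ c L).Adj a b ↔ adj Γ₀ c a b := Iff.rfl

/-! ### counting edges -/

lemma edges_le [Finite V₀] (Γ₀ : SimpleGraph V₀) (c : V₀ → ℕ) (hc : ∀ v, 1 ≤ c v ∧ c v ≤ L) :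
    Nat.card (gr Γ₀ c L).edgeSet ≤ Nat.card Γ₀.edgeSet + Nat.card V₀ + 3 * L + 2 := by
  let f : Γ₀.edgeSet ⊕ (V₀ ⊕ (Fin L ⊕ (Fin (L + 1) ⊕ Fin (L + 1)))) → (gr Γ₀ c L).edgeSet :=
    fun x => match x with
    | .inl e => ⟨Sym2.map SV.v e.1, by
        obtain ⟨e, he⟩ := e
        induction e using Sym2.ind with
        | _ a b => exact he⟩
    | .inr (.inl u) => ⟨s(.v u, .z ⟨c u, by have := (hc u).2; omega⟩), by
        show c u = _
        rfl⟩
    | .inr (.inr (.inl i)) => ⟨s(.z i.castSucc, .z i.succ), by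
        show ((i.castSucc : Fin (L + 1)) : ℕ) + 1 = (i.succ : Fin (L + 1)) ∨ _
        left
        simp⟩
    | .inr (.inr (.inr (.inl i))) => ⟨s(.z i, .l i), by
        show i = i
        rfl⟩
    | .inr (.inr (.inr (.inr i))) => ⟨s(.l i, .m i), by
        show i = i
        rfl⟩
  have hf : Function.Surjective f := by
    have step : ∀ i j : Fin (L + 1), (i : ℕ) + 1 = j → ∃ k : Fin L, k.castSucc = i ∧ k.succ = j := by
      intro i j h
      refine ⟨⟨i, by have := j.2; omega⟩, ?_, ?_⟩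
      · apply Fin.ext; simp
      · apply Fin.ext; simpa using h
    rintro ⟨e, he⟩
    induction e using Sym2.ind with
    | _ a b =>
      have hab : adj Γ₀ c a b := he
      cases a with
      | v x =>
        cases b with
        | v y => exact ⟨.inl ⟨s(x, y), hab⟩, rfl⟩
        | z i =>
          have h1 : c x = i := hab
          refine ⟨.inr (.inl x), ?_⟩
          apply Subtype.ext
          show s(SV.v x, SV.z _) = s(SV.v x, SV.z i)
          have : (⟨c x, by have := (hc x).2; omega⟩ : Fin (L + 1)) = i := Fin.ext h1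
          rw [this]
        | l i => exact absurd hab not_false
        | m i => exact absurd hab not_false
      | z i =>
        cases b with
        | v x =>
          have h1 : c x = i := hab
          refine ⟨.inr (.inl x), ?_⟩
          apply Subtype.ext
          show s(SV.v x, SV.z _) = s(SV.z i, SV.v x)
          have : (⟨c x, by have := (hc x).2; omega⟩ : Fin (L + 1)) = i := Fin.ext h1
          rw [this, Sym2.eq_swap]
        | z j =>
          rcases (hab : (i : ℕ) + 1 = j ∨ (j : ℕ) + 1 = i) with h | h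
          · obtain ⟨k, h1, h2⟩ := step i j h
            refine ⟨.inr (.inr (.inl k)), ?_⟩
            apply Subtype.ext
            show s(SV.z k.castSucc, SV.z k.succ) = s(SV.z i, SV.z j)
            rw [h1, h2]
          · obtain ⟨k, h1, h2⟩ := step j i h
            refine ⟨.inr (.inr (.inl k)), ?_⟩
            apply Subtype.ext
            show s(SV.z k.castSucc, SV.z k.succ) = s(SV.z i, SV.z j)
            rw [h1, h2, Sym2.eq_swap]
        | l j =>
          have h1 : i = j := hab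
          refine ⟨.inr (.inr (.inr (.inl i))), ?_⟩
          apply Subtype.ext
          show s(SV.z i, SV.l i) = s(SV.z i, SV.l j)
          rw [h1]
        | m j => exact absurd hab not_false
      | l i =>
        cases b with
        | v x => exact absurd hab not_false
        | z j =>
          have h1 : j = i := hab
          refine ⟨.inr (.inr (.inr (.inl i))), ?_⟩
          apply Subtype.ext
          show s(SV.z i, SV.l i) = s(SV.l i, SV.z j)
          rw [h1, Sym2.eq_swap]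
        | l j => exact absurd hab not_false
        | m j =>
          have h1 : i = j := hab
          refine ⟨.inr (.inr (.inr (.inr i))), ?_⟩
          apply Subtype.ext
          show s(SV.l i, SV.m i) = s(SV.l i, SV.m j)
          rw [h1]
      | m i =>
        cases b with
        | v x => exact absurd hab not_false
        | z j => exact absurd hab not_false
        | l j =>
          have h1 : j = i := hab
          refine ⟨.inr (.inr (.inr (.inr i))), ?_⟩
          apply Subtype.ext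
          show s(SV.l i, SV.m i) = s(SV.m i, SV.l j)
          rw [h1, Sym2.eq_swap]
        | m j => exact absurd hab not_false
  have h1 := Nat.card_le_card_of_surjective f hf
  rw [Nat.card_sum, Nat.card_sum, Nat.card_sum, Nat.card_sum, Nat.card_eq_fintype_card (α := Fin L),
    Nat.card_eq_fintype_card (α := Fin (L + 1)), Fintype.card_fin, Fintype.card_fin] at h1
  omega

/-! ### automorphisms -/

/-- degree one, with a neighbour of degree two -/
def Leaf {V : Type} (X : SimpleGraph V) (x : V) : Prop :=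
  ∃ y w, X.Adj x y ∧ (∀ a, X.Adj x a → a = y) ∧ ∀ a, X.Adj y a → a = x ∨ a = w

lemma Leaf.map {V : Type} {X : SimpleGraph V} (π : X ≃g X) {x : V} (h : Leaf X x) :
    Leaf X (π x) := by
  obtain ⟨y, w, h1, h2, h3⟩ := h
  refine ⟨π y, π w, π.map_rel_iff.2 h1, fun a ha => ?_, fun a ha => ?_⟩
  · obtain ⟨a', rfl⟩ := π.surjective a
    rw [h2 a' (π.map_rel_iff.1 ha)]
  · obtain ⟨a', rfl⟩ := π.surjective a
    rcases h3 a' (π.map_rel_iff.1 ha) with h | h
    · left; rw [h]
    · right; rw [h]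

lemma leaf_iff (Γ₀ : SimpleGraph V₀) (c : V₀ → ℕ) (hL : 1 ≤ L) (hc : ∀ v, 1 ≤ c v ∧ c v ≤ L)
    (x : SV V₀ L) : Leaf (gr Γ₀ c L) x ↔ ∃ i, x = .m i := by
  constructor
  · rintro ⟨y, w, h1, h2, h3⟩
    cases x with
    | v u =>
      exfalso
      have hu := hc u
      have e1 : SV.z ⟨c u, by omega⟩ = y := h2 (.z ⟨c u, by omega⟩) rfl
      subst e1
      have a1 := h3 (.l ⟨c u, by omega⟩) rfl
      have a2 := h3 (.z ⟨c u - 1, by omega⟩) (by
        show (c u + 1 = c u - 1) ∨ (c u - 1 + 1 = c u)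
        right; omega)
      rcases a1 with a1 | a1
      · cases a1
      · rcases a2 with a2 | a2
        · cases a2
        · rw [← a1] at a2
          cases a2
    | z i =>
      exfalso
      have e1 : SV.l i = y := h2 (.l i) rfl
      by_cases hi : (i : ℕ) = 0
      · have e2 : SV.z ⟨1, by omega⟩ = y := h2 (.z ⟨1, by omega⟩) (by
          show (i : ℕ) + 1 = 1 ∨ _
          left; omega)
        rw [← e1] at e2
        cases e2
      · have e2 : SV.z ⟨(i : ℕ) - 1, by omega⟩ = y := h2 (.z ⟨(i : ℕ) - 1, by omega⟩) (by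
          show _ ∨ (i : ℕ) - 1 + 1 = i
          right; omega)
        rw [← e1] at e2
        cases e2
    | l i =>
      exfalso
      have e1 : SV.z i = y := h2 (.z i) rfl
      have e2 : SV.m i = y := h2 (.m i) rfl
      rw [← e1] at e2
      cases e2
    | m i => exact ⟨i, rfl⟩
  · rintro ⟨i, rfl⟩
    refine ⟨.l i, .z i, rfl, fun a ha => ?_, fun a ha => ?_⟩
    · cases a with
      | v u => exact absurd ha not_false
      | z j => exact absurd ha not_false
      | l j => rw [show j = i from ha]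
      | m j => exact absurd ha not_false
    · cases a with
      | v u => exact absurd ha not_false
      | z j => right; rw [show j = i from ha]
      | l j => exact absurd ha not_false
      | m j => left; rw [show i = j from ha]

/-- an automorphism permutes the three rows with the same index -/
lemma rows (Γ₀ : SimpleGraph V₀) (c : V₀ → ℕ) (hL : 1 ≤ L) (hc : ∀ v, 1 ≤ c v ∧ c v ≤ L)
    (π : gr Γ₀ c L ≃g gr Γ₀ c L) (i : Fin (L + 1)) :
    ∃ j, π (.m i) = .m j ∧ π (.l i) = .l j ∧ π (.z i) = .z j := by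
  obtain ⟨j, hj⟩ := (leaf_iff Γ₀ c hL hc _).1 (((leaf_iff Γ₀ c hL hc _).2 ⟨i, rfl⟩).map π)
  refine ⟨j, hj, ?_⟩
  have h1 : (gr Γ₀ c L).Adj (π (.m i)) (π (.l i)) := π.map_rel_iff.2 rfl
  rw [hj] at h1
  have h2 : π (.l i) = .l j := by
    obtain ⟨a, ha⟩ : ∃ a, a = π (.l i) := ⟨_, rfl⟩
    rw [← ha] at h1 ⊢
    cases a with
    | v u => exact absurd h1 not_false
    | z k => exact absurd h1 not_false
    | l k => rw [show k = j from h1]
    | m k => exact absurd h1 not_false
  refine ⟨h2, ?_⟩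
  have h3 : (gr Γ₀ c L).Adj (π (.l i)) (π (.z i)) := π.map_rel_iff.2 rfl
  have h4 : π (.z i) ≠ .m j := by
    rw [← hj]
    intro e
    have := π.injective e
    cases this
  rw [h2] at h3
  obtain ⟨a, ha⟩ : ∃ a, a = π (.z i) := ⟨_, rfl⟩
  rw [← ha] at h3 h4 ⊢
  cases a with
  | v u => exact absurd h3 not_false
  | z k => rw [show k = j from h3]
  | l k => exact absurd h3 not_false
  | m k => exact absurd (show SV.m k = SV.m j by rw [show j = k from h3]) h4

lemma fix_zero (Γ₀ : SimpleGraph V₀) (c : V₀ → ℕ) (hL : 1 ≤ L) (hc : ∀ v, 1 ≤ c v ∧ c v ≤ L)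
    (hcL : ∃ v, c v = L) (π : gr Γ₀ c L ≃g gr Γ₀ c L) : π (.z 0) = .z 0 := by
  obtain ⟨j, _, _, hj⟩ := rows Γ₀ c hL hc π 0
  by_cases hj0 : (j : ℕ) = 0
  · rw [hj, show j = 0 from Fin.ext hj0]
  exfalso
  -- the neighbours of `z 0`
  have hn : ∀ a, (gr Γ₀ c L).Adj (.z 0) a → a = .z ⟨1, by omega⟩ ∨ a = .l 0 := by
    intro a ha
    cases a with
    | v u =>
      have h1 : c u = ((0 : Fin (L + 1)) : ℕ) := ha
      have := (hc u).1
      rw [h1] at this
      simp at this
    | z k =>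
      left
      have h1 : ((0 : Fin (L + 1)) : ℕ) + 1 = k ∨ (k : ℕ) + 1 = ((0 : Fin (L + 1)) : ℕ) := ha
      have h2 : (k : ℕ) = 1 := by
        rcases h1 with h1 | h1
        · simpa using h1.symm
        · simp at h1
      rw [show k = ⟨1, by omega⟩ from Fin.ext h2]
    | l k => right; rw [show (0 : Fin (L + 1)) = k from ha]
    | m k => exact absurd ha not_false
  -- pull back
  have hp : ∀ a, (gr Γ₀ c L).Adj (.z j) a → a = π (.z ⟨1, by omega⟩) ∨ a = π (.l 0) := by
    intro a ha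
    obtain ⟨a', rfl⟩ := π.surjective a
    rw [← hj] at ha
    rcases hn a' (π.map_rel_iff.1 ha) with h | h
    · left; rw [h]
    · right; rw [h]
  -- three distinct neighbours of `z j`
  have h3 : ∃ a, (gr Γ₀ c L).Adj (.z j) a ∧ a ≠ .l j ∧ a ≠ .z ⟨(j : ℕ) - 1, by omega⟩ := by
    by_cases hjL : (j : ℕ) = L
    · obtain ⟨v, hv⟩ := hcL
      refine ⟨.v v, ?_, ?_, ?_⟩
      · show c v = j
        omega
      · intro e; cases e
      · intro e; cases e
    · refine ⟨.z ⟨(j : ℕ) + 1, by omega⟩, ?_, ?_, ?_⟩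
      · show (j : ℕ) + 1 = (j : ℕ) + 1 ∨ _
        left; rfl
      · intro e; cases e
      · intro e
        injection e with e
        have := congrArg Fin.val e
        simp at this
        omega
  obtain ⟨a, ha, ha1, ha2⟩ := h3
  have hb : (gr Γ₀ c L).Adj (.z j) (.l j) := rfl
  have hc' : (gr Γ₀ c L).Adj (.z j) (.z ⟨(j : ℕ) - 1, by omega⟩) := by
    show (j : ℕ) + 1 = (j : ℕ) - 1 ∨ (j : ℕ) - 1 + 1 = j
    right; omega
  have hne : (SV.l j : SV V₀ L) ≠ .z ⟨(j : ℕ) - 1, by omega⟩ := by intro e; cases e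
  rcases hp _ ha with e1 | e1 <;> rcases hp _ hb with e2 | e2 <;> rcases hp _ hc' with e3 | e3
  · exact ha1 (e1.trans e2.symm)
  · exact ha1 (e1.trans e2.symm)
  · exact ha2 (e1.trans e3.symm)
  · exact hne (e2.trans e3.symm)
  · exact hne (e2.trans e3.symm)
  · exact ha2 (e1.trans e3.symm)
  · exact ha1 (e1.trans e2.symm)
  · exact ha1 (e1.trans e2.symm)

lemma fix_z (Γ₀ : SimpleGraph V₀) (c : V₀ → ℕ) (hL : 1 ≤ L) (hc : ∀ v, 1 ≤ c v ∧ c v ≤ L)
    (hcL : ∃ v, c v = L) (π : gr Γ₀ c L ≃g gr Γ₀ c L) :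
    ∀ k : ℕ, ∀ hk : k < L + 1, π (.z ⟨k, hk⟩) = .z ⟨k, hk⟩ := by
  intro k
  induction k using Nat.strong_induction_on with
  | _ k ih =>
    intro hk
    match k, ih, hk with
    | 0, _, _ => exact fix_zero Γ₀ c hL hc hcL π
    | (k + 1), ih, hk =>
      obtain ⟨j, _, _, hj⟩ := rows Γ₀ c hL hc π ⟨k + 1, hk⟩
      have h1 : (gr Γ₀ c L).Adj (π (.z ⟨k, by omega⟩)) (π (.z ⟨k + 1, hk⟩)) := by
        apply π.map_rel_iff.2
        show k + 1 = k + 1 ∨ _
        left; rfl
      rw [ih k (by omega) (by omega), hj] at h1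
      have h2 : k + 1 = (j : ℕ) ∨ (j : ℕ) + 1 = k := h1
      rcases h2 with h2 | h2
      · rw [hj, show j = ⟨k + 1, hk⟩ from Fin.ext h2.symm]
      · exfalso
        have h3 := ih j (by omega) j.2
        have h4 : π (.z ⟨k + 1, hk⟩) = π (.z j) := by
          rw [hj]
          exact h3.symm
        have h5 := π.injective h4
        injection h5 with h5
        have := congrArg Fin.val h5
        simp at this
        omega

lemma fix_all (Γ₀ : SimpleGraph V₀) (c : V₀ → ℕ) (hL : 1 ≤ L) (hc : ∀ v, 1 ≤ c v ∧ c v ≤ L)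
    (hcL : ∃ v, c v = L) (π : gr Γ₀ c L ≃g gr Γ₀ c L) (i : Fin (L + 1)) :
    π (.z i) = .z i ∧ π (.l i) = .l i ∧ π (.m i) = .m i := by
  have h1 : π (.z i) = .z i := fix_z Γ₀ c hL hc hcL π i i.2
  obtain ⟨j, hj1, hj2, hj3⟩ := rows Γ₀ c hL hc π i
  rw [h1] at hj3
  injection hj3 with hj3
  subst hj3
  exact ⟨h1, hj2, hj1⟩

lemma map_v (Γ₀ : SimpleGraph V₀) (c : V₀ → ℕ) (hL : 1 ≤ L) (hc : ∀ v, 1 ≤ c v ∧ c v ≤ L)
    (hcL : ∃ v, c v = L) (π : gr Γ₀ c L ≃g gr Γ₀ c L) (u : V₀) : ∃ u', π (.v u) = .v u' := by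
  obtain ⟨a, ha⟩ : ∃ a, a = π (.v u) := ⟨_, rfl⟩
  rw [← ha]
  cases a with
  | v x => exact ⟨x, rfl⟩
  | z i =>
    exfalso
    rw [← (fix_all Γ₀ c hL hc hcL π i).1] at ha
    have := π.injective ha
    cases this
  | l i =>
    exfalso
    rw [← (fix_all Γ₀ c hL hc hcL π i).2.1] at ha
    have := π.injective ha
    cases this
  | m i =>
    exfalso
    rw [← (fix_all Γ₀ c hL hc hcL π i).2.2] at ha
    have := π.injective ha
    cases this

/-- extension of a permutation of `V₀` by the identity -/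
def ext (σ : Perm V₀) : SV V₀ L → SV V₀ L
  | .v x => .v (σ x)
  | .z i => .z i
  | .l i => .l i
  | .m i => .m i

lemma ext_mul (σ τ : Perm V₀) (a : SV V₀ L) : ext (σ * τ) a = ext σ (ext τ a) := by
  cases a <;> rfl

lemma ext_one (a : SV V₀ L) : ext (1 : Perm V₀) a = a := by
  cases a <;> rfl

def extEquiv (σ : Perm V₀) : Perm (SV V₀ L) where
  toFun := ext σ
  invFun := ext σ⁻¹
  left_inv a := by rw [← ext_mul, inv_mul_cancel, ext_one]
  right_inv a := by rw [← ext_mul, mul_inv_cancel, ext_one]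

lemma ext_adj (Γ₀ : SimpleGraph V₀) (c : V₀ → ℕ) (σ : Perm V₀) (h1 : ∀ v, c (σ v) = c v)
    (h2 : ∀ u v, Γ₀.Adj (σ u) (σ v) ↔ Γ₀.Adj u v) (a b : SV V₀ L) :
    adj Γ₀ c (ext σ a) (ext σ b) ↔ adj Γ₀ c a b := by
  cases a <;> cases b <;> simp only [ext, adj, h1, h2]

/-- colour preserving automorphisms extend -/
def extHom (Γ₀ : SimpleGraph V₀) (c : V₀ → ℕ) (L : ℕ) : colAut Γ₀ c →* (gr Γ₀ c L ≃g gr Γ₀ c L) where
  toFun σ := ⟨extEquiv σ.1, fun {a b} => ext_adj Γ₀ c σ.1 σ.2.1 σ.2.2 a b⟩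
  map_one' := by
    apply RelIso.ext
    intro a
    exact ext_one a
  map_mul' σ τ := by
    apply RelIso.ext
    intro a
    exact ext_mul σ.1 τ.1 a

lemma extHom_apply (Γ₀ : SimpleGraph V₀) (c : V₀ → ℕ) (σ : colAut Γ₀ c) (a : SV V₀ L) :
    extHom Γ₀ c L σ a = ext σ.1 a := rfl

lemma extHom_inj (Γ₀ : SimpleGraph V₀) (c : V₀ → ℕ) : Function.Injective (extHom Γ₀ c L) := by
  intro σ τ h
  apply Subtype.ext
  apply Equiv.ext
  intro u
  have h1 : extHom Γ₀ c L σ (.v u) = extHom Γ₀ c L τ (.v u) := by rw [h]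
  rw [extHom_apply, extHom_apply] at h1
  injection h1

lemma extHom_surj (Γ₀ : SimpleGraph V₀) (c : V₀ → ℕ) (hL : 1 ≤ L) (hc : ∀ v, 1 ≤ c v ∧ c v ≤ L)
    (hcL : ∃ v, c v = L) : Function.Surjective (extHom Γ₀ c L) := by
  intro π
  choose f hf using map_v Γ₀ c hL hc hcL π
  choose g hg using map_v Γ₀ c hL hc hcL π.symm
  have hfg : ∀ u, f (g u) = u := by
    intro u
    have h1 : π (π.symm (.v u)) = .v u := π.apply_symm_apply _
    rw [hg, hf] at h1
    injection h1
  have hgf : ∀ u, g (f u) = u := by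
    intro u
    have h1 : π.symm (π (.v u)) = .v u := π.symm_apply_apply _
    rw [hf, hg] at h1
    injection h1
  let σ : Perm V₀ := ⟨f, g, hgf, hfg⟩
  have hσ : ∀ u, σ u = f u := fun u => rfl
  have hσc : ∀ v, c (σ v) = c v := by
    intro v
    have hv := hc v
    have h1 : (gr Γ₀ c L).Adj (π (.v v)) (π (.z ⟨c v, by omega⟩)) := π.map_rel_iff.2 rfl
    rw [hf, (fix_all Γ₀ c hL hc hcL π _).1] at h1
    exact h1
  have hσa : ∀ u v, Γ₀.Adj (σ u) (σ v) ↔ Γ₀.Adj u v := by
    intro u v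
    have h1 := π.map_rel_iff (a := SV.v u) (b := SV.v v)
    rw [hf, hf] at h1
    exact h1
  refine ⟨⟨σ, hσc, hσa⟩, ?_⟩
  apply RelIso.ext
  intro a
  rw [extHom_apply]
  cases a with
  | v u => exact (hf u).symm
  | z i => exact (fix_all Γ₀ c hL hc hcL π i).1.symm
  | l i => exact (fix_all Γ₀ c hL hc hcL π i).2.1.symm
  | m i => exact (fix_all Γ₀ c hL hc hcL π i).2.2.symm

end Skelaux

theorem stmtSkel : StmtSkel := by
  intro V₀ _ Γ₀ L c hL hc hcL
  refine ⟨Skelaux.SV V₀ L, inferInstance, Skelaux.gr Γ₀ c L, ?_, Skelaux.edges_le Γ₀ c hc⟩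
  exact ⟨(MulEquiv.ofBijective (Skelaux.extHom Γ₀ c L)
    ⟨Skelaux.extHom_inj Γ₀ c, Skelaux.extHom_surj Γ₀ c hL hc hcL⟩).symm⟩

end Pool.Agent.Lib.MP_585e73_co
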