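import Pool.Agent.Lib.MP_585e73_co.Defs

/-!
# MP_585e73_co: all intermediate statements, with complete proofs in the docstrings

Notation: `n = |G|`. For a subgroup `C` we write `G/C` for the set of left cosets `gC`
(Mathlib: `G ⧸ C`, `(g : G ⧸ C)`), on which `G` acts by left multiplication.
-/

set_option autoImplicit false

namespace Pool.Agent.Lib.MP_585e73_co

open Equiv

/-! ## I. From structures to graphs -/

/-- **Skeleton.** A vertex-coloured graph `(Γ₀, c)` (colours `1, …, L`, colour `L` used) can be turned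
into a graph `X` whose automorphism group is the group of colour preserving automorphisms.

Proof. `V = V₀ ⊕ {z_0, …, z_L} ⊕ {l_0, …, l_L} ⊕ {l'_0, …, l'_L}`; edges: those of `Γ₀`; `v - z_{c v}`
(`v ∈ V₀`); `z_i - z_{i+1}` (`i < L`); `z_i - l_i`; `l_i - l'_i`. Number of edges
`|E₀| + |V₀| + L + 2 (L + 1)`. Degrees: `l'_i` has degree 1 (neighbour `l_i`), `l_i` has degree 2, `z_0`
has degree 2 (`z_1` and `l_0`; `L ≥ 1`), `z_i` has degree `≥ 3` for `i ≥ 1` (for `i < L`: `z_{i-1}`,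
`z_{i+1}`, `l_i`; for `i = L`: `z_{L-1}`, `l_L` and a vertex of colour `L`); a vertex `v` of `V₀` is
adjacent to `z_{c v}` and to its neighbours in `Γ₀`.
Call a vertex *leaf-type* if it has degree 1 and its neighbour has degree 2: these are exactly the
`l'_i` (a vertex `v ∈ V₀` of degree 1 has the neighbour `z_{c v}`, of degree `≥ 3`). The neighbours of
leaf-type vertices are exactly the `l_i`; the neighbours of the `l_i` which are not leaf-type are exactly
the `z_i`. Hence every automorphism `π` of `X` preserves the three sets `{l'_i}`, `{l_i}`, `{z_i}`, and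
so `V₀`. `z_0` is the only `z` of degree 2, so `π z_0 = z_0`, and inductively `π z_{i+1} = z_{i+1}`,
because `z_{i+1}` is the only `z` adjacent to `z_i` other than `z_{i-1}`; then `π l_i = l_i` (the only
`l` adjacent to `z_i`) and `π l'_i = l'_i`. So `π` restricts to a permutation of `V₀` preserving
adjacency and colours (`c v = i` iff `v` adjacent to `z_i`). Conversely every element of `colAut Γ₀ c`,
extended by the identity, is an automorphism of `X`. -/
def StmtSkel : Prop :=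
  ∀ (V₀ : Type) [Finite V₀] (Γ₀ : SimpleGraph V₀) (L : ℕ) (c : V₀ → ℕ), 1 ≤ L →
    (∀ v, 1 ≤ c v ∧ c v ≤ L) → (∃ v, c v = L) →
    ∃ (V : Type) (_ : Finite V) (X : SimpleGraph V),
      Nonempty ((X ≃g X) ≃* colAut Γ₀ c) ∧
        Nat.card X.edgeSet ≤ Nat.card Γ₀.edgeSet + Nat.card V₀ + 3 * L + 2

/-- **From structures to coloured graphs.**

Proof. Let `X` be a structure on `G` enforcing `IsLeft` at cost `≤ c`. Let `E = X.arcs` and
`V₀ = (G ⊕ W) ⊕ E ⊕ E`: for an arc `e = (j, u, v)` there are two vertices `a_e`, `b_e` and three edges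
`u - a_e`, `a_e - b_e`, `b_e - v`. Colours (`L = |K| + |J| + 2`, fix bijections of `K`, `J` with `Fin`):
`w ∈ W` gets `1 + κ w` (values `1..|K|`), `a_(j,u,v)` gets `|K| + 1 + j`, `b_e` gets `|K| + |J| + 1`,
`g ∈ G` gets `L = |K| + |J| + 2`. So edges `≤ 3 |E|`, vertices `n + |W| + 2 |E|`, and
`3 |E| + n + |W| + 2 |E| + 3 (|K| + |J| + 2) + 2 ≤ 5 c + n + 8 ≤ 10 c + 40 n`.
A colour preserving automorphism `π` of the graph induces permutations `σ` of `G`, `τ` of `W` (with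
`κ ∘ τ = κ`), and of the set of the `a_e` with the same `j`, and of the set of the `b_e`. The only
`b`-neighbour of `a_e` is `b_e` and the only neighbour of `a_e` in `G ⊕ W` is `u`, the only neighbour
of `b_e` in `G ⊕ W` is `v`. So if `π a_e = a_{e'}` then `π b_e = b_{e'}` and `e' = (j, σ⊕τ u, σ⊕τ v)`:
this gives `R j u v → R j (πu) (πv)`, and the converse by applying it to `π⁻¹`; so `(σ, τ)` is an
automorphism of `X` and `π` is determined by `(σ, τ)`. Conversely every automorphism `(σ, τ)` of `X`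
gives a colour preserving automorphism of the graph. By the definition of `Enf`, for every `g` there is
a `τ` with `(left mult. by g, τ)` an automorphism, it is unique (the quotient of two of them is of the
form `(1, τ)`, so `τ = 1`), and every automorphism is of this form, since `σ` is a left
multiplication. So `colAut Γ₀ col ≃* G`. -/
def StmtColour : Prop :=
  ∀ (G : Type) [Group G] [Finite G] (c : ℕ), Enf G G IsLeft c →
    ∃ (V₀ : Type) (_ : Finite V₀) (Γ₀ : SimpleGraph V₀) (L : ℕ) (col : V₀ → ℕ), 1 ≤ L ∧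
      (∀ v, 1 ≤ col v ∧ col v ≤ L) ∧ (∃ v, col v = L) ∧ Nonempty (colAut Γ₀ col ≃* G) ∧
      Nat.card Γ₀.edgeSet + Nat.card V₀ + 3 * L + 2 ≤ 10 * c + 40 * Nat.card G

/-! ## II. The enforcement calculus -/

/-- **Costs add.** Proof: `W = W₁ ⊕ W₂`, `K = K₁ ⊕ K₂`, `J = J₁ ⊕ J₂`, `κ = Sum.map κ₁ κ₂`, and
`R (inl j) u v` iff `u`, `v` come from `u₁ v₁ : Ω ⊕ W₁` (under `Sum.map id Sum.inl`) with
`R₁ j u₁ v₁`; the same for `inr j`. The arcs are in bijection with `arcs₁ ⊕ arcs₂`, so the costs add.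
If `(σ, τ)` is an automorphism then `τ` preserves the colours, so it is of the form
`Equiv.sumCongr τ₁ τ₂`, and `(σ, τ₁)`, `(σ, τ₂)` are automorphisms of `X₁`, `X₂`. Conversely these give
an automorphism of the sum. -/
def StmtJoin : Prop :=
  ∀ (G : Type) [Group G] (Ω : Type) [Finite Ω] [MulAction G Ω] (Q₁ Q₂ : Perm Ω → Prop) (c₁ c₂ : ℕ),
    Enf G Ω Q₁ c₁ → Enf G Ω Q₂ c₂ → Enf G Ω (fun σ => Q₁ σ ∧ Q₂ σ) (c₁ + c₂)

/-- **An equivariant map.** Proof: `W = K = Empty`, `J = Unit`, `R () u v` iff `∃ x, u = inl x` and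
`v = inl (f x)`; the arcs are in bijection with `Ω`. -/
def StmtRel : Prop :=
  ∀ (G : Type) [Group G] (Ω : Type) [Finite Ω] [MulAction G Ω] (f : Ω → Ω),
    (∀ (g : G) (x : Ω), f (g • x) = g • f x) →
    Enf G Ω (fun σ => ∀ x, σ (f x) = f (σ x)) (Nat.card Ω + 1)

/-- **Pull back along an equivariant surjection.** Proof: `W = Ω' ⊕ W'`, `K = Unit ⊕ K'`,
`J = Unit ⊕ J'`; `κ = Sum.map (fun _ => ()) κ'`; `R (inl ())` relates `inl x` (`x ∈ Ω`) with
`inr (inl (q x))` (`|Ω|` arcs); `R (inr j)` is `R' j` on `Ω' ⊕ W'` (embedded by `Sum.inr`). An automorphism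
`(σ, τ)` has `τ = sumCongr σ' τ'` (colours), with `σ' (q x) = q (σ x)` and `(σ', τ')` an automorphism of
`X'`. If `σ = 1` then `σ' = 1` as `q` is surjective, so `τ' = 1`. Invariance: for `g` take
`σ' = (action of g)` and `τ'` from `X'`. -/
def StmtPull : Prop :=
  ∀ (G : Type) [Group G] (Ω Ω' : Type) [Finite Ω] [Finite Ω'] [MulAction G Ω] [MulAction G Ω']
    (q : Ω → Ω'), Function.Surjective q → (∀ (g : G) (x : Ω), q (g • x) = g • q x) →
    ∀ (Q' : Perm Ω' → Prop) (c' : ℕ), Enf G Ω' Q' c' →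
      Enf G Ω (fun σ => ∃ σ' : Perm Ω', (∀ x, σ' (q x) = q (σ x)) ∧ Q' σ')
        (c' + Nat.card Ω' + Nat.card Ω + 2)

/-- **Induction from a subgroup.** Proof. Let `X` be a structure on `H` enforcing `IsLeft` at cost
`≤ c`. Choose representatives `s : G/H → G` (`Quotient.out`), so every `g` is `s (gH) * h` with `h ∈ H`.
For a coset `q` let `lift_q : H ⊕ W → G ⊕ ((G/H × W) ⊕ G/H)` be `inl h ↦ inl (s q * h)`,
`inr w ↦ inr (inl (q, w))`. New structure on `G`: `W' = (G/H × W) ⊕ G/H`, `K' = K ⊕ Unit`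
(`κ' (inl (q,w)) = inl (κ w)`, `κ' (inr q) = inr ()`), `J' = J ⊕ Bool`: `R' (inl j) u v` iff
`∃ q u₀ v₀, u = lift_q u₀ ∧ v = lift_q v₀ ∧ R j u₀ v₀`; `R' (inr true)` relates `inl g` to
`inr (inr (gH))`; `R' (inr false)` relates `inr (inl (q,w))` to `inr (inr q)`. Cost
`≤ m |W| + m + |K| + 1 + |J| + 2 + m |arcs| + n + m |W| ≤ m (2 c + 5) + n`, `m = |G : H|`.
Invariance: `g` acts by `(q, w) ↦ (g q, ρ(h) w)`, `q ↦ g q`, where `h = s(gq)⁻¹ g s(q) ∈ H` and `ρ(h)` is
such that (left mult. by `h`, `ρ h`) is an automorphism of `X`; note `g • lift_q u₀ = lift_{gq} (h • u₀)`.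
Property: let `(σ, τ)` be an automorphism; `τ` induces `π ∈ Perm (G/H)` with `σ(g) H = π (gH)` and
`τ (q, w) = (π q, τ_q w)`; define `σ_q ∈ Perm H` by `σ (s q * h) = s (π q) * σ_q h`. Then `(σ_q, τ_q)` is an
automorphism of `X` (injective, hence bijective by finiteness), so `σ_q h = a_q * h` and for
`g = s q * h₀`, `h ∈ H`: `σ (g h) = s (π q) a_q h₀ h = σ (g) h`. If `σ = 1` then `π = 1`, `σ_q = 1`, so
`τ_q = 1` for all `q`. -/
def StmtInd : Prop :=
  ∀ (G : Type) [Group G] [Finite G] (H : Subgroup G) (c : ℕ), Enf H H IsLeft c →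
    Enf G G (fun σ => ∀ g : G, ∀ h ∈ H, σ (g * h) = σ g * h)
      (H.index * (2 * c + 5) + Nat.card G)

/-- The intersection of the first `m` members of a finite sequence of subgroups. -/
def pref {G : Type} [Group G] {k : ℕ} (C : Fin k → Subgroup G) (m : ℕ) : Subgroup G :=
  ⨅ (i : Fin k) (_ : (i : ℕ) < m), C i

/-- The prefix intersections decrease strictly from `⊤` to `⊥`. -/
def ChainOK {G : Type} [Group G] {k : ℕ} (C : Fin k → Subgroup G) : Prop :=
  pref C k = ⊥ ∧ ∀ i : Fin k, ¬ pref C i ≤ C i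

/-- **Cardinalities along the chain.** Proof: `U m = pref C m`, `U (m+1) = U m ⊓ C m < U m` for `m < k`, so
`2 |G/U m| ≤ |G/U (m+1)|`, `|G/U k| = n`. Hence (downward induction) `|G/U m| ≤ n / 2^(k-m)`, the sums are
`≤ 2n`, `≤ n`, and `2^k ≤ n`, so `k ≤ n`. Finally `U (i+1) ≤ C i`. -/
def StmtChainCard : Prop :=
  ∀ (G : Type) [Group G] [Finite G] (k : ℕ) (C : Fin k → Subgroup G), ChainOK C →
    (∑ m ∈ Finset.range k, (pref C m).index) ≤ Nat.card G ∧
    (∑ m ∈ Finset.range k, (pref C (m + 1)).index) ≤ 2 * Nat.card G ∧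
    (∑ i : Fin k, (C i).index) ≤ 2 * Nat.card G ∧ k ≤ Nat.card G

/-- **Irredundant subfamilies.** Proof: choose a finite set `𝒯` of indices of minimal cardinality with
`⨅ i ∈ 𝒯, T i = ⊥`, and enumerate it by `f : Fin k → I` (injective, `k = |𝒯|`). If
`pref C i ≤ C i` (`C = T ∘ f`) then `⨅ l ≠ i, C l ≤ pref C i ≤ C i`, so `⨅ l ≠ i, C l = ⊥`: against
minimality. (If `𝒯 = ∅` then `⊤ = ⊥` and `k = 0`.) -/
def StmtIrred : Prop :=
  ∀ (G : Type) [Group G] (I : Type) [Finite I] (T : I → Subgroup G), (⨅ i, T i) = ⊥ →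
    ∃ (k : ℕ) (f : Fin k → I), ChainOK fun i => T (f i)

/-- **Prefix chain.** A structure on the disjoint union of the `G/C i` can be transported to `G` at cost
`12 n` if the prefix intersections of the `C i` decrease strictly to `1`.

Proof. Let `U m = pref C m`; `U 0 = ⊤`, `U k = ⊥`, `U (m+1) = U m ⊓ C m`; the sums of indices are
bounded in `StmtChainCard`. Let `Ω' = Σ i, G/C i` and let `X'` be the given structure. New
structure on `G`: `W = (Ω' ⊕ W') ⊕ (Σ m : Fin k, G/U m)`, colours: `Ω'` by `i` (`k` colours), `W'` by `κ'`,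
the last part by `m` (`k` colours); relations: those of `X'`; `link₁` : the map `G/U(m+1) → G/U m` for
`m < k`, where the class of `g` in `G/U k` (`U k = ⊥`) means the base element `g` itself; `link₂` :
`G/U(m+1) → G/C m` (`m < k`), again with base elements for `m + 1 = k`. Cost
`≤ c' + 2 n + n + 2 k + 2 + 2 n + 2 n ≤ c' + 7 n + 2 k + 2 ≤ c' + 12 n`.
Let `(σ, τ)` be an automorphism. By `link₁` (descending from the base) `τ` on `G/U m` sends `g U m` to
`σ(g) U m`, and by `link₂`, `τ ⟨i, g C i⟩ = ⟨i, σ(g) C i⟩`. So the restriction `σ'` of `τ` to `Ω'` (it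
preserves `Ω'` because of the colours) is as required, and `Q' σ'` holds because `(σ', τ|W')` is an
automorphism of `X'`. If `σ = 1` then `σ' = 1`, so `τ|W' = 1`, and `τ = 1` on the `G/U m`.
Invariance is clear. (For `k = 0` the group is trivial.) -/
def StmtChain : Prop :=
  ∀ (G : Type) [Group G] [Finite G] (k : ℕ) (C : Fin k → Subgroup G), ChainOK C →
    ∀ (Q' : Perm (Σ i : Fin k, G ⧸ C i) → Prop) (c' : ℕ), Enf G (Σ i : Fin k, G ⧸ C i) Q' c' →
      Enf G G (fun σ => ∃ σ' : Perm (Σ i : Fin k, G ⧸ C i),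
          (∀ (i : Fin k) (g : G), σ' ⟨i, (g : G ⧸ C i)⟩ = ⟨i, (σ g : G ⧸ C i)⟩) ∧ Q' σ')
        (c' + 12 * Nat.card G)

/-- **Reaching a conjugate subgroup by partial sums.**

Proof. Let `Ω = Σ i, G/C i`, `Y m = D m ⊓ C m` (`m < k`). Structure: `W = (Σ m : Fin (k+1), G/D m) ⊕
(Σ m : Fin k, G/Y m)`, coloured by the index (`2k + 1` colours); four relations: the maps
`G/Y m → G/D m`, `G/Y m → G/D (m+1)`, `G/Y m → G/C m` (base), and the map `G/C i₀ (base) → G/D k`,
`g C ↦ g s D k` (well defined because `D k = s⁻¹ (C i₀) s`). Cost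
`≤ (k+1) q + k q + (2k+1) + 4 + 3 k q + q ≤ 20 k q` (`k ≥ 1` as `i₀` exists, `q ≥ 1`).
Let `(σ, τ)` be an automorphism, and `g, f, g'` as in the statement. By induction on `m`:
`τ (g s D m) = f D m`. For `m = 0`, `D 0 = ⊤` and `G/⊤` is a point. Step: `τ (g s Y m) = x Y m` with
`x D m = f D m` and (by the third map) `x C m = f C m`, so `f⁻¹ x ∈ D m ⊓ C m = Y m`, and so
`τ (g s D (m+1)) = f D (m+1)`. By the fourth relation `τ (g s D k)` is the image of
`σ ⟨i₀, g C⟩ = ⟨i₀, g' C⟩`, i.e. `g' s D k`. So `(g' s)⁻¹ f ∈ D k`.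
If `σ = 1` then by induction on `m` (from `D 0`), `τ` is the identity on `G/D m`, and on `G/Y m` because
an element of `G/Y m` is determined by its images in `G/D m` and `G/C m`. -/
def StmtReach : Prop :=
  ∀ (G : Type) [Group G] [Finite G] (k : ℕ) (C : Fin k → Subgroup G) (i₀ : Fin k) (s : G)
    (D : ℕ → Subgroup G) (q : ℕ), D 0 = ⊤ → (∀ m : Fin k, D m ⊓ C m ≤ D (m + 1)) →
    (∀ x, x ∈ D k ↔ s * x * s⁻¹ ∈ C i₀) → (∀ m ≤ k, (D m).index ≤ q) →
    (∀ m : Fin k, (D m ⊓ C m).index ≤ q) →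
    Enf G (Σ i : Fin k, G ⧸ C i)
      (fun σ => ∀ g f g' : G,
        (∀ i : Fin k, σ ⟨i, ((g * s : G) : G ⧸ C i)⟩ = ⟨i, (f : G ⧸ C i)⟩) →
        σ ⟨i₀, (g : G ⧸ C i₀)⟩ = ⟨i₀, (g' : G ⧸ C i₀)⟩ → (g' * s)⁻¹ * f ∈ D k)
      (20 * k * q)

/-! ## III. Elementary abelian normal subgroups and `p`-groups -/

/-- **Hyperplanes of an elementary abelian normal subgroup.**

Proof. `B` is an `𝔽_p`-vector space of dimension `k` (write it additively); choose an isomorphism
`φ : B ≃ (Fin k → ZMod p)`. For `c : Fin k → ZMod p` let `ν_c (b) = ∑ i, c i * φ(b) i` and let `ker ν_c` be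
the corresponding subgroup of `G` (contained in `B`, of index `1` or `p` in `B`).
`C i = ker ν_{e_i}`, i.e. `φ(b) i = 0`. Then `pref C m` (`m ≥ 1`) is `{b | φ(b) i = 0 for i < m}`, of order
`p^(k-m)`, and `pref C 0 = ⊤` (the whole group `G`) is not contained in `C 0 < B`. So `ChainOK C`.
Given `s`, `i`: the functional `b ↦ ν_{e_i} (s b s⁻¹)` on `B` is an additive map `B → ZMod p`, so it is
`ν_c` for some `c`. Let `c^(m)` be the truncation of `c` to the first `m` coordinates,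
`D 0 = ⊤`, `D m = ker ν_{c^(m)}` (a subgroup of `B`) for `m ≥ 1`. `D m ⊓ C m ≤ D (m+1)` since
`ν_{c^(m+1)} = ν_{c^(m)} + c_m ν_{e_m}` (for `m = 0`: `C 0 ≤ ker (c_0 ν_{e_0})`). `c^(k) = c`, and
`x ∈ D k` iff `x ∈ B` and `ν_c x = 0` iff `s x s⁻¹ ∈ B` and `ν_{e_i}(s x s⁻¹) = 0` (`k ≥ 1`). Indices:
`ker ν` has index `≤ p |G : B|`, the intersection of two of them index `≤ p² |G : B|`. -/
def StmtHyper : Prop :=
  ∀ (p : ℕ) [Fact p.Prime] (G : Type) [Group G] [Finite G] (B : Subgroup G) [B.Normal] (k : ℕ),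
    1 ≤ k → (∀ a ∈ B, ∀ b ∈ B, a * b = b * a) → (∀ b ∈ B, b ^ p = 1) → Nat.card B = p ^ k →
    ∃ C : Fin k → Subgroup G, ChainOK C ∧ ∀ (s : G) (i : Fin k), ∃ D : ℕ → Subgroup G,
      D 0 = ⊤ ∧ (∀ m : Fin k, D m ⊓ C m ≤ D (m + 1)) ∧ (∀ x, x ∈ D k ↔ s * x * s⁻¹ ∈ C i) ∧
      (∀ m ≤ k, (D m).index ≤ p ^ 2 * B.index) ∧
      (∀ m : Fin k, (D m ⊓ C m).index ≤ p ^ 2 * B.index)

/-- **All generators at once, from a large elementary abelian normal subgroup.**

Proof. Take `C` from `StmtHyper`. For all `j : Fin d`, `i : Fin k` apply `StmtReach` with `s = s j`,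
`i₀ = i`, `q = p² |G : B|`, join the `d k` structures (`StmtJoin`, induction; cost
`d k · 20 k p² |G : B|`) and transport to `G` with `StmtChain` (`+ 12 n`). Let `σ` be as enforced, with
`σ'` on `Σ i, G/C i`. Given `j`, `g`: put `s = s j`, `f = σ (g s)`, `g' = σ g`. The hypotheses of the
reaching property hold, so `(σ(g) s)⁻¹ σ(g s) ∈ D^{(j,i)} k = s⁻¹ (C i) s` for every `i`, and
`⋂ i, s⁻¹ (C i) s = 1` since `⋂ C i = pref C k = 1`. -/
def StmtElem : Prop :=
  ∀ (p : ℕ) [Fact p.Prime] (G : Type) [Group G] [Finite G] (B : Subgroup G) [B.Normal] (k : ℕ),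
    1 ≤ k → (∀ a ∈ B, ∀ b ∈ B, a * b = b * a) → (∀ b ∈ B, b ^ p = 1) → Nat.card B = p ^ k →
    ∀ (d : ℕ) (s : Fin d → G),
      Enf G G (fun σ => ∀ (j : Fin d) (g : G), σ (g * s j) = σ g * s j)
        (12 * Nat.card G + 20 * d * k ^ 2 * p ^ 2 * B.index)

/-- **Self-centralizing abelian normal subgroup of a `p`-group.** Proof. Let `A` be a maximal element
of the set of abelian normal subgroups of `P` (finite, contains `⊥`). Suppose `C = C_P(A) ≠ A`; then
`C > A` (`A` abelian), `C` is normal, and `C/A` is a nontrivial normal subgroup of the `p`-group `P/A`, so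
it meets the centre of `P/A` nontrivially (Mathlib: class equation for the conjugation action of `P/A` on
`C/A`, e.g. `IsPGroup` fixed point lemmas): there is `x ∈ C ∖ A` with `xA ∈ Z(P/A)`. Then `⟨A, x⟩` is
abelian (`x ∈ C`) and normal (`g x g⁻¹ ∈ x A`), and larger than `A`: contradiction. -/
def StmtMaxAb : Prop :=
  ∀ (p : ℕ) [Fact p.Prime] (P : Type) [Group P] [Finite P], IsPGroup p P →
    ∃ A : Subgroup P, A.Normal ∧ (∀ a ∈ A, ∀ b ∈ A, a * b = b * a) ∧
      ∀ x : P, (∀ a ∈ A, x * a = a * x) → x ∈ A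

/-- **Generators of an abelian `p`-group.** `A` finite abelian `p`-group with `|A[p]| = p^k`. Then `A` is
generated by `k` elements, `|A[p²]| ≤ p^(2k)` and the group of `p²`-th powers has index `≤ p^(2k)`.

Proof. `|A/A^p| = |A| / |A^p| = |A[p]| = p^k` (`A^p` is the image of `a ↦ a^p`, whose kernel is `A[p]`).
A group of order `p^k` is generated by `k` elements (add elements one at a time, the order of the
generated subgroup is multiplied by at least `p` as long as it is proper). So `A = ⟨x⟩ A^p` with `k`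
elements `x`; raising to the `p`-th power, `A^p = ⟨x⟩^p A^{p²}`, so `A = ⟨x⟩ A^{p^m}` for all `m`, and
`A^{p^m} = 1` for large `m`. `A[p²] → A[p]`, `a ↦ a^p` has kernel `A[p]`, so `|A[p²]| ≤ p^{2k}`, and
`|A : A^{p²}| = |A[p²]|`. -/
def StmtAbRank : Prop :=
  ∀ (p : ℕ) [Fact p.Prime] (A : Type) [CommGroup A] [Finite A] (k : ℕ), IsPGroup p A →
    Nat.card {a : A // a ^ p = 1} = p ^ k →
    (∃ x : Fin k → A, Subgroup.closure (Set.range x) = ⊤) ∧
    Nat.card {a : A // a ^ (p ^ 2) = 1} ≤ p ^ (2 * k) ∧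
    (powMonoidHom (p ^ 2) : A →* A).range.index ≤ p ^ (2 * k)

/-- **Equal `p`-th powers.** `A` finite abelian `p`-group, `x`, `y` automorphisms of `A` which are trivial
on `A/A^{p²}` and on `A[p²]`, with `x^p = y^p`. Then `x a / y a` has order dividing `p` for every `a`.

Proof (additively). Let `w = x - y : A → A`, an additive map. Claim: if `m ≥ 2` and `p^m w = 0` then
`p^(m-1) w = 0`. Indeed `0 = x^p - y^p = ∑_{j<p} x^{p-1-j} w y^j` (telescoping). Multiply by `p^{m-2}`: for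
`a ∈ A`, `y^j a = a + p² b` for some `b` (`y` is trivial on `A/p²A`, hence so is `y^j`), so
`p^{m-2} w (y^j a) = p^{m-2} w a + p^m w b = p^{m-2} w a`; and `p^{m-2} w a` is killed by `p²`, so it is
fixed by `x`, hence by `x^{p-1-j}`. So every summand is `p^{m-2} w a` and
`0 = p · p^{m-2} w a = p^{m-1} w a`. Since `p^m w = 0` for large `m`, descending gives `p w = 0`. -/
def StmtPow : Prop :=
  ∀ (p : ℕ) [Fact p.Prime] (A : Type) [CommGroup A] [Finite A], IsPGroup p A →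
    ∀ x y : MulAut A,
    (∀ a, ∃ b, x a = a * b ^ (p ^ 2)) → (∀ a, ∃ b, y a = a * b ^ (p ^ 2)) →
    (∀ a, a ^ (p ^ 2) = 1 → x a = a) → (∀ a, a ^ (p ^ 2) = 1 → y a = a) →
    x ^ p = y ^ p → ∀ a, (x a / y a) ^ p = 1

/-- **Generators of a `p`-group from the fibres of the power map.** Proof. `Φ` = Frattini subgroup of `Q`
(Mathlib: `frattini Q`). Maximal subgroups of a `p`-group are normal of index `p`, so `x^p ∈ Φ` for all
`x`. The map `x ↦ x^p` has fibres of size `≤ p^e`, so `|Q| ≤ p^e · |Φ|`, i.e. `|Q : Φ| ≤ p^e`. `Q/Φ` is a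
group of order `p^{e'}` with `e' ≤ e`, so it is generated by `e'` elements, hence (pad by `1`) by `e`
elements, which lift to `x : Fin e → Q` with `⟨x⟩ ⊔ Φ = ⊤`; `frattini_nongenerating` gives `⟨x⟩ = ⊤`. -/
def StmtFratt : Prop :=
  ∀ (p : ℕ) [Fact p.Prime] (Q : Type) [Group Q] [Finite Q] (e : ℕ), IsPGroup p Q →
    (∀ x : Q, Nat.card {y : Q // y ^ p = x ^ p} ≤ p ^ e) →
    ∃ x : Fin e → Q, Subgroup.closure (Set.range x) = ⊤

/-- **Adding generators one at a time.** Proof: if `⟨x_1..x_m⟩ = H` and `|P : H| ≤ p^e`: induction on `e`; if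
`H ≠ ⊤` take `z ∉ H`; `H' = ⟨H, z⟩` has `|P : H'| ≤ |P : H| / p ≤ p^(e-1)` (indices in a `p`-group are
powers of `p`); if `H = ⊤` pad with `1`. -/
def StmtGenIdx : Prop :=
  ∀ (p : ℕ) [Fact p.Prime] (P : Type) [Group P] [Finite P], IsPGroup p P →
    ∀ (m e : ℕ) (x : Fin m → P), (Subgroup.closure (Set.range x)).index ≤ p ^ e →
      ∃ y : Fin (m + e) → P, Subgroup.closure (Set.range y) = ⊤

/-- **The congruence subgroup has small index.** Proof. `H` is the set in the statement, a subgroup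
(`x` acts on `A` by conjugation; the condition says that `x` acts trivially on `A/A^{p²}` and on `A[p²]`).
By `StmtAbRank` for `A`: `A` is generated by `k` elements `a_i`, `|A : A^{p²}| ≤ p^{2k}`, `|A[p²]| ≤ p^{2k}`;
and for `A[p²]` (which has the same `p`-torsion): it is generated by `k` elements `b_i`. The map
`P → (A/A^{p²})^k × (A[p²])^k`, `x ↦ (x a_i x⁻¹ A^{p²})_i, (x b_i x⁻¹)_i` takes equal values at `x`, `y` iff
`x⁻¹ y ∈ H` (the endomorphisms of `A/A^{p²}` and `A[p²]` induced by `x`, `y` agree on generators), so it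
induces an injection of `P/H` and `|P : H| ≤ (p^{2k})^k (p^{2k})^k = p^{4k²}`. -/
def StmtIdx : Prop :=
  ∀ (p : ℕ) [Fact p.Prime] (P : Type) [Group P] [Finite P], IsPGroup p P →
    ∀ (A : Subgroup P) [A.Normal] (k : ℕ), (∀ a ∈ A, ∀ b ∈ A, a * b = b * a) →
      Nat.card {a : P // a ∈ A ∧ a ^ p = 1} = p ^ k →
      ∃ H : Subgroup P, (∀ x, x ∈ H ↔ (∀ a ∈ A, ∃ b ∈ A, x * a * x⁻¹ = a * b ^ (p ^ 2)) ∧
        ∀ a ∈ A, a ^ (p ^ 2) = 1 → x * a * x⁻¹ = a) ∧ H.index ≤ p ^ (4 * k ^ 2)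

/-- **Generators of the congruence subgroup.** Proof. `A ≤ H` (`A` is abelian). Let `ψ : H → MulAut A` be
conjugation; `ker ψ = C_H(A) = A`. Let `Q = ψ(H)`, a `p`-group. For `x, y ∈ Q` with `x^p = y^p`,
`StmtPow` gives `(x a / y a)^p = 1` for all `a ∈ A`; `y` is determined by `x` and
`(x a_i / y a_i)_{i<k} ∈ (A[p])^k` where `a_1..a_k` generate `A` (`StmtAbRank`), so the fibres of the
`p`-power map of `Q` have size `≤ p^{k²}` and by `StmtFratt` `Q` is generated by `k²` elements. Their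
lifts to `H` together with `a_1..a_k` generate `H`. -/
def StmtGenH : Prop :=
  ∀ (p : ℕ) [Fact p.Prime] (P : Type) [Group P] [Finite P], IsPGroup p P →
    ∀ (A : Subgroup P) [A.Normal] (k : ℕ), (∀ a ∈ A, ∀ b ∈ A, a * b = b * a) →
      (∀ x : P, (∀ a ∈ A, x * a = a * x) → x ∈ A) →
      Nat.card {a : P // a ∈ A ∧ a ^ p = 1} = p ^ k →
      ∀ H : Subgroup P, (∀ x, x ∈ H ↔ (∀ a ∈ A, ∃ b ∈ A, x * a * x⁻¹ = a * b ^ (p ^ 2)) ∧
        ∀ a ∈ A, a ^ (p ^ 2) = 1 → x * a * x⁻¹ = a) →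
      ∃ x : Fin (k + k ^ 2) → P, Subgroup.closure (Set.range x) = H

/-- **Generators of `p`-groups.** Every nontrivial finite `p`-group `P` has an elementary abelian normal
subgroup `B` of rank `k ≥ 1` such that `P` is generated by `6 k²` elements.

Proof. `A` from `StmtMaxAb`, `B = A[p] = {a ∈ A | a^p = 1}` (characteristic in `A`, so normal in `P`),
`|B| = p^k`; `A ≠ 1` (if `A = 1` then `C_P(A) = P ≠ 1`), so `k ≥ 1`. `H` from `StmtIdx`, generated by `k + k²`
elements (`StmtGenH`), of index `≤ p^{4k²}`; by `StmtGenIdx` `P` is generated by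
`k + k² + 4 k² ≤ 6 k²` elements; pad by `1`. -/
def StmtPGen : Prop :=
  ∀ (p : ℕ) [Fact p.Prime] (P : Type) [Group P] [Finite P] [Nontrivial P], IsPGroup p P →
    ∃ (k : ℕ) (B : Subgroup P), 1 ≤ k ∧ B.Normal ∧ (∀ a ∈ B, ∀ b ∈ B, a * b = b * a) ∧
      (∀ b ∈ B, b ^ p = 1) ∧ Nat.card B = p ^ k ∧
      ∃ x : Fin (6 * k ^ 2) → P, Subgroup.closure (Set.range x) = ⊤

/-- **`p`-groups have linear cost.** Proof. If `P` is trivial, `Enf.trivial`. Otherwise take `k`, `B`,
`x` from `StmtPGen`. If `σ (g * x j) = σ g * x j` for all `j`, `g`, then the set of `h` with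
`σ (g h) = σ (g) h` for all `g` is a subgroup containing all `x j`, so `σ (h) = σ (1) h` for all `h`:
`IsLeft σ`. If `k = 1`: `6` applications of `StmtRel` (`f g = g * x j`) and `StmtJoin`, cost `6 (n + 1)`. If
`k ≥ 2`: `StmtElem` with `d = 6 k²`: cost `12 n + 120 k⁴ p² |P : B|`, and `k⁴ ≤ 82 · 2^(k-2) ≤ 82 p^(k-2)`,
so `k⁴ p² |P : B| ≤ 82 p^k |P : B| = 82 n`. So `C₀ = 10000` works. -/
def StmtP : Prop :=
  ∃ C₀ : ℕ, ∀ (p : ℕ) [Fact p.Prime] (P : Type) [Group P] [Finite P], IsPGroup p P →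
    Enf P P IsLeft (C₀ * Nat.card P)

/-! ## IV. The generation lemma -/

/-- `M` is a minimal normal subgroup. -/
def IsMinNormal {G : Type} [Group G] (M : Subgroup G) : Prop :=
  M.Normal ∧ M ≠ ⊥ ∧ ∀ N : Subgroup G, N.Normal → N ≤ M → N = ⊥ ∨ N = M

/-- The data of a simple factor `S` of a nonabelian minimal normal subgroup `M`. -/
structure IsFactor {G : Type} [Group G] (M S : Subgroup G) : Prop where
  le : S ≤ M
  simple : IsSimpleGroup S
  noncomm : ∃ a b : S, a * b ≠ b * a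
  /-- `S` is normal in `M` -/
  norm : ∀ m ∈ M, ∀ s ∈ S, m * s * m⁻¹ ∈ S
  /-- a conjugate of `S` is `S` or commutes with `S` -/
  conj : ∀ g : G, (∀ s ∈ S, g * s * g⁻¹ ∈ S) ∨ ∀ s ∈ S, ∀ s' ∈ S, s * (g * s' * g⁻¹) = (g * s' * g⁻¹) * s
  /-- `M` is generated by the conjugates of `S` -/
  gen : ∀ Z : Subgroup G, (∀ g : G, ∀ s ∈ S, g * s * g⁻¹ ∈ Z) → M ≤ Z
  /-- `M = S · C_M(S)` -/
  split : ∀ m ∈ M, ∃ s ∈ S, ∃ c ∈ M, (∀ s' ∈ S, c * s' = s' * c) ∧ m = s * c
  /-- `Z(M) = 1` -/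
  center : ∀ z ∈ M, (∀ m ∈ M, z * m = m * z) → z = 1

/-- **Simple factors.** Proof. Let `S ≤ M` be minimal among the nontrivial subgroups of `G` which are
contained in `M` and normalized by `M` (finite nonempty set). For `g ∈ G`, `gSg⁻¹` is again minimal of this
kind (`M` normal), and `S ⊓ gSg⁻¹` is normalized by `M`, so it is `S` (then `gSg⁻¹ = S` by minimality/
cardinality, first alternative) or `1`; in the second case `S` and `gSg⁻¹` are normalized by each other
(both in `M`), so they commute. `gen`: the subgroup generated by all conjugates of `S` is normal in `G`,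
nontrivial, contained in `M`, so equals `M`. `split`: `M` is generated by the conjugates of `S`; those
different from `S` commute with `S`; so `M = S C_M(S)` (`S C_M(S)` is a subgroup, since `C_M(S)` is
normalized by `S`, and contains all conjugates). Center: `Z(M)` is characteristic in `M`, so normal in
`G`; if it is not `1` it is `M`, contradiction to `M` nonabelian. `noncomm`: if `S` is abelian then all
conjugates of `S` are abelian and commute with each other, so `M` is abelian. `simple`: a subgroup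
`T ≤ S` normal in `S` is normalized by `S` and by `C_M(S)`, so by `M`; by minimality `T = 1` or `S`. -/
def StmtMinNonab : Prop :=
  ∀ (G : Type) [Group G] [Finite G] (M : Subgroup G), IsMinNormal M →
    (∃ a ∈ M, ∃ b ∈ M, a * b ≠ b * a) → ∃ S : Subgroup G, IsFactor M S

/-- **Gaschütz' lemma.** Proof. For a finite group `X` with normal subgroup `N` and `w : Fin r → X` with
`⟨w⟩ N = X` let `φ_X(w)` be the number of `a : Fin r → N` with `⟨w_i a_i⟩ = X`. Claim: `φ_X(w)` does not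
depend on `w` (with `⟨w⟩ N = X`). Induction on `|X|` (all `N`): partition the `|N|^r` tuples `a` by the
subgroup `Y = ⟨w_i a_i⟩`; always `Y N = X`. For `Y < X` with `Y N = X`: choose `v_i ∈ Y ∩ w_i N`; then
`{w_i a_i} ∩ Y = v_i (N ∩ Y)`, and `⟨v⟩ (N ∩ Y) = Y` by Dedekind (`⟨v⟩ N = X`), so the number of `a` with
`⟨w_i a_i⟩ = Y` is `φ_Y(v)` (for the normal subgroup `N ∩ Y` of `Y`), which by induction is a number
`φ_Y` independent of `v`. So `φ_X(w) = |N|^r - ∑_{Y < X, Y N = X} φ_Y`. Now if `X = ⟨u⟩` then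
`φ_X(u) ≥ 1` (`a = 1`), so `φ_X(w) ≥ 1`. -/
def StmtGaschutz : Prop :=
  ∀ (X : Type) [Group X] [Finite X] (N : Subgroup X) [N.Normal] (r : ℕ) (w u : Fin r → X),
    Subgroup.closure (Set.range w) ⊔ N = ⊤ → Subgroup.closure (Set.range u) = ⊤ →
    ∃ a : Fin r → X, (∀ i, a i ∈ N) ∧ Subgroup.closure (Set.range fun i => w i * a i) = ⊤

/-- **Sylow subgroups meet the simple factors.** Proof: `P ⊓ M` is a Sylow `p`-subgroup of `M`, `≠ 1` as
`p ∣ |M|`. Suppose `P ⊓ S = 1`. `S` is normal in `M`, so `P ⊓ S` is a Sylow `p`-subgroup of `S` and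
`p ∤ |S|`. For `g ∈ G` let `S^g = g S g⁻¹`; `M = S^g C_M(S^g)` (`split`, conjugated), `C_M(S^g)` is normal in
`M` and `M/C_M(S^g)` is a quotient of `S^g`, of order prime to `p`, so the `p`-group `P ⊓ M` is contained
in `C_M(S^g)` (for all `g`). So every element of `P ⊓ M` commutes with all conjugates of `S`, hence with
`M` (`gen`, for the centralizer `Z` of `P ⊓ M`), so `P ⊓ M ≤ Z(M) = 1`, a contradiction. -/
def StmtSylMeet : Prop :=
  ∀ (p : ℕ) [Fact p.Prime] (G : Type) [Group G] [Finite G] (M S : Subgroup G), IsMinNormal M →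
    IsFactor M S → p ∣ Nat.card M → ∀ P : Sylow p G, ∃ x ∈ (P : Subgroup G), x ∈ S ∧ x ≠ 1

/-- **Powers of adjusted elements.** Proof: let `l ≥ 1` be minimal such that `y^l` normalizes `S` (exists,
`y` has finite order). For `a ∈ S`, `(y a)^l = y^l · a^{(l-1)} ⋯ a^{(1)} · a`, `a^{(j)} = y^{-j} a y^j`. For
`0 < j < l`, `y^{-j}` does not normalize `S` (`G` finite: `y^{-j} S y^j ≤ S` would imply equality and that
`y^j` normalizes `S`), so by `conj` `y^{-j} S y^j` commutes with `S`. So for `s ∈ S`: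
`(y a)^l s (y a)^{-l} = y^l (a^{(l-1)} ⋯ a^{(1)}) (a s a⁻¹) (…)⁻¹ y^{-l} = y^l a s a⁻¹ y^{-l}`. -/
def StmtTwist : Prop :=
  ∀ (G : Type) [Group G] [Finite G] (M S : Subgroup G), IsFactor M S → ∀ y : G, ∃ l : ℕ, 1 ≤ l ∧
    (∀ s ∈ S, y ^ l * s * (y ^ l)⁻¹ ∈ S) ∧
    ∀ a ∈ S, ∀ s ∈ S, (y * a) ^ l * s * ((y * a) ^ l)⁻¹ = (y ^ l * a) * s * (y ^ l * a)⁻¹

/-- **Adjusting the generators along a nonabelian minimal normal subgroup.**

Proof. `S` from `StmtMinNonab`. For each `i` let `l_i` be as in `StmtTwist` for `y_i`. Let `N_G(S)` act on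
`S` by conjugation, `ψ : N_G(S) → MulAut S`; `w_i = ψ(y_i^{l_i})`, `X₀ = ⟨w_i⟩ · Inn S ≤ MulAut S`. By
`ASGen` (`S` is a section of `G`) `X₀` is generated by `t` elements, and by `StmtGaschutz` in the group `X₀`
with normal subgroup `Inn S` there are `a_i ∈ S` with `⟨w_i ψ(a_i)⟩ = X₀ ≥ Inn S`. Let `Z = ⟨B, y_i a_i⟩`.
Then `(y_i a_i)^{l_i} ∈ Z ∩ N_G(S)` acts on `S` as `w_i ψ(a_i)` (`StmtTwist`), so `Z ∩ N_G(S)` induces
all inner automorphisms of `S`. (i) `Z ∩ S ≠ 1` by `StmtSylMeet`. (ii) `Z ∩ S` is normal in `S`: for `s ∈ S`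
there is `z ∈ Z ∩ N_G(S)` inducing the same automorphism of `S` as `s`, so
`s (Z ∩ S) s⁻¹ = z (Z ∩ S) z⁻¹ = Z ∩ S`. So `Z ∩ S = S`, `S ≤ Z`. (iii) `Z ⊔ M = ⊤` (as `a_i ∈ M`); for
`g = z m`, `g S g⁻¹ = z (m S m⁻¹) z⁻¹ = z S z⁻¹ ≤ Z`; so `M ≤ Z` (`gen`) and `Z = ⊤`. -/
def StmtAdjust : Prop :=
  ∀ (t p : ℕ) [Fact p.Prime] (G : Type) [Group G] [Finite G], ASGen t G →
    ∀ M : Subgroup G, IsMinNormal M → (∃ a ∈ M, ∃ b ∈ M, a * b ≠ b * a) → p ∣ Nat.card M →
    ∀ (P : Sylow p G) (B : Subgroup G), (P : Subgroup G) ≤ B → ∀ y : Fin t → G,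
      Subgroup.closure ((B : Set G) ∪ Set.range y) ⊔ M = ⊤ →
      ∃ a : Fin t → G, (∀ i, a i ∈ M) ∧
        Subgroup.closure ((B : Set G) ∪ Set.range fun i => y i * a i) = ⊤

/-- **Sections.** Proof: a section of a quotient (or subgroup) of `G` is a section of `G`
(`Subgroup.comap`, composition with the quotient map). -/
def StmtSection : Prop :=
  ∀ (t : ℕ) (G : Type) [Group G] (N : Subgroup G) [N.Normal], ASGen t G → ASGen t (G ⧸ N)

/-- **Generation lemma.** `G = ⟨P, K, y_1, …, y_t⟩` with `P` Sylow, `K` a `p'`-subgroup.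

Proof. Induction on `|G|`. `G = 1`: `K = ⊥`. Otherwise let `M` be a minimal normal subgroup, and apply the
induction hypothesis to `G/M` (with `StmtSection`) and the image of `P`, a Sylow subgroup of `G/M`
(`Sylow.mapSurjective`): `K̄`, `ȳ`. Choose preimages `y_i`; let `K̃` be the preimage of `K̄`
(`Subgroup.comap`), `|K̃| = |K̄| |M|`.
Case 1: `M` is a `p`-group. `M ≤ P`; `M` is a normal subgroup of `K̃` of order prime to its index, so by
Schur–Zassenhaus (`Subgroup.exists_right_complement'_of_coprime`) `K̃ = M ⋊ K` with `|K| = |K̄|`.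
`⟨P, K, y⟩` contains `M` and maps onto `G/M`.
Case 2: `p ∤ |M|`. `K = K̃` (contains `M`).
Case 3: otherwise. `M` is nonabelian (if `M` is abelian, its Sylow `p`-subgroup is characteristic in `M`,
so normal in `G`, so it is `1` or `M`). `P_M = P ⊓ M` is a Sylow `p`-subgroup of `M`, and it is a Sylow
`p`-subgroup of `K̃` too since `p ∤ |K̃ : M|`. Frattini argument in `K̃`: `K̃ = M N_{K̃}(P_M)`. `P_M` is a
normal Sylow `p`-subgroup of `N_{K̃}(P_M)`; by Schur–Zassenhaus `N_{K̃}(P_M) = P_M K`, `p ∤ |K|`. So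
`M K = K̃`. Now `StmtAdjust` with `B = ⟨P, K⟩`. -/
def StmtGen : Prop :=
  ∀ (t p : ℕ) [Fact p.Prime] (G : Type) [Group G] [Finite G], ASGen t G →
    ∀ P : Sylow p G, ∃ (K : Subgroup G) (y : Fin t → G), ¬ p ∣ Nat.card K ∧
      Subgroup.closure ((P : Set G) ∪ (K : Set G) ∪ Set.range y) = ⊤

/-! ## V. The two recursion steps -/

/-- **Quotients.** Proof: `StmtPull` for `G → G/N` (a `G/N`-invariant structure on `G/N` is
`G`-invariant; `MulAction.toPerm g` on `G/N` is left multiplication by `gN`). If `σ'(gN) = ā gN` for all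
`g` and `a ∈ ā` then `σ(g) N = a g N`. Cost `c + |G/N| + n + 2`. -/
def StmtQuot : Prop :=
  ∀ (G : Type) [Group G] [Finite G] (N : Subgroup G) [N.Normal] (c : ℕ),
    Enf (G ⧸ N) (G ⧸ N) IsLeft c →
    Enf G G (fun σ => ∃ a : G, ∀ g, (a * g)⁻¹ * σ g ∈ N) (c + 2 * Nat.card G + 2)

/-- **Cosets.** Proof: `StmtPull` for `G → G/K` with `Enf.trivial`. -/
def StmtCoset : Prop :=
  ∀ (G : Type) [Group G] [Finite G] (K : Subgroup G),
    Enf G G (fun σ => ∀ g h : G, g⁻¹ * h ∈ K → (σ g)⁻¹ * σ h ∈ K) (2 * Nat.card G + 2)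

/-- **Normal `p`-subgroup.** Proof. `K`, `y` from `StmtGen` (with some `P : Sylow p G`). Join: `StmtQuot`
(`c + 2n + 2`), `StmtInd` for `H = P` (`|G:P| (2 C₀ |P| + 5) + n ≤ (2 C₀ + 6) n`), `StmtCoset` for `K`
(`2n + 2`), `StmtRel` for the maps `g ↦ g y_i` (`t (n + 1)`). Let `σ` have all these properties:
`σ(g) = a g n_g` (`n_g ∈ N`). For `k ∈ K`, `k' = σ(g)⁻¹ σ(gk) ∈ K` and
`k' = n_g⁻¹ g⁻¹ a⁻¹ a g k n_{gk} = n_g⁻¹ k n_{gk}`, so `k⁻¹ k' ∈ N ∩ K = 1` (`N` a normal `p`-group, `K` a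
`p'`-group). So `σ(gx) = σ(g) x` for all `g` and all `x ∈ P ∪ K ∪ {y_i}`, hence for all `x`, and
`σ(x) = σ(1) x`. -/
def StmtAb : Prop :=
  ∀ (C₀ t p : ℕ) [Fact p.Prime] (G : Type) [Group G] [Finite G], ASGen t G →
    (∀ P : Sylow p G, Enf (P : Subgroup G) (P : Subgroup G) IsLeft
      (C₀ * Nat.card (P : Subgroup G))) →
    ∀ (N : Subgroup G) [N.Normal], IsPGroup p N → ∀ c : ℕ, Enf (G ⧸ N) (G ⧸ N) IsLeft c →
      Enf G G IsLeft (c + (2 * C₀ + 4 * t + 20) * Nat.card G)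

/-- **Right multiplication by a nonabelian minimal normal subgroup.**

Proof. For `g ∈ G` let `T_g = {c ∈ N | c commutes with g S g⁻¹}`. `⋂_g T_g = Z(N) = 1` (`gen`, `center`).
By `StmtIrred` there are `g_i` (`i < k`) such that `C i = T_{g_i}` satisfies `ChainOK C`. `C i` is normal in `N`, and `N = (g_i S g_i⁻¹) C i` (`split`, conjugated). On
`Ω' = Σ i, G/C i` consider for `a < t` the map `f_a ⟨i, g C i⟩ = ⟨i, g z_{i,a} C i⟩`,
`z_{i,a} = g_i x_a g_i⁻¹` (it commutes with `C i`, so this is well defined); `|Ω'| ≤ 2 n` (`StmtChainCard`). `StmtRel` for `f_a`, join, `StmtChain`: total cost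
`≤ t (2n + 1) + 12 n ≤ (12 + 3t) n`. Let `σ` be enforced. Then for every `i` the set
`Z_i = {z ∈ N | ∀ g, (σ(g) z)⁻¹ σ(g z) ∈ C i}` is closed under multiplication (`C i` normal in `N`),
contains `C i` and all `z_{i,a}`, hence `⟨z_{i,a}⟩_a = g_i S g_i⁻¹`, hence `N`. So
`(σ(g) z)⁻¹ σ(gz) ∈ ⋂ C i = 1` for `z ∈ N`. -/
def StmtNtors : Prop :=
  ∀ (G : Type) [Group G] [Finite G] (N S : Subgroup G), IsMinNormal N → IsFactor N S →
    ∀ (t : ℕ) (x : Fin t → G), Subgroup.closure (Set.range x) = S →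
      Enf G G (fun σ => ∀ g : G, ∀ z ∈ N, σ (g * z) = σ g * z) ((12 + 3 * t) * Nat.card G)

/-- **Nonabelian minimal normal subgroup.** Proof. `S` from `StmtMinNonab`; `ASGen` for `S` with
`X = Inn S` gives `t` generators of `Inn S`, hence of `S` (`S` has trivial centre). There is a maximal
subgroup `M` of `G` with `N ≰ M`: otherwise `N ≤ frattini G`, which is nilpotent (`frattini_nilpotent`), so
`Z(N) ≠ 1`, so `Z(N) = N` by minimality, contradiction. `G = N M`. Join `StmtQuot` (`c + 2n + 2`),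
`StmtCoset` for `M` (`2n + 2`), `StmtNtors` (`(12 + 3t) n`). Let `σ` have all three properties,
`σ(g) ∈ a g N`. Put `σ'(g) = σ(1)⁻¹ σ(g)`: `σ'(1) = 1`, `σ'(g) ∈ g N` (`σ(1) ∈ aN`, `N` normal),
`σ'(gz) = σ'(g) z` for `z ∈ N`, so `σ'(z) = z` for `z ∈ N`; left `M`-cosets are preserved; as every coset
`gM` contains an element of `N`, `σ'(g) M = g M`. For `g ∈ G` let `ν = g⁻¹ σ'(g) ∈ N`. For all `x ∈ N`:
`(g x)⁻¹ σ'(g x) = x⁻¹ ν x ∈ M`. The set `V = {ν ∈ N | ∀ x ∈ N, x⁻¹ ν x ∈ M}` is a subgroup normalized by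
`N` and by `M`, so normal in `G`, contained in `N` and in `M`; `V ≠ N` since `N ≰ M`; so `V = 1`, `ν = 1`
and `σ(g) = σ(1) g`. -/
def StmtNonab : Prop :=
  ∀ (t : ℕ) (G : Type) [Group G] [Finite G], ASGen t G → ∀ (N : Subgroup G) [N.Normal],
    IsMinNormal N → (∃ a ∈ N, ∃ b ∈ N, a * b ≠ b * a) → ∀ c : ℕ, Enf (G ⧸ N) (G ⧸ N) IsLeft c →
      Enf G G IsLeft (c + (20 + 3 * t) * Nat.card G)

/-- **Main theorem.** Proof. Strong induction on `n = |G|`. `n = 1`: `Enf.trivial`. Otherwise let `N` be a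
minimal normal subgroup; `Enf (G/N) (G/N) IsLeft (C (t+1) |G/N|)` by induction (`StmtSection`), and
`|G/N| ≤ n/2`. If `N` is commutative it is a `q`-group for some prime `q` (its Sylow `q`-subgroup is
normal in `G`), use `StmtAb` with `StmtP`; otherwise `StmtNonab`. So the cost is at most
`C (t+1) n/2 + (2 C₀ + 4t + 20) n ≤ C (t+1) n` for `C = 4 C₀ + 48`. -/
def StmtMain : Prop :=
  ∃ C : ℕ, ∀ (t : ℕ) (G : Type) [Group G] [Finite G], ASGen t G →
    Enf G G IsLeft (C * (t + 1) * Nat.card G)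

end Pool.Agent.Lib.MP_585e73_co
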